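import Pool.Agent.Q225.PK.Norm

set_option autoImplicit false

/-!
# Error analysis
-/

namespace Pool.Agent.Q225.PK

open Finset Matrix

variable {n : ℕ}

/-- The data of the iteration. -/
structure Data (n L : ℕ) where
  G : Matrix (Fin n) (Fin n) ℝ
  g : Matrix (Fin n) (Fin n) ℝ
  Q : ℕ → Matrix (Fin n) (Fin n) ℝ
  U : ℕ → Fin n → ℝ
  b : Fin n → ℝ
  z : Fin n → ℝ
  h : ℝ
  h0 : 0 ≤ h
  hh : (n : ℝ) * h ≤ (1 / 2) ^ (11 * L + 9)
  hG : ∑ i, ∑ j, G i j ^ 2 ≤ 1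
  hg : ∀ i j, |g i j - G i j| ≤ h
  hQ0 : ∀ i j, |Q 0 i j - (1 - gᵀ * g) i j| ≤ h
  hQ : ∀ k i j, |Q (k + 1) i j - (Q k * Q k) i j| ≤ h
  hU0 : U 0 = Gᵀ *ᵥ b
  hU : ∀ k, U (k + 1) = U k + Q k *ᵥ U k
  hz : G *ᵥ z = b

namespace Data

variable {L : ℕ} (D : Data n L)

/-- The contraction. -/
noncomputable def R : Matrix (Fin n) (Fin n) ℝ := 1 - D.Gᵀ * D.G

/-- The first error. -/
noncomputable def η (_D : Data n L) : ℝ := (1 / 2) ^ (11 * L + 7)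

theorem η_pos : 0 < D.η := by unfold η; positivity

theorem nh : (n : ℝ) * D.h ≤ D.η / 4 := by
  refine D.hh.trans ?_
  unfold η
  rw [show 11 * L + 9 = (11 * L + 7) + 2 by ring, pow_add]
  norm_num
  linarith

theorem opG : OpB D.G 1 := by
  refine (OpB.frob D.G).mono ?_
  rw [← Real.sqrt_one]
  exact Real.sqrt_le_sqrt D.hG

theorem opGt : OpB D.Gᵀ 1 := by
  refine (OpB.frob D.Gᵀ).mono ?_
  rw [← Real.sqrt_one]
  refine Real.sqrt_le_sqrt ?_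
  rw [sum_comm]
  exact D.hG

theorem opR : OpB D.R 1 := contr_one _ D.opGt

theorem opRk (k : ℕ) : OpB (D.R ^ k) 1 := by
  have := D.opR.pow zero_le_one k
  rwa [one_pow] at this

theorem η_le (k : ℕ) (hk : k ≤ L) : 16 ^ k * D.η ≤ (1 / 2) ^ (7 * L + 7) := by
  unfold η
  calc (16 : ℝ) ^ k * (1 / 2) ^ (11 * L + 7) ≤ 16 ^ L * (1 / 2) ^ (11 * L + 7) := by
        gcongr; norm_num
    _ = (1 / 2) ^ (7 * L + 7) := by
        rw [show 11 * L + 7 = 4 * L + (7 * L + 7) by ring, pow_add (1 / 2 : ℝ) (4 * L), pow_mul,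
          ← mul_assoc, ← mul_pow]
        norm_num

theorem η4_le (k : ℕ) (hk : k ≤ L) : 4 ^ k * D.η ≤ 1 := by
  calc 4 ^ k * D.η ≤ 16 ^ k * D.η := by
        have := D.η_pos
        gcongr; norm_num
    _ ≤ (1 / 2) ^ (7 * L + 7) := D.η_le k hk
    _ ≤ 1 := pow_le_one₀ (by norm_num) (by norm_num)

theorem err0 : OpB (D.Q 0 - D.R) D.η := by
  have h1 : OpB (D.Q 0 - (1 - D.gᵀ * D.g)) (n * D.h) :=
    OpB.entries D.h0 fun i j => by rw [Matrix.sub_apply]; exact D.hQ0 i j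
  have h2 : OpB (D.g - D.G) (n * D.h) := OpB.entries D.h0 D.hg
  have h3 : OpB ((D.g - D.G)ᵀ) (n * D.h) := OpB.entries D.h0 fun i j => D.hg j i
  have h4 : OpB D.gᵀ (1 + n * D.h) := by
    have : D.gᵀ = D.Gᵀ + (D.g - D.G)ᵀ := by rw [transpose_sub]; abel
    rw [this]
    exact D.opGt.add h3
  have hnh : 0 ≤ (n : ℝ) * D.h := mul_nonneg (Nat.cast_nonneg _) D.h0
  have e : D.Q 0 - D.R = (D.Q 0 - (1 - D.gᵀ * D.g)) - (D.gᵀ * (D.g - D.G) + (D.g - D.G)ᵀ * D.G) := by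
    unfold R
    rw [transpose_sub, Matrix.mul_sub, Matrix.sub_mul]
    abel
  rw [e]
  refine (h1.sub ((h4.mul h2 (by linarith)).add (h3.mul D.opG hnh))).mono ?_
  have h5 := D.nh
  have h6 : D.η ≤ 1 := by simpa using D.η4_le 0 (Nat.zero_le _)
  nlinarith

theorem err (k : ℕ) (hk : k ≤ L) : OpB (D.Q k - D.R ^ 2 ^ k) (4 ^ k * D.η) := by
  induction k with
  | zero => simpa using D.err0
  | succ k ih =>
    have ih' := ih (by omega)
    set E := 4 ^ k * D.η with hE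
    have hE0 : 0 ≤ E := by have := D.η_pos; positivity
    have hE1 : E ≤ 1 := D.η4_le k (by omega)
    have h1 : OpB (D.Q (k + 1) - D.Q k * D.Q k) (n * D.h) :=
      OpB.entries D.h0 fun i j => by rw [Matrix.sub_apply]; exact D.hQ k i j
    have hT := D.opRk (2 ^ k)
    have hQk : OpB (D.Q k) (1 + E) := by
      have : D.Q k = D.R ^ 2 ^ k + (D.Q k - D.R ^ 2 ^ k) := by abel
      rw [this]
      exact hT.add ih'
    have e : D.Q (k + 1) - D.R ^ 2 ^ (k + 1) = (D.Q (k + 1) - D.Q k * D.Q k) +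
        (D.Q k * (D.Q k - D.R ^ 2 ^ k) + (D.Q k - D.R ^ 2 ^ k) * D.R ^ 2 ^ k) := by
      rw [pow_succ 2 k, pow_mul, sq, Matrix.mul_sub, Matrix.sub_mul]
      abel
    rw [e]
    refine (h1.add ((hQk.mul ih' (by linarith)).add (ih'.mul hT hE0))).mono ?_
    have h5 := D.nh
    have h6 : D.η ≤ E := by
      rw [hE]
      have := D.η_pos
      have h4 : (1 : ℝ) ≤ 4 ^ k := one_le_pow₀ (by norm_num)
      nlinarith
    have h7 : (4 : ℝ) ^ (k + 1) * D.η = 4 * E := by rw [hE, pow_succ]; ring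
    rw [h7]
    nlinarith

theorem opQ (k : ℕ) (hk : k ≤ L) : OpB (D.Q k) 2 := by
  have : D.Q k = D.R ^ 2 ^ k + (D.Q k - D.R ^ 2 ^ k) := by abel
  rw [this]
  refine ((D.opRk (2 ^ k)).add (D.err k hk)).mono ?_
  have := D.η4_le k hk
  linarith

theorem errU (k : ℕ) (hk : k ≤ L) :
    nrm (D.U k - (1 - D.R ^ 2 ^ k) *ᵥ D.z) ≤ 16 ^ k * D.η * nrm D.z := by
  induction k with
  | zero =>
    have : D.U 0 - (1 - D.R ^ 2 ^ 0) *ᵥ D.z = 0 := by
      rw [D.hU0, ← D.hz, R, pow_zero, pow_one, sub_sub_cancel, mulVec_mulVec, sub_self]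
    rw [this, nrm_zero]
    have := D.η_pos
    have := nrm_nonneg D.z
    positivity
  | succ k ih =>
    have ih' := ih (by omega)
    have hE := D.err k (by omega)
    have hE1 := D.η4_le k (by omega)
    have hT := D.opRk (2 ^ k)
    set T := D.R ^ 2 ^ k with hTdef
    set W := D.U k - (1 - T) *ᵥ D.z with hW
    have e : D.U (k + 1) - (1 - D.R ^ 2 ^ (k + 1)) *ᵥ D.z =
        (W + D.Q k *ᵥ W) + (D.Q k - T) *ᵥ ((1 - T) *ᵥ D.z) := by
      have e1 : (1 - D.R ^ 2 ^ (k + 1)) *ᵥ D.z =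
          (1 - T) *ᵥ D.z + T *ᵥ ((1 - T) *ᵥ D.z) := by
        rw [pow_succ 2 k, pow_mul, sq, ← hTdef, mulVec_mulVec, ← add_mulVec]
        congr 1
        rw [Matrix.mul_sub, Matrix.mul_one]
        abel
      rw [D.hU k, e1, hW]
      generalize (1 - T) *ᵥ D.z = y
      rw [mulVec_sub, sub_mulVec]
      abel
    rw [e]
    have h1 : nrm ((1 - T) *ᵥ D.z) ≤ 2 * nrm D.z := by
      have := (OpB.one.sub hT) D.z
      linarith
    have h2 : nrm (D.Q k *ᵥ W) ≤ 2 * nrm W := D.opQ k (by omega) W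
    have h3 : nrm ((D.Q k - T) *ᵥ ((1 - T) *ᵥ D.z)) ≤ 4 ^ k * D.η * (2 * nrm D.z) :=
      (hE _).trans (mul_le_mul_of_nonneg_left h1 (by have := D.η_pos; positivity))
    have h4 : (4 : ℝ) ^ k * D.η ≤ 16 ^ k * D.η := by
      have := D.η_pos
      gcongr; norm_num
    calc nrm ((W + D.Q k *ᵥ W) + (D.Q k - T) *ᵥ ((1 - T) *ᵥ D.z))
        ≤ (nrm W + nrm (D.Q k *ᵥ W)) + nrm ((D.Q k - T) *ᵥ ((1 - T) *ᵥ D.z)) :=
          (nrm_add _ _).trans (add_le_add (nrm_add _ _) le_rfl)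
      _ ≤ (nrm W + 2 * nrm W) + 16 ^ k * D.η * (2 * nrm D.z) := by
          refine add_le_add (add_le_add le_rfl h2) (h3.trans ?_)
          exact mul_le_mul_of_nonneg_right h4 (by have := nrm_nonneg D.z; positivity)
      _ ≤ 16 ^ (k + 1) * D.η * nrm D.z := by
          rw [pow_succ]
          have := D.η_pos
          have h0 : 0 ≤ 16 ^ k * D.η * nrm D.z := by have := nrm_nonneg D.z; positivity
          nlinarith

/-- The relative error of the last vector. -/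
theorem final : nrm (D.U L - D.z) ≤
    (√(∑ i, ∑ j, D.Q L i j ^ 2) + (1 / 2) ^ (7 * L + 6)) * nrm D.z := by
  have h1 := D.errU L le_rfl
  have h2 := D.err L le_rfl
  set T := D.R ^ 2 ^ L with hT
  have e : D.U L - D.z = (D.U L - (1 - T) *ᵥ D.z) - (D.Q L *ᵥ D.z - (D.Q L - T) *ᵥ D.z) := by
    rw [sub_mulVec, sub_mulVec, one_mulVec]
    abel
  rw [e]
  have h3 := (OpB.frob (D.Q L)) D.z
  have h4 := h2 D.z
  have h5 : 4 ^ L * D.η ≤ 16 ^ L * D.η := by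
    have := D.η_pos
    gcongr; norm_num
  have h6 := D.η_le L le_rfl
  have h7 : ((1 : ℝ) / 2) ^ (7 * L + 6) = 2 * (1 / 2) ^ (7 * L + 7) := by
    rw [show 7 * L + 7 = (7 * L + 6) + 1 by ring, pow_succ]; ring
  have hz := nrm_nonneg D.z
  calc nrm ((D.U L - (1 - T) *ᵥ D.z) - (D.Q L *ᵥ D.z - (D.Q L - T) *ᵥ D.z))
      ≤ nrm (D.U L - (1 - T) *ᵥ D.z) + (nrm (D.Q L *ᵥ D.z) + nrm ((D.Q L - T) *ᵥ D.z)) :=
        (nrm_sub _ _).trans (add_le_add le_rfl (nrm_sub _ _))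
    _ ≤ 16 ^ L * D.η * nrm D.z + (√(∑ i, ∑ j, D.Q L i j ^ 2) * nrm D.z + 4 ^ L * D.η * nrm D.z) :=
        add_le_add h1 (add_le_add h3 h4)
    _ ≤ _ := by rw [h7]; nlinarith

/-- The Frobenius norm of the last matrix. -/
theorem frobQ (τ : ℝ) (hτ : 0 ≤ τ) (hτ1 : τ ≤ 1) (h' : ∀ v, τ * nrm v ≤ nrm (D.G *ᵥ v)) :
    √(∑ i, ∑ j, D.Q L i j ^ 2) ≤ n * (Real.exp (-(τ ^ 2 * 2 ^ L / 2)) + 4 ^ L * D.η) := by
  have h1 : OpB (D.R ^ 2 ^ L) (√(1 - τ ^ 2) ^ 2 ^ L) :=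
    (contr_lt D.G D.opGt τ hτ h' hτ1).pow (Real.sqrt_nonneg _) _
  have h2 : √(1 - τ ^ 2) ^ 2 ^ L ≤ Real.exp (-(τ ^ 2 * 2 ^ L / 2)) := by
    have h3 : √(1 - τ ^ 2) ≤ Real.exp (-(τ ^ 2) / 2) := by
      rw [Real.sqrt_le_left (Real.exp_pos _).le, ← Real.exp_nat_mul]
      have := Real.add_one_le_exp (-(τ ^ 2))
      calc 1 - τ ^ 2 = -(τ ^ 2) + 1 := by ring
        _ ≤ _ := this
        _ = _ := by congr 1; push_cast; ring
    calc √(1 - τ ^ 2) ^ 2 ^ L ≤ Real.exp (-(τ ^ 2) / 2) ^ 2 ^ L :=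
          pow_le_pow_left₀ (Real.sqrt_nonneg _) h3 _
      _ = Real.exp (-(τ ^ 2 * 2 ^ L / 2)) := by
          rw [← Real.exp_nat_mul]; congr 1; push_cast; ring
  have h4 : OpB (D.Q L) (Real.exp (-(τ ^ 2 * 2 ^ L / 2)) + 4 ^ L * D.η) := by
    have : D.Q L = D.R ^ 2 ^ L + (D.Q L - D.R ^ 2 ^ L) := by abel
    rw [this]
    exact (h1.mono h2).add (D.err L le_rfl)
  exact h4.frob_le (by have := D.η_pos; positivity)

end Data

end Pool.Agent.Q225.PK
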