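import Pool.Agent.Q225.PK.Model

set_option autoImplicit false

/-!
# Basic facts about programs
-/

namespace Pool.Agent.Q225.PK

/-- A bound for the number of steps which does not depend on the memory. -/
def ub : Cmd → (ℕ → ℕ) → ℕ
  | .skip, _ => 1
  | .zero _, _ => 1
  | .one _, _ => 1
  | .copy _ _, _ => 1
  | .add _ _ _, _ => 1
  | .sub _ _ _, _ => 1
  | .mul _ _ _, _ => 1
  | .div _ _ _, _ => 1
  | .seq c₁ c₂, e => ub c₁ e + ub c₂ e
  | .cond _ _ c₁ c₂, e => 1 + (ub c₁ e + ub c₂ e)
  | .loop v N c, e => 1 + ∑ i ∈ Finset.range (N.eval e), (1 + ub c (Function.update e v i))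

theorem cost_le (c : Cmd) : ∀ (e : ℕ → ℕ) (m : Mem), cost c e m ≤ ub c e := by
  induction c with
  | skip => intro e m; simp [cost, ub]
  | zero d => intro e m; simp [cost, ub]
  | one d => intro e m; simp [cost, ub]
  | copy d x => intro e m; simp [cost, ub]
  | add d x y => intro e m; simp [cost, ub]
  | sub d x y => intro e m; simp [cost, ub]
  | mul d x y => intro e m; simp [cost, ub]
  | div d x y => intro e m; simp [cost, ub]
  | seq c₁ c₂ h₁ h₂ => intro e m; simp only [cost, ub]; exact Nat.add_le_add (h₁ _ _) (h₂ _ _)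
  | cond x y c₁ c₂ h₁ h₂ =>
    intro e m
    simp only [cost, ub]
    split_ifs
    · have := h₁ e m; omega
    · have := h₂ e m; omega
  | loop v N c h =>
    intro e m
    simp only [cost, ub]
    gcongr
    exact h _ _

theorem ub_loop_le (v : ℕ) (N : IE) (c : Cmd) (e : ℕ → ℕ) (B : ℕ)
    (h : ∀ i < N.eval e, ub c (Function.update e v i) ≤ B) :
    ub (.loop v N c) e ≤ 1 + N.eval e * (1 + B) := by
  simp only [ub]
  gcongr
  calc ∑ i ∈ Finset.range (N.eval e), (1 + ub c (Function.update e v i))
      ≤ ∑ i ∈ Finset.range (N.eval e), (1 + B) :=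
        Finset.sum_le_sum fun i hi => by
          have := h i (Finset.mem_range.mp hi)
          omega
    _ = N.eval e * (1 + B) := by simp

theorem iter_zero (v : ℕ) (c : Cmd) (e : ℕ → ℕ) (m : Mem) : iter v c e m 0 = m := rfl

theorem iter_succ (v : ℕ) (c : Cmd) (e : ℕ → ℕ) (m : Mem) (k : ℕ) :
    iter v c e m (k + 1) = run c (Function.update e v k) (iter v c e m k) := rfl

theorem run_loop (v : ℕ) (N : IE) (c : Cmd) (e : ℕ → ℕ) (m : Mem) :
    run (.loop v N c) e m = iter v c e m (N.eval e) := rfl

/-- The rule for loops. -/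
theorem loop_inv {v : ℕ} {N : IE} {c : Cmd} {e : ℕ → ℕ} {m : Mem} (I : ℕ → Mem → Prop)
    (h0 : I 0 m)
    (hs : ∀ i < N.eval e, ∀ m', I i m' → I (i + 1) (run c (Function.update e v i) m')) :
    I (N.eval e) (run (.loop v N c) e m) := by
  rw [run_loop]
  have : ∀ k ≤ N.eval e, I k (iter v c e m k) := by
    intro k
    induction k with
    | zero => intro _; exact h0
    | succ k ih =>
      intro hk
      rw [iter_succ]
      exact hs k (by omega) _ (ih (by omega))
  exact this _ le_rfl

/-- The arrays into which a command may write. -/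
def mods : Cmd → List ℕ
  | .skip => []
  | .zero d => [d.a]
  | .one d => [d.a]
  | .copy d _ => [d.a]
  | .add d _ _ => [d.a]
  | .sub d _ _ => [d.a]
  | .mul d _ _ => [d.a]
  | .div d _ _ => [d.a]
  | .seq c₁ c₂ => mods c₁ ++ mods c₂
  | .cond _ _ c₁ c₂ => mods c₁ ++ mods c₂
  | .loop _ _ c => mods c

theorem wr_frame (e : ℕ → ℕ) (m : Mem) (d : Loc) (v : ℝ) (a : ℕ) (h : a ≠ d.a) :
    wr e m d v a = m a := by
  funext i j
  simp [wr, h]

/-- Arrays into which a command does not write are unchanged. -/
theorem frame (c : Cmd) (a : ℕ) : ∀ (e : ℕ → ℕ) (m : Mem), a ∉ mods c → run c e m a = m a := by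
  induction c with
  | skip => intro e m _; rfl
  | zero d => intro e m h; exact wr_frame _ _ _ _ _ (by simpa [mods] using h)
  | one d => intro e m h; exact wr_frame _ _ _ _ _ (by simpa [mods] using h)
  | copy d x => intro e m h; exact wr_frame _ _ _ _ _ (by simpa [mods] using h)
  | add d x y => intro e m h; exact wr_frame _ _ _ _ _ (by simpa [mods] using h)
  | sub d x y => intro e m h; exact wr_frame _ _ _ _ _ (by simpa [mods] using h)
  | mul d x y => intro e m h; exact wr_frame _ _ _ _ _ (by simpa [mods] using h)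
  | div d x y => intro e m h; exact wr_frame _ _ _ _ _ (by simpa [mods] using h)
  | seq c₁ c₂ h₁ h₂ =>
    intro e m h
    simp only [mods, List.mem_append, not_or] at h
    simp only [run]
    rw [h₂ _ _ h.2, h₁ _ _ h.1]
  | cond x y c₁ c₂ h₁ h₂ =>
    intro e m h
    simp only [mods, List.mem_append, not_or] at h
    simp only [run]
    split_ifs
    · exact h₁ _ _ h.1
    · exact h₂ _ _ h.2
  | loop v N c hc =>
    intro e m h
    simp only [mods] at h
    exact loop_inv (fun _ m' => m' a = m a) rfl fun i _ m' hm' => by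
      rw [hc _ _ h, hm']

end Pool.Agent.Q225.PK
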