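import Pool.Agent.Q225.PK.Round

set_option autoImplicit false

/-!
# The whole program
-/

namespace Pool.Agent.Q225.PK

open Finset

/-- Preparation. -/
def prepCmd : Cmd :=
  .seq absCmd <| .seq (.one (sc 29)) <| .seq (dbl 29 PP) <| .seq gCmd <| .seq (trCmd 20 21) <|
  .seq mulCmd <| .seq r0Cmd u0Cmd

theorem dbl_mods (a : ℕ) (w : IE) : mods (dbl a w) = [a] := rfl

theorem run_prep (e : ℕ → ℕ) (m : Mem) (s : ℝ)
    (hs : s = ∑ i ∈ range (e 0), ∑ j ∈ range (e 0), |m 0 i j|)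
    (hb : ∀ i < e 0, ∀ j < e 0, |m 0 i j / s * 2 ^ (PP.eval e)| ≤ 2 ^ (WW.eval e) - 1)
    (hS : ∀ i < e 0, ∀ l < e 0,
      |((∑ j ∈ range (e 0), Gt (m 0) s (2 ^ (PP.eval e)) j i *
        Gt (m 0) s (2 ^ (PP.eval e)) j l : ℤ) : ℝ)| ≤ 2 ^ (WW.eval e) / 4) :
    run prepCmd e m 30 0 0 = s ∧ run prepCmd e m 29 0 0 = 2 ^ (PP.eval e) ∧
    (∀ i < e 0, ∀ j < e 0, run prepCmd e m 32 i j = (Rk (m 0) s (e 0) (PP.eval e) 0 i j : ℤ)) ∧
    (∀ i < e 0, run prepCmd e m 33 i 0 = uk (m 0) (fun i => m 1 i 0) s (e 0) (PP.eval e) 0 i) := by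
  unfold prepCmd
  rw [run_seq, run_seq, run_seq, run_seq, run_seq, run_seq, run_seq]
  obtain ⟨r30, r31⟩ := run_abs e m
  rw [← hs] at r30
  set m1 := run absCmd e m with hm1
  have a0 : m1 0 = m 0 := by rw [hm1, frame _ _ _ _ (by rw [abs_mods]; decide)]
  have a1 : m1 1 = m 1 := by rw [hm1, frame _ _ _ _ (by rw [abs_mods]; decide)]
  clear_value m1
  set m2 := run (.one (sc 29)) e m1 with hm2
  have b0 : m2 0 = m 0 := by rw [hm2, frame _ _ _ _ (by simp [mods, sc]), a0]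
  have b1 : m2 1 = m 1 := by rw [hm2, frame _ _ _ _ (by simp [mods, sc]), a1]
  have b30 : m2 30 0 0 = s := by rw [hm2, frame _ _ _ _ (by simp [mods, sc]), r30]
  have b31 : m2 31 0 0 = 0 := by rw [hm2, frame _ _ _ _ (by simp [mods, sc]), r31]
  have b29 : m2 29 0 0 = 1 := by simp [hm2, run, wr, sc, IE.eval]
  clear_value m2
  have r3 := run_dbl 29 PP e m2
  set m3 := run (dbl 29 PP) e m2 with hm3
  have c0 : m3 0 = m 0 := by rw [hm3, frame _ _ _ _ (by rw [dbl_mods]; decide), b0]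
  have c1 : m3 1 = m 1 := by rw [hm3, frame _ _ _ _ (by rw [dbl_mods]; decide), b1]
  have c30 : m3 30 0 0 = s := by rw [hm3, frame _ _ _ _ (by rw [dbl_mods]; decide), b30]
  have c31 : m3 31 0 0 = 0 := by rw [hm3, frame _ _ _ _ (by rw [dbl_mods]; decide), b31]
  have c29 : m3 29 0 0 = 2 ^ (PP.eval e) := by rw [r3, b29, mul_one]
  clear_value m3
  have r4 := run_g e m3 s (2 ^ (PP.eval e)) c30 c29 (by rw [c0]; exact hb)
  set m4 := run gCmd e m3 with hm4
  have d0 : m4 0 = m 0 := by rw [hm4, frame _ _ _ _ (by rw [gCmd_mods, gBody_mods]; decide), c0]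
  have d1 : m4 1 = m 1 := by rw [hm4, frame _ _ _ _ (by rw [gCmd_mods, gBody_mods]; decide), c1]
  have d30 : m4 30 0 0 = s := by
    rw [hm4, frame _ _ _ _ (by rw [gCmd_mods, gBody_mods]; decide), c30]
  have d31 : m4 31 0 0 = 0 := by
    rw [hm4, frame _ _ _ _ (by rw [gCmd_mods, gBody_mods]; decide), c31]
  have d29 : m4 29 0 0 = 2 ^ (PP.eval e) := by
    rw [hm4, frame _ _ _ _ (by rw [gCmd_mods, gBody_mods]; decide), c29]
  clear_value m4
  have r5 := run_tr 20 21 (by norm_num) e m4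
  set m5 := run (trCmd 20 21) e m4 with hm5
  have e0 : m5 0 = m 0 := by rw [hm5, frame _ _ _ _ (by rw [tr_mods]; decide), d0]
  have e1 : m5 1 = m 1 := by rw [hm5, frame _ _ _ _ (by rw [tr_mods]; decide), d1]
  have e21 : m5 21 = m4 21 := by rw [hm5, frame _ _ _ _ (by rw [tr_mods]; decide)]
  have e30 : m5 30 0 0 = s := by rw [hm5, frame _ _ _ _ (by rw [tr_mods]; decide), d30]
  have e31 : m5 31 0 0 = 0 := by rw [hm5, frame _ _ _ _ (by rw [tr_mods]; decide), d31]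
  have e29 : m5 29 0 0 = 2 ^ (PP.eval e) := by
    rw [hm5, frame _ _ _ _ (by rw [tr_mods]; decide), d29]
  clear_value m5
  have r6 := run_mul e m5 (e 0) (fun i j => Gt (m 0) s (2 ^ (PP.eval e)) j i)
    (fun i j => Gt (m 0) s (2 ^ (PP.eval e)) i j) (2 ^ (PP.eval e)) rfl e29
    (one_le_pow₀ (by norm_num))
    (by intro i hi j hj; rw [r5 i hi j hj, r4 j hj i hi, c0])
    (by intro i hi j hj; rw [e21, r4 i hi j hj, c0]) hS
  set m6 := run mulCmd e m5 with hm6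
  have f0 : m6 0 = m 0 := by
    rw [hm6, frame _ _ _ _ (by rw [mulCmd_mods, digitBody_mods]; decide), e0]
  have f1 : m6 1 = m 1 := by
    rw [hm6, frame _ _ _ _ (by rw [mulCmd_mods, digitBody_mods]; decide), e1]
  have f30 : m6 30 0 0 = s := by
    rw [hm6, frame _ _ _ _ (by rw [mulCmd_mods, digitBody_mods]; decide), e30]
  have f31 : m6 31 0 0 = 0 := by
    rw [hm6, frame _ _ _ _ (by rw [mulCmd_mods, digitBody_mods]; decide), e31]
  have f29 : m6 29 0 0 = 2 ^ (PP.eval e) := by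
    rw [hm6, frame _ _ _ _ (by rw [mulCmd_mods, digitBody_mods]; decide), e29]
  clear_value m6
  have r7 := run_r0 e m6 (2 ^ (PP.eval e)) f31 f29
  set m7 := run r0Cmd e m6 with hm7
  have g0 : m7 0 = m 0 := by rw [hm7, frame _ _ _ _ (by rw [r0_mods]; decide), f0]
  have g1 : m7 1 = m 1 := by rw [hm7, frame _ _ _ _ (by rw [r0_mods]; decide), f1]
  have g30 : m7 30 0 0 = s := by rw [hm7, frame _ _ _ _ (by rw [r0_mods]; decide), f30]
  have g29 : m7 29 0 0 = 2 ^ (PP.eval e) := by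
    rw [hm7, frame _ _ _ _ (by rw [r0_mods]; decide), f29]
  clear_value m7
  have r8 := run_u0 e m7 s g30
  refine ⟨?_, ?_, ?_, ?_⟩
  · rw [frame _ _ _ _ (by rw [u0_mods]; decide), g30]
  · rw [frame _ _ _ _ (by rw [u0_mods]; decide), g29]
  · intro i hi j hj
    rw [frame _ _ _ _ (by rw [u0_mods]; decide), r7 i hi j hj, r6 i hi j hj]
    simp only [Rk, Z0]
    push_cast
    split_ifs <;> simp
  · intro i hi
    rw [r8 i hi, g0, g1]
    rfl

theorem prep_mods : mods prepCmd = mods absCmd ++ ([29, 29] ++ (mods gBody ++ ([20] ++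
    (mods mulCmd ++ ([32, 32] ++ [33, 27, 33, 33]))))) := by
  simp [prepCmd, mods, dbl_mods, tr_mods, r0_mods, u0_mods, gCmd_mods, sc]

/-- The iteration. -/
def itCmd : Cmd := .loop 4 (.var 1) stepCmd

theorem it_mods : mods itCmd = mods stepCmd := rfl

theorem run_it (e : ℕ → ℕ) (m : Mem) (a : ℕ → ℕ → ℝ) (b : ℕ → ℝ) (s : ℝ)
    (hp : m 29 0 0 = 2 ^ (PP.eval e))
    (hR : ∀ i < e 0, ∀ j < e 0, m 32 i j = (Rk a s (e 0) (PP.eval e) 0 i j : ℤ))
    (hu : ∀ i < e 0, m 33 i 0 = uk a b s (e 0) (PP.eval e) 0 i)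
    (hS : ∀ k < e 1, ∀ i < e 0, ∀ l < e 0,
      |((∑ j ∈ range (e 0), Rk a s (e 0) (PP.eval e) k i j *
        Rk a s (e 0) (PP.eval e) k j l : ℤ) : ℝ)| ≤ 2 ^ (WW.eval e) / 4) :
    (∀ i < e 0, ∀ j < e 0, run itCmd e m 32 i j = (Rk a s (e 0) (PP.eval e) (e 1) i j : ℤ)) ∧
    (∀ i < e 0, run itCmd e m 33 i 0 = uk a b s (e 0) (PP.eval e) (e 1) i) := by
  have key := loop_inv (v := 4) (N := .var 1) (c := stepCmd) (e := e) (m := m)
    (fun k m' => m' 29 0 0 = 2 ^ (PP.eval e) ∧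
      (∀ i < e 0, ∀ j < e 0, m' 32 i j = (Rk a s (e 0) (PP.eval e) k i j : ℤ)) ∧
      (∀ i < e 0, m' 33 i 0 = uk a b s (e 0) (PP.eval e) k i))
    ⟨hp, hR, hu⟩ ?_
  · exact key.2
  · rintro k hk m' ⟨h29, h32, h33⟩
    have hf0 : (Function.update e 4 k) 0 = e 0 := by simp [Function.update]
    have hfw : WW.eval (Function.update e 4 k) = WW.eval e := by
      simp [WW, IE.eval, Function.update]
    have := run_step (Function.update e 4 k) m' (2 ^ (PP.eval e)) h29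
      (one_le_pow₀ (by norm_num)) (Rk a s (e 0) (PP.eval e) k) (uk a b s (e 0) (PP.eval e) k)
      (by rw [hf0]; exact h32) (by rw [hf0]; exact h33) (by rw [hf0, hfw]; exact hS k hk)
    rw [hf0] at this
    refine ⟨?_, this.1, this.2⟩
    rw [frame _ _ _ _ (by rw [step_mods, mulCmd_mods, digitBody_mods]; decide), h29]

/-- The output. -/
def outCmd : Cmd := .loop 2 nn (.div ⟨3, .var 2, .lit 0⟩ ⟨33, .var 2, .lit 0⟩ (sc 30))

theorem out_mods : mods outCmd = [3] := rfl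

theorem run_out (e : ℕ → ℕ) (m : Mem) :
    ∀ i < e 0, run outCmd e m 3 i 0 = m 33 i 0 / m 30 0 0 := by
  refine fill1 3 [30, 33] (fun i => m 33 i 0 / m 30 0 0) (by simp [mods]) ?_ ?_
  · intro i i' j' h
    simp [wrs, IE.eval, Function.update] at h
    exact h.1
  · intro i _ m' hm'
    simp [run, wr, rd, sc, IE.eval, Function.update, hm' 33 (by simp), hm' 30 (by simp)]

/-- The residual vector. -/
def resCmd : Cmd :=
  .loop 2 nn (.seq (dotCmd nn ⟨40, .var 2, .lit 0⟩ ⟨0, .var 2, .var 3⟩ ⟨3, .var 3, .lit 0⟩)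
    (.sub ⟨40, .var 2, .lit 0⟩ ⟨40, .var 2, .lit 0⟩ ⟨1, .var 2, .lit 0⟩))

theorem res_mods : mods resCmd = [40, 27, 40, 40] := rfl

theorem run_res (e : ℕ → ℕ) (m : Mem) :
    ∀ i < e 0, run resCmd e m 40 i 0 = (∑ j ∈ range (e 0), m 0 i j * m 3 j 0) - m 1 i 0 := by
  refine fill1 40 [0, 1, 3] (fun i => (∑ j ∈ range (e 0), m 0 i j * m 3 j 0) - m 1 i 0)
    (by simp [mods, dot_mods]) ?_ ?_
  · intro i i' j' h
    simp only [wrs] at h
    rcases h with h | h
    · have := (dot_wrs _ _ _ _ _ _ _ _ (by norm_num) (by intro k; rfl) (by intro k; rfl) h).2.1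
      simpa [IE.eval] using this
    · simpa [IE.eval] using h.2.1
  · intro i hi m' hm'
    have h0 := hm' 0 (by simp)
    have h1 := hm' 1 (by simp)
    have h3 := hm' 3 (by simp)
    rw [run_seq]
    have hd := run_dot nn ⟨40, .var 2, .lit 0⟩ ⟨0, .var 2, .var 3⟩ ⟨3, .var 3, .lit 0⟩
      (Function.update e 2 i) m' (by norm_num) (by norm_num) (by norm_num) (by norm_num)
      (by norm_num) (by intro k; rfl) (by intro k; rfl)
    set m1 := run (dotCmd nn ⟨40, .var 2, .lit 0⟩ ⟨0, .var 2, .var 3⟩ ⟨3, .var 3, .lit 0⟩)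
      (Function.update e 2 i) m' with hm1
    have b1 : m1 1 = m 1 := by
      rw [hm1, frame _ _ _ _ (by rw [dot_mods]; decide), h1]
    clear_value m1
    simp [IE.eval, rd, nn, Function.update] at hd
    simp [run, wr, rd, IE.eval, hd, b1, h0, h3]

/-- The tests. -/
def testCmd : Cmd :=
  .seq sqCmd <| .seq (dbl 35 (.lit 4)) <|
  .seq (.seq (.mul (sc 36) (sc 2) (sc 29)) (.mul (sc 36) (sc 36) (sc 36))) <|
  .seq (.seq (.zero (sc 37)) (.one (sc 38))) <| .seq (.loop 2 nn (.add (sc 37) (sc 37) (sc 38))) <|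
  .seq (dbl 37 (.lit 2)) <| .seq (.copy (sc 39) (sc 2)) <| .seq (dbl 39 (.var 1)) <|
  .seq resCmd <| .seq (dotCmd nn (sc 41) ⟨40, .var 3, .lit 0⟩ ⟨40, .var 3, .lit 0⟩) <|
  .seq (dotCmd nn (sc 42) ⟨1, .var 3, .lit 0⟩ ⟨1, .var 3, .lit 0⟩) <|
  .seq (.seq (.mul (sc 42) (sc 42) (sc 2)) (.mul (sc 42) (sc 42) (sc 2))) <|
  .seq (.zero (sc 4)) (.cond (sc 35) (sc 36)
    (.cond (sc 37) (sc 39) (.cond (sc 41) (sc 42) (.one (sc 4)) .skip) .skip) .skip)

theorem test_mods : mods testCmd = [35, 27, 35] ++ ([35] ++ ([36, 36] ++ ([37, 38] ++ ([37] ++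
    ([37] ++ ([39] ++ ([39] ++ ([40, 27, 40, 40] ++ ([41, 27, 41] ++ ([42, 27, 42] ++ ([42, 42] ++
    [4, 4]))))))))))) := rfl

theorem run_test (e : ℕ → ℕ) (m : Mem) :
    run testCmd e m 4 0 0 =
      if (2 : ℝ) ^ 4 * (∑ i ∈ range (e 0), ∑ j ∈ range (e 0), m 32 i j * m 32 i j) ≤
          (m 2 0 0 * m 29 0 0) * (m 2 0 0 * m 29 0 0) ∧
        (2 : ℝ) ^ 2 * (e 0 : ℝ) ≤ 2 ^ (e 1) * m 2 0 0 ∧
        (∑ i ∈ range (e 0), ((∑ j ∈ range (e 0), m 0 i j * m 3 j 0) - m 1 i 0) *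
            ((∑ j ∈ range (e 0), m 0 i j * m 3 j 0) - m 1 i 0)) ≤
          (∑ i ∈ range (e 0), m 1 i 0 * m 1 i 0) * m 2 0 0 * m 2 0 0
      then 1 else 0 := by
  unfold testCmd
  rw [run_seq, run_seq, run_seq, run_seq, run_seq, run_seq, run_seq, run_seq, run_seq, run_seq,
    run_seq, run_seq, run_seq]
  have r1 := run_sq e m
  set m1 := run sqCmd e m with hm1
  have F1 : ∀ a, a ∉ [35, 27] → m1 a = m a := fun a ha => by
    simp only [List.mem_cons, List.not_mem_nil, or_false, not_or] at ha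
    rw [hm1, frame _ _ _ _ (by rw [sq_mods]; simp; omega)]
  clear_value m1
  have r2 := run_dbl 35 (.lit 4) e m1
  set m2 := run (dbl 35 (.lit 4)) e m1 with hm2
  have F2 : ∀ a, a ∉ [35, 27] → m2 a = m a := fun a ha => by
    simp only [List.mem_cons, List.not_mem_nil, or_false, not_or] at ha
    rw [hm2, frame _ _ _ _ (by rw [dbl_mods]; simp; omega), F1 a (by simp; omega)]
  clear_value m2
  rw [r1] at r2
  have h29 : m2 29 = m 29 := F2 29 (by decide)
  have h2 : m2 2 = m 2 := F2 2 (by decide)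
  set m3 := run (.seq (.mul (sc 36) (sc 2) (sc 29)) (.mul (sc 36) (sc 36) (sc 36))) e m2 with hm3
  have r3 : m3 36 0 0 = (m 2 0 0 * m 29 0 0) * (m 2 0 0 * m 29 0 0) := by
    simp [hm3, run, wr, rd, sc, IE.eval, h29, h2]
  have r35 : m3 35 0 0 = m2 35 0 0 := by simp [hm3, run, wr, sc]
  have F3 : ∀ a, a ∉ [35, 27, 36] → m3 a = m a := fun a ha => by
    simp only [List.mem_cons, List.not_mem_nil, or_false, not_or] at ha
    rw [hm3, frame _ _ _ _ (by simp [mods, sc]; omega), F2 a (by simp; omega)]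
  clear_value m3
  set m4 := run (.seq (.zero (sc 37)) (.one (sc 38))) e m3 with hm4
  have s37 : m4 37 0 0 = 0 := by simp [hm4, run, wr, sc, IE.eval]
  have s38 : m4 38 0 0 = 1 := by simp [hm4, run, wr, sc, IE.eval]
  have s35 : m4 35 0 0 = m2 35 0 0 := by simp [hm4, run, wr, sc, r35]
  have s36 : m4 36 0 0 = m3 36 0 0 := by simp [hm4, run, wr, sc]
  have F4 : ∀ a, a ∉ [35, 27, 36, 37, 38] → m4 a = m a := fun a ha => by
    simp only [List.mem_cons, List.not_mem_nil, or_false, not_or] at ha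
    rw [hm4, frame _ _ _ _ (by simp [mods, sc]; omega), F3 a (by simp; omega)]
  clear_value m4
  have t37 : run (.loop 2 nn (.add (sc 37) (sc 37) (sc 38))) e m4 37 0 0 = (e 0 : ℝ) := by
    have key := loop_inv (v := 2) (N := nn) (c := .add (sc 37) (sc 37) (sc 38)) (e := e) (m := m4)
      (fun k m' => m' 38 0 0 = 1 ∧ m' 37 0 0 = k) ⟨s38, by simpa using s37⟩ ?_
    · exact key.2
    · rintro k - m' ⟨g1, g2⟩
      simp [run, wr, rd, sc, IE.eval, g1, g2]
  set m5 := run (.loop 2 nn (.add (sc 37) (sc 37) (sc 38))) e m4 with hm5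
  have t35 : m5 35 0 0 = m2 35 0 0 := by
    rw [hm5, frame _ _ _ _ (by simp [mods, sc]), s35]
  have t36 : m5 36 0 0 = m3 36 0 0 := by
    rw [hm5, frame _ _ _ _ (by simp [mods, sc]), s36]
  have F5 : ∀ a, a ∉ [35, 27, 36, 37, 38] → m5 a = m a := fun a ha => by
    simp only [List.mem_cons, List.not_mem_nil, or_false, not_or] at ha
    rw [hm5, frame _ _ _ _ (by simp [mods, sc]; omega), F4 a (by simp; omega)]
  clear_value m5
  have u37 := run_dbl 37 (.lit 2) e m5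
  rw [t37] at u37
  set m6 := run (dbl 37 (.lit 2)) e m5 with hm6
  have u35 : m6 35 0 0 = m2 35 0 0 := by
    rw [hm6, frame _ _ _ _ (by rw [dbl_mods]; simp), t35]
  have u36 : m6 36 0 0 = m3 36 0 0 := by
    rw [hm6, frame _ _ _ _ (by rw [dbl_mods]; simp), t36]
  have F6 : ∀ a, a ∉ [35, 27, 36, 37, 38] → m6 a = m a := fun a ha => by
    simp only [List.mem_cons, List.not_mem_nil, or_false, not_or] at ha
    rw [hm6, frame _ _ _ _ (by rw [dbl_mods]; simp; omega), F5 a (by simp; omega)]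
  clear_value m6
  set m7 := run (.copy (sc 39) (sc 2)) e m6 with hm7
  have v39 : m7 39 0 0 = m 2 0 0 := by
    simp [hm7, run, wr, rd, sc, IE.eval, F6 2 (by decide)]
  have v35 : m7 35 0 0 = m2 35 0 0 := by simp [hm7, run, wr, sc, u35]
  have v36 : m7 36 0 0 = m3 36 0 0 := by simp [hm7, run, wr, sc, u36]
  have v37 : m7 37 0 0 = m6 37 0 0 := by simp [hm7, run, wr, sc]
  have F7 : ∀ a, a ∉ [35, 27, 36, 37, 38, 39] → m7 a = m a := fun a ha => by
    simp only [List.mem_cons, List.not_mem_nil, or_false, not_or] at ha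
    rw [hm7, frame _ _ _ _ (by simp [mods, sc]; omega), F6 a (by simp; omega)]
  clear_value m7
  have w39 := run_dbl 39 (.var 1) e m7
  rw [v39] at w39
  set m8 := run (dbl 39 (.var 1)) e m7 with hm8
  have w35 : m8 35 0 0 = m2 35 0 0 := by
    rw [hm8, frame _ _ _ _ (by rw [dbl_mods]; simp), v35]
  have w36 : m8 36 0 0 = m3 36 0 0 := by
    rw [hm8, frame _ _ _ _ (by rw [dbl_mods]; simp), v36]
  have w37 : m8 37 0 0 = m6 37 0 0 := by
    rw [hm8, frame _ _ _ _ (by rw [dbl_mods]; simp), v37]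
  have F8 : ∀ a, a ∉ [35, 27, 36, 37, 38, 39] → m8 a = m a := fun a ha => by
    simp only [List.mem_cons, List.not_mem_nil, or_false, not_or] at ha
    rw [hm8, frame _ _ _ _ (by rw [dbl_mods]; simp; omega), F7 a (by simp; omega)]
  clear_value m8
  have x40 := run_res e m8
  rw [F8 0 (by decide), F8 1 (by decide), F8 3 (by decide)] at x40
  set m9 := run resCmd e m8 with hm9
  have x35 : m9 35 0 0 = m2 35 0 0 := by
    rw [hm9, frame _ _ _ _ (by rw [res_mods]; decide), w35]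
  have x36 : m9 36 0 0 = m3 36 0 0 := by
    rw [hm9, frame _ _ _ _ (by rw [res_mods]; decide), w36]
  have x37 : m9 37 0 0 = m6 37 0 0 := by
    rw [hm9, frame _ _ _ _ (by rw [res_mods]; decide), w37]
  have x39 : m9 39 0 0 = m8 39 0 0 := by
    rw [hm9, frame _ _ _ _ (by rw [res_mods]; decide)]
  have x2 : m9 2 = m 2 := by
    rw [hm9, frame _ _ _ _ (by rw [res_mods]; decide), F8 2 (by decide)]
  have x1 : m9 1 = m 1 := by
    rw [hm9, frame _ _ _ _ (by rw [res_mods]; decide), F8 1 (by decide)]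
  clear_value m9
  have y41 := run_dot nn (sc 41) ⟨40, .var 3, .lit 0⟩ ⟨40, .var 3, .lit 0⟩ e m9
    (by norm_num [sc]) (by norm_num) (by norm_num) (by norm_num [sc]) (by norm_num [sc])
    (by intro k; rfl) (by intro k; rfl)
  set m10 := run (dotCmd nn (sc 41) ⟨40, .var 3, .lit 0⟩ ⟨40, .var 3, .lit 0⟩) e m9 with hm10
  have FD : ∀ a, a ∉ [41, 27] → m10 a = m9 a := fun a ha => by
    simp only [List.mem_cons, List.not_mem_nil, or_false, not_or] at ha
    rw [hm10, frame _ _ _ _ (by rw [dot_mods]; simp [sc]; omega)]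
  clear_value m10
  have z42 := run_dot nn (sc 42) ⟨1, .var 3, .lit 0⟩ ⟨1, .var 3, .lit 0⟩ e m10
    (by norm_num [sc]) (by norm_num) (by norm_num) (by norm_num [sc]) (by norm_num [sc])
    (by intro k; rfl) (by intro k; rfl)
  set m11 := run (dotCmd nn (sc 42) ⟨1, .var 3, .lit 0⟩ ⟨1, .var 3, .lit 0⟩) e m10 with hm11
  have FE : ∀ a, a ∉ [42, 27] → m11 a = m10 a := fun a ha => by
    simp only [List.mem_cons, List.not_mem_nil, or_false, not_or] at ha
    rw [hm11, frame _ _ _ _ (by rw [dot_mods]; simp [sc]; omega)]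
  clear_value m11
  simp [sc, rd, IE.eval, nn, Function.update] at y41 z42
  rw [FD 1 (by decide), x1] at z42
  have p35 : m11 35 0 0 = 2 ^ 4 * ∑ i ∈ range (e 0), ∑ j ∈ range (e 0), m 32 i j * m 32 i j := by
    rw [FE 35 (by decide), FD 35 (by decide), x35, r2]; rfl
  have p36 : m11 36 0 0 = (m 2 0 0 * m 29 0 0) * (m 2 0 0 * m 29 0 0) := by
    rw [FE 36 (by decide), FD 36 (by decide), x36, r3]
  have p37 : m11 37 0 0 = 2 ^ 2 * (e 0 : ℝ) := by
    rw [FE 37 (by decide), FD 37 (by decide), x37, u37]; rfl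
  have p39 : m11 39 0 0 = 2 ^ (e 1) * m 2 0 0 := by
    rw [FE 39 (by decide), FD 39 (by decide), x39, w39]; rfl
  have p41 : m11 41 0 0 = ∑ i ∈ range (e 0), ((∑ j ∈ range (e 0), m 0 i j * m 3 j 0) - m 1 i 0) *
            ((∑ j ∈ range (e 0), m 0 i j * m 3 j 0) - m 1 i 0) := by
    rw [FE 41 (by decide), y41]
    refine sum_congr rfl fun i hi => ?_
    rw [x40 i (mem_range.mp hi)]
  have p42 : m11 42 0 0 = ∑ i ∈ range (e 0), m 1 i 0 * m 1 i 0 := z42
  have p2 : m11 2 0 0 = m 2 0 0 := by rw [FE 2 (by decide), FD 2 (by decide), x2]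
  set m12 := run (.seq (.mul (sc 42) (sc 42) (sc 2)) (.mul (sc 42) (sc 42) (sc 2))) e m11 with hm12
  have q42 : m12 42 0 0 = (∑ i ∈ range (e 0), m 1 i 0 * m 1 i 0) * m 2 0 0 * m 2 0 0 := by
    simp [hm12, run, wr, rd, sc, IE.eval, p42, p2]
  have q41 : m12 41 0 0 = m11 41 0 0 := by simp [hm12, run, wr, sc]
  have q35 : m12 35 0 0 = m11 35 0 0 := by simp [hm12, run, wr, sc]
  have q36 : m12 36 0 0 = m11 36 0 0 := by simp [hm12, run, wr, sc]
  have q37 : m12 37 0 0 = m11 37 0 0 := by simp [hm12, run, wr, sc]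
  have q39 : m12 39 0 0 = m11 39 0 0 := by simp [hm12, run, wr, sc]
  clear_value m12
  set m13 := run (.zero (sc 4)) e m12 with hm13
  have z4 : m13 4 0 0 = 0 := by simp [hm13, run, wr, sc, IE.eval]
  have z35 : m13 35 0 0 = m11 35 0 0 := by simp [hm13, run, wr, sc, q35]
  have z36 : m13 36 0 0 = m11 36 0 0 := by simp [hm13, run, wr, sc, q36]
  have z37 : m13 37 0 0 = m11 37 0 0 := by simp [hm13, run, wr, sc, q37]
  have z39 : m13 39 0 0 = m11 39 0 0 := by simp [hm13, run, wr, sc, q39]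
  have z41 : m13 41 0 0 = m11 41 0 0 := by simp [hm13, run, wr, sc, q41]
  have z42 : m13 42 0 0 = (∑ i ∈ range (e 0), m 1 i 0 * m 1 i 0) * m 2 0 0 * m 2 0 0 := by
    simp [hm13, run, wr, sc, q42]
  clear_value m13
  simp only [run, rd, sc, IE.eval]
  rw [z35, z36, z37, z39, z41, z42, p35, p36, p37, p39, p41]
  by_cases h1 : (2 : ℝ) ^ 4 * (∑ i ∈ range (e 0), ∑ j ∈ range (e 0), m 32 i j * m 32 i j) ≤
          (m 2 0 0 * m 29 0 0) * (m 2 0 0 * m 29 0 0)
  · by_cases h2' : (2 : ℝ) ^ 2 * (e 0 : ℝ) ≤ 2 ^ (e 1) * m 2 0 0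
    · by_cases h3 : (∑ i ∈ range (e 0), ((∑ j ∈ range (e 0), m 0 i j * m 3 j 0) - m 1 i 0) *
            ((∑ j ∈ range (e 0), m 0 i j * m 3 j 0) - m 1 i 0)) ≤
          (∑ i ∈ range (e 0), m 1 i 0 * m 1 i 0) * m 2 0 0 * m 2 0 0
      · rw [if_pos h1, if_pos h2', if_pos h3, if_pos ⟨h1, h2', h3⟩]
        simp [wr, IE.eval]
      · rw [if_pos h1, if_pos h2', if_neg h3, if_neg (fun h => h3 h.2.2)]
        exact z4
    · rw [if_pos h1, if_neg h2', if_neg (fun h => h2' h.2.1)]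
      exact z4
  · rw [if_neg h1, if_neg (fun h => h1 h.1)]
    exact z4

/-- One round of the algorithm. -/
def roundCmd : Cmd := .seq prepCmd <| .seq itCmd <| .seq outCmd testCmd

end Pool.Agent.Q225.PK
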