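import Pool.Agent.Q225.PK.Analysis
import Pool.Agent.Q225.PK.Whole

set_option autoImplicit false

/-!
# Correctness of a round, termination
-/

namespace Pool.Agent.Q225.PK

open Finset Matrix

/-- The matrix in array 0. -/
def matOf (n : ℕ) (a : ℕ → ℕ → ℝ) : Matrix (Fin n) (Fin n) ℝ := fun i j => a i j
/-- The vector in a column. -/
def vecOf (n : ℕ) (b : ℕ → ℝ) : Fin n → ℝ := fun i => b i

theorem mulVec_matOf (n : ℕ) (a : ℕ → ℕ → ℝ) (v : ℕ → ℝ) (i : Fin n) :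
    (matOf n a *ᵥ vecOf n v) i = ∑ j ∈ range n, a i j * v j := by
  rw [← Fin.sum_univ_eq_sum_range (fun j => a i j * v j) n]
  rfl

theorem rnd_div (y p : ℝ) (hp : 0 < p) : |(rnd y : ℝ) / p - y / p| ≤ 1 / (2 * p) := by
  rw [← sub_div, abs_div, abs_of_pos hp, div_le_div_iff₀ hp (by positivity)]
  have := rnd_err y
  nlinarith

section

variable (n L : ℕ) (a : ℕ → ℕ → ℝ) (b : ℕ → ℝ) (s : ℝ) (z : Fin n → ℝ)

theorem abs_div_le (hs : s = ∑ i ∈ range n, ∑ j ∈ range n, |a i j|) (hs0 : 0 < s) (i j : ℕ)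
    (hi : i < n) (hj : j < n) : |a i j / s| ≤ 1 := by
  rw [abs_div, abs_of_pos hs0, div_le_one hs0, hs]
  calc |a i j| ≤ ∑ j ∈ range n, |a i j| :=
        single_le_sum (f := fun j => |a i j|) (fun _ _ => abs_nonneg _) (mem_range.mpr hj)
    _ ≤ ∑ i ∈ range n, ∑ j ∈ range n, |a i j| :=
        single_le_sum (f := fun i => ∑ j ∈ range n, |a i j|)
          (fun _ _ => sum_nonneg fun _ _ => abs_nonneg _) (mem_range.mpr hi)

theorem frob_one (hs : s = ∑ i ∈ range n, ∑ j ∈ range n, |a i j|) (hs0 : 0 < s) :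
    ∑ i : Fin n, ∑ j : Fin n, (a i j / s) ^ 2 ≤ 1 := by
  have h1 : ∑ i : Fin n, ∑ j : Fin n, |a i j / s| = 1 := by
    have : ∑ i : Fin n, ∑ j : Fin n, |a i j / s| = s / s := by
      conv_rhs => rw [hs]
      rw [sum_div, ← Fin.sum_univ_eq_sum_range (fun i => (∑ j ∈ range n, |a i j|) / ∑ i ∈ range n, ∑ j ∈ range n, |a i j|) n]
      refine sum_congr rfl fun i _ => ?_
      rw [sum_div, ← Fin.sum_univ_eq_sum_range (fun j => |a i j| / ∑ i ∈ range n, ∑ j ∈ range n, |a i j|) n]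
      refine sum_congr rfl fun j _ => ?_
      rw [← hs, abs_div, abs_of_pos hs0]
    rw [this, div_self hs0.ne']
  calc ∑ i : Fin n, ∑ j : Fin n, (a i j / s) ^ 2
      ≤ ∑ i : Fin n, ∑ j : Fin n, |a i j / s| := by
        refine sum_le_sum fun i _ => sum_le_sum fun j _ => ?_
        have h2 := abs_div_le n a s hs hs0 i j i.2 j.2
        rw [← sq_abs]
        nlinarith [abs_nonneg (a i j / s)]
    _ = 1 := h1

/-- The scaled matrix. -/
noncomputable def GM : Matrix (Fin n) (Fin n) ℝ := Matrix.of fun i j => a i j / s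
/-- The rounded scaled matrix. -/
noncomputable def gM (p : ℝ) : Matrix (Fin n) (Fin n) ℝ :=
  Matrix.of fun i j => (Gt a s p i j : ℝ) / p
/-- The matrices of the iteration. -/
noncomputable def QM (P k : ℕ) : Matrix (Fin n) (Fin n) ℝ :=
  Matrix.of fun i j => (Rk a s n P k i j : ℝ) / 2 ^ P

theorem QM_zero (P : ℕ) (i j : Fin n) :
    |QM n a s P 0 i j - (1 - (gM n a s (2 ^ P))ᵀ * gM n a s (2 ^ P)) i j| ≤ 1 / (2 * 2 ^ P) := by
  have h := rnd_div (((∑ k ∈ range n, Gt a s (2 ^ P) k i * Gt a s (2 ^ P) k j : ℤ) : ℝ) / 2 ^ P)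
    (2 ^ P) (by positivity)
  have e1 : ((gM n a s (2 ^ P))ᵀ * gM n a s (2 ^ P)) i j =
      ((∑ k ∈ range n, Gt a s (2 ^ P) k i * Gt a s (2 ^ P) k j : ℤ) : ℝ) / 2 ^ P / 2 ^ P := by
    rw [Matrix.mul_apply]
    push_cast
    rw [sum_div, sum_div, ← Fin.sum_univ_eq_sum_range (fun k => (Gt a s (2 ^ P) k i : ℝ) *
      (Gt a s (2 ^ P) k j : ℝ) / 2 ^ P / 2 ^ P) n]
    refine sum_congr rfl fun k _ => ?_
    rw [Matrix.transpose_apply, gM, Matrix.of_apply, Matrix.of_apply]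
    field_simp
  have e2 : QM n a s P 0 i j = (1 : Matrix (Fin n) (Fin n) ℝ) i j -
      (rnd (((∑ k ∈ range n, Gt a s (2 ^ P) k i * Gt a s (2 ^ P) k j : ℤ) : ℝ) / 2 ^ P) : ℝ) /
        2 ^ P := by
    rw [QM, Matrix.of_apply, Matrix.one_apply]
    simp only [Rk, Z0]
    push_cast
    rw [sub_div]
    congr 1
    by_cases hij : i = j
    · subst hij; simp
    · rw [if_neg hij, if_neg (fun h => hij (Fin.ext h))]; simp
  rw [Matrix.sub_apply, e1, e2]
  rw [show ∀ x y w : ℝ, x - y - (x - w) = -(y - w) by intros; ring, abs_neg]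
  exact h

theorem QM_succ (P k : ℕ) (i j : Fin n) :
    |QM n a s P (k + 1) i j - (QM n a s P k * QM n a s P k) i j| ≤ 1 / (2 * 2 ^ P) := by
  have h := rnd_div (((∑ l ∈ range n, Rk a s n P k i l * Rk a s n P k l j : ℤ) : ℝ) / 2 ^ P)
    (2 ^ P) (by positivity)
  have e1 : (QM n a s P k * QM n a s P k) i j =
      ((∑ l ∈ range n, Rk a s n P k i l * Rk a s n P k l j : ℤ) : ℝ) / 2 ^ P / 2 ^ P := by
    rw [Matrix.mul_apply]
    push_cast
    rw [sum_div, sum_div, ← Fin.sum_univ_eq_sum_range (fun l => (Rk a s n P k i l : ℝ) *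
      (Rk a s n P k l j : ℝ) / 2 ^ P / 2 ^ P) n]
    refine sum_congr rfl fun l _ => ?_
    rw [QM, Matrix.of_apply, Matrix.of_apply]
    field_simp
  rw [e1]
  exact h

/-- The data of the error analysis for the numbers computed by the program. -/
noncomputable def mkData (hs : s = ∑ i ∈ range n, ∑ j ∈ range n, |a i j|) (hs0 : 0 < s)
    (hn : (n : ℝ) ≤ 2 ^ L) (hz : GM n a s *ᵥ z = vecOf n b) : Data n L where
  G := GM n a s
  g := gM n a s (2 ^ (12 * L + 8))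
  Q := fun k => QM n a s (12 * L + 8) k
  U := fun k i => uk a b s n (12 * L + 8) k i
  b := vecOf n b
  z := z
  h := 1 / (2 * 2 ^ (12 * L + 8))
  h0 := by positivity
  hh := by
    rw [one_div, ← div_eq_mul_inv, div_le_iff₀ (by positivity)]
    calc (n : ℝ) ≤ 2 ^ L := hn
      _ = (1 / 2) ^ (11 * L + 9) * (2 * 2 ^ (12 * L + 8)) := by
        rw [← pow_succ', show 12 * L + 8 + 1 = (11 * L + 9) + L by ring, pow_add (2 : ℝ) _ L,
          ← mul_assoc, ← mul_pow]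
        norm_num
  hG := frob_one n a s hs hs0
  hg := fun i j => by
    have := rnd_div (a i j / s * 2 ^ (12 * L + 8)) (2 ^ (12 * L + 8)) (by positivity)
    rw [mul_div_cancel_right₀ _ (by positivity)] at this
    exact this
  hQ0 := QM_zero n a s (12 * L + 8)
  hQ := QM_succ n a s (12 * L + 8)
  hU0 := by
    funext i
    simp only [uk, vecOf, GM, mulVec, dotProduct, Matrix.transpose_apply, Matrix.of_apply]
    rw [← Fin.sum_univ_eq_sum_range (fun j => a j i * b j) n, sum_div]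
    exact sum_congr rfl fun j _ => by ring
  hU := fun k => by
    funext i
    simp only [uk, mulVec, dotProduct, Pi.add_apply, QM, Matrix.of_apply]
    rw [← Fin.sum_univ_eq_sum_range (fun j => (Rk a s n (12 * L + 8) k i j : ℝ) *
      uk a b s n (12 * L + 8) k j) n, sum_div, add_comm]
    congr 1
    exact sum_congr rfl fun j _ => by ring
  hz := hz

theorem rk_bound (hs : s = ∑ i ∈ range n, ∑ j ∈ range n, |a i j|) (hs0 : 0 < s)
    (hn : (n : ℝ) ≤ 2 ^ L) (hz : GM n a s *ᵥ z = vecOf n b)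
    (k : ℕ) (hk : k ≤ L) (i j : ℕ) (hi : i < n) (hj : j < n) :
    |(Rk a s n (12 * L + 8) k i j : ℝ)| ≤ 2 * 2 ^ (12 * L + 8) := by
  have h := ((mkData n L a b s z hs hs0 hn hz).opQ k hk).entry ⟨i, hi⟩ ⟨j, hj⟩
  simp only [mkData, QM, Matrix.of_apply] at h
  rw [abs_div, abs_of_pos (show (0 : ℝ) < 2 ^ (12 * L + 8) by positivity),
    div_le_iff₀ (by positivity)] at h
  exact h

theorem gt_bound (hs : s = ∑ i ∈ range n, ∑ j ∈ range n, |a i j|) (hs0 : 0 < s)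
    (i j : ℕ) (hi : i < n) (hj : j < n) :
    |(Gt a s (2 ^ (12 * L + 8)) i j : ℝ)| ≤ 2 * 2 ^ (12 * L + 8) := by
  have h1 := abs_div_le n a s hs hs0 i j hi hj
  have h2 := rnd_err (a i j / s * 2 ^ (12 * L + 8))
  have h3 : |a i j / s * 2 ^ (12 * L + 8)| ≤ 2 ^ (12 * L + 8) := by
    rw [abs_mul, abs_of_pos (show (0 : ℝ) < 2 ^ (12 * L + 8) by positivity)]
    have : (0 : ℝ) < 2 ^ (12 * L + 8) := by positivity
    nlinarith
  have h4 : (1 : ℝ) ≤ 2 ^ (12 * L + 8) := one_le_pow₀ (by norm_num)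
  have h5 := abs_sub_abs_le_abs_sub (Gt a s (2 ^ (12 * L + 8)) i j : ℝ)
    (a i j / s * 2 ^ (12 * L + 8))
  have h6 : |(Gt a s (2 ^ (12 * L + 8)) i j : ℝ) - a i j / s * 2 ^ (12 * L + 8)| ≤ 1 / 2 := h2
  linarith

theorem sum_bound (f g : ℕ → ℤ) (hn : (n : ℝ) ≤ 2 ^ L)
    (hf : ∀ j < n, |(f j : ℝ)| ≤ 2 * 2 ^ (12 * L + 8))
    (hg : ∀ j < n, |(g j : ℝ)| ≤ 2 * 2 ^ (12 * L + 8)) :
    |((∑ j ∈ range n, f j * g j : ℤ) : ℝ)| ≤ 2 ^ (25 * L + 20) / 4 := by
  push_cast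
  calc |∑ j ∈ range n, (f j : ℝ) * g j| ≤ ∑ j ∈ range n, |(f j : ℝ) * g j| :=
        abs_sum_le_sum_abs _ _
    _ ≤ ∑ _j ∈ range n, (2 * 2 ^ (12 * L + 8)) * (2 * 2 ^ (12 * L + 8)) :=
        sum_le_sum fun j hj => by
          rw [abs_mul]
          exact mul_le_mul (hf j (mem_range.mp hj)) (hg j (mem_range.mp hj)) (abs_nonneg _)
            (by positivity)
    _ = n * ((2 * 2 ^ (12 * L + 8)) * (2 * 2 ^ (12 * L + 8))) := by simp
    _ ≤ 2 ^ L * ((2 * 2 ^ (12 * L + 8)) * (2 * 2 ^ (12 * L + 8))) :=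
        mul_le_mul_of_nonneg_right hn (by positivity)
    _ = 2 ^ (25 * L + 20) / 4 := by
        generalize hP : (12 * L + 8) = P
        rw [show 25 * L + 20 = L + (P + P) + 4 by omega, pow_add, pow_add, pow_add (2 : ℝ) P]
        ring

end

end Pool.Agent.Q225.PK
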