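import Pool.Agent.Q225.PK.Final

set_option autoImplicit false

/-!
# The number of steps of a round
-/

namespace Pool.Agent.Q225.PK

open Finset

theorem ub_n {e : ℕ → ℕ} {n : ℕ} (hn : e 0 = n) (v : ℕ) (c : Cmd) (B : ℕ)
    (h : ∀ i, ub c (Function.update e v i) ≤ B) : ub (.loop v nn c) e ≤ (n + 1) * (1 + B) := by
  have := ub_loop_le v nn c e B (fun i _ => h i)
  rw [show nn.eval e = n from hn] at this
  nlinarith

section

variable {e : ℕ → ℕ} {n t : ℕ} (hn : e 0 = n) (ht : e 1 = t)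

theorem ww_ev {e : ℕ → ℕ} {t : ℕ} (ht : e 1 = t) : WW.eval e = 25 * t + 20 := by
  simp [WW, IE.eval, ht]

theorem ub_rnd {e : ℕ → ℕ} {t : ℕ} (ht : e 1 = t) : ub (rndCmd WW) e ≤ 250 * (t + 1) := by
  have h1 : ub (dbl 12 WW) e ≤ 1 + (25 * t + 20) * (1 + 1) := by
    have h := ub_loop_le 9 WW (.add (sc 12) (sc 12) (sc 12)) e 1 (by intro i _; simp [ub])
    rw [ww_ev ht] at h
    exact h
  have h2 : ub (.loop 9 (.add WW (.lit 1)) extBody) e ≤ 1 + (25 * t + 20 + 1) * (1 + 5) := by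
    have h := ub_loop_le 9 (.add WW (.lit 1)) extBody e 5 (by intro i _; simp [ub, extBody])
    have h3 : (IE.add WW (.lit 1)).eval e = 25 * t + 20 + 1 := by
      show WW.eval e + 1 = _
      rw [ww_ev ht]
    rw [h3] at h
    exact h
  simp only [rndCmd, ub] at *
  omega

theorem upd1 {e : ℕ → ℕ} {t v i : ℕ} (ht : e 1 = t) (hv : v ≠ 1) :
    (Function.update e v i) 1 = t := by
  rw [Function.update_of_ne (Ne.symm hv)]; exact ht

theorem upd0 {e : ℕ → ℕ} {t v i : ℕ} (ht : e 0 = t) (hv : v ≠ 0) :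
    (Function.update e v i) 0 = t := by
  rw [Function.update_of_ne (Ne.symm hv)]; exact ht

theorem ub_dot {e : ℕ → ℕ} {n : ℕ} (hn : e 0 = n) (d x y : Loc) :
    ub (dotCmd nn d x y) e ≤ 3 * (n + 1) := by
  have := dot_ub nn d x y e
  rw [show nn.eval e = n from hn] at this
  omega

include hn ht

theorem ub_digits : ub (.loop 3 nn digitBody) e ≤ 506 * ((n + 1) * (t + 1)) := by
  have h := ub_n hn 3 digitBody (505 * (t + 1)) (by
    intro i
    have h1 := ub_rnd (upd1 ht (by norm_num) : (Function.update e 3 i) 1 = t)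
    simp only [digitBody, ub] at *
    omega)
  nlinarith

theorem ub_row : ub rowCmd e ≤ 509 * ((n + 1) * (t + 1)) := by
  have h1 := ub_digits hn ht
  have h2 := ub_dot hn (sc 26) ⟨20, .var 2, .var 3⟩ ⟨24, .var 3, .lit 0⟩
  simp only [rowCmd, ub] at *
  nlinarith

theorem ub_mul : ub mulCmd e ≤ 569 * ((n + 1) * (n + 1) * (t + 1)) := by
  have h1 : ub (.loop 2 nn rowCmd) e ≤ 510 * ((n + 1) * (n + 1) * (t + 1)) := by
    have h := ub_n hn 2 rowCmd (509 * ((n + 1) * (t + 1)))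
      (fun i => ub_row (upd0 hn (by norm_num)) (upd1 ht (by norm_num)))
    have : 1 ≤ (n + 1) * (t + 1) := Nat.one_le_iff_ne_zero.mpr (by positivity)
    calc ub (.loop 2 nn rowCmd) e ≤ (n + 1) * (1 + 509 * ((n + 1) * (t + 1))) := h
      _ ≤ (n + 1) * ((n + 1) * (t + 1) + 509 * ((n + 1) * (t + 1))) := by gcongr
      _ = _ := by ring
  have h2 : ub packCmd e ≤ 4 * ((n + 1) * (n + 1)) := by
    have h := ub_n hn 2 (dotCmd nn ⟨24, .var 2, .lit 0⟩ ⟨21, .var 2, .var 3⟩ ⟨23, .var 3, .lit 0⟩)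
      (3 * (n + 1)) (fun i => ub_dot (upd0 hn (by norm_num)) _ _ _)
    calc ub packCmd e ≤ (n + 1) * (1 + 3 * (n + 1)) := h
      _ ≤ (n + 1) * ((n + 1) + 3 * (n + 1)) := by gcongr; omega
      _ = _ := by ring
  have h3 : ub powCmd e ≤ 3 + 50 * (t + 1) + 2 * (n + 1) := by
    have g1 : ub (dbl 25 WW) e ≤ 1 + (25 * t + 20) * (1 + 1) := by
      have h := ub_loop_le 9 WW (.add (sc 25) (sc 25) (sc 25)) e 1 (by intro i _; simp [ub])
      rw [ww_ev ht] at h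
      exact h
    have g2 := ub_n hn 2 (.mul ⟨23, .add (.var 2) (.lit 1), .lit 0⟩ ⟨23, .var 2, .lit 0⟩ (sc 25)) 1
      (by intro i; simp [ub])
    simp only [powCmd, ub] at *
    omega
  simp only [mulCmd, ub] at *
  nlinarith [Nat.zero_le (n * n), Nat.zero_le (n * t), Nat.zero_le (n * n * t)]

omit ht

theorem ub_cp (a b : ℕ) : ub (cpCmd a b) e ≤ 3 * ((n + 1) * (n + 1)) := by
  have h := ub_n hn 2 (.loop 3 nn (.copy ⟨a, .var 2, .var 3⟩ ⟨b, .var 2, .var 3⟩)) ((n + 1) * (1 + 1))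
    (fun i => ub_n (upd0 hn (by norm_num)) 3 _ 1 (by intro i; simp [ub]))
  calc ub (cpCmd a b) e ≤ (n + 1) * (1 + (n + 1) * (1 + 1)) := h
    _ ≤ (n + 1) * ((n + 1) + (n + 1) * (1 + 1)) := by gcongr; omega
    _ = _ := by ring

theorem ub_tr (a b : ℕ) : ub (trCmd a b) e ≤ 3 * ((n + 1) * (n + 1)) := by
  have h := ub_n hn 2 (.loop 3 nn (.copy ⟨a, .var 2, .var 3⟩ ⟨b, .var 3, .var 2⟩)) ((n + 1) * (1 + 1))
    (fun i => ub_n (upd0 hn (by norm_num)) 3 _ 1 (by intro i; simp [ub]))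
  calc ub (trCmd a b) e ≤ (n + 1) * (1 + (n + 1) * (1 + 1)) := h
    _ ≤ (n + 1) * ((n + 1) + (n + 1) * (1 + 1)) := by gcongr; omega
    _ = _ := by ring

theorem ub_cv (a b : ℕ) : ub (cvCmd a b) e ≤ 2 * ((n + 1) * (n + 1)) := by
  have h := ub_n hn 2 (.copy ⟨a, .var 2, .lit 0⟩ ⟨b, .var 2, .lit 0⟩) 1 (by intro i; simp [ub])
  simp only [cvCmd] at *
  nlinarith

theorem ub_u : ub uCmd e ≤ 6 * ((n + 1) * (n + 1)) := by
  have h := ub_n hn 2 (.seq (dotCmd nn ⟨34, .var 2, .lit 0⟩ ⟨32, .var 2, .var 3⟩ ⟨33, .var 3, .lit 0⟩)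
    (.seq (.div ⟨34, .var 2, .lit 0⟩ ⟨34, .var 2, .lit 0⟩ (sc 29))
      (.add ⟨34, .var 2, .lit 0⟩ ⟨34, .var 2, .lit 0⟩ ⟨33, .var 2, .lit 0⟩))) (3 * (n + 1) + 2)
    (fun i => by
      have h1 := ub_dot (upd0 hn (by norm_num) : (Function.update e 2 i) 0 = n)
        ⟨34, .var 2, .lit 0⟩ ⟨32, .var 2, .var 3⟩ ⟨33, .var 3, .lit 0⟩
      simp only [ub] at *
      omega)
  simp only [uCmd] at *
  nlinarith

include ht

theorem ub_step : ub stepCmd e ≤ 586 * ((n + 1) * (n + 1) * (t + 1)) := by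
  have h1 := ub_u hn
  have h2 := ub_cv hn 33 34
  have h3 := ub_cp hn 20 32
  have h4 := ub_cp hn 21 32
  have h5 := ub_mul hn ht
  have h6 := ub_cp hn 32 22
  have h7 : (n + 1) * (n + 1) ≤ (n + 1) * (n + 1) * (t + 1) := Nat.le_mul_of_pos_right _ (by omega)
  simp only [stepCmd, ub] at *
  omega

theorem ub_it : ub itCmd e ≤ 587 * ((n + 1) * (n + 1) * ((t + 1) * (t + 1))) := by
  have h := ub_loop_le 4 (.var 1) stepCmd e (586 * ((n + 1) * (n + 1) * (t + 1)))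
    (fun i _ => ub_step (upd0 hn (by norm_num)) (upd1 ht (by norm_num)))
  rw [show (IE.var 1).eval e = t from ht] at h
  have h7 : 1 ≤ (n + 1) * (n + 1) * (t + 1) := Nat.one_le_iff_ne_zero.mpr (by positivity)
  calc ub itCmd e ≤ 1 + t * (1 + 586 * ((n + 1) * (n + 1) * (t + 1))) := h
    _ ≤ (t + 1) * (1 + 586 * ((n + 1) * (n + 1) * (t + 1))) := by nlinarith
    _ ≤ (t + 1) * ((n + 1) * (n + 1) * (t + 1) + 586 * ((n + 1) * (n + 1) * (t + 1))) := by gcongr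
    _ = _ := by ring

theorem ub_prep : ub prepCmd e ≤ 869 * ((n + 1) * (n + 1) * (t + 1)) := by
  have h1 : ub absCmd e ≤ 2 + 5 * ((n + 1) * (n + 1)) := by
    have h := ub_n hn 2 (.loop 3 nn (.cond ⟨0, .var 2, .var 3⟩ (sc 31)
      (.sub (sc 30) (sc 30) ⟨0, .var 2, .var 3⟩) (.add (sc 30) (sc 30) ⟨0, .var 2, .var 3⟩)))
      ((n + 1) * (1 + 3)) (fun i => ub_n (upd0 hn (by norm_num)) 3 _ 3 (by intro i; simp [ub]))
    simp only [absCmd, ub] at *
    nlinarith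
  have h2 : ub (dbl 29 PP) e ≤ 24 * (t + 1) + 1 := by
    have h := ub_loop_le 9 PP (.add (sc 29) (sc 29) (sc 29)) e 1 (by intro i _; simp [ub])
    rw [show PP.eval e = 12 * t + 8 by simp [PP, IE.eval, ht]] at h
    have : ub (dbl 29 PP) e ≤ 1 + (12 * t + 8) * (1 + 1) := h
    omega
  have h3 : ub gCmd e ≤ 255 * ((n + 1) * (n + 1) * (t + 1)) := by
    have hb : ∀ f : ℕ → ℕ, f 1 = t → ub gBody f ≤ 253 * (t + 1) := by
      intro f hf
      have := ub_rnd hf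
      simp only [gBody, ub] at *
      omega
    have h := ub_n hn 2 (.loop 3 nn gBody) ((n + 1) * (1 + 253 * (t + 1)))
      (fun i => ub_n (upd0 hn (by norm_num)) 3 _ _
        (fun j => hb _ (upd1 (upd1 ht (by norm_num)) (by norm_num))))
    have h7 : 1 ≤ (n + 1) * (t + 1) := Nat.one_le_iff_ne_zero.mpr (by positivity)
    calc ub gCmd e ≤ (n + 1) * (1 + (n + 1) * (1 + 253 * (t + 1))) := h
      _ ≤ (n + 1) * ((n + 1) * (t + 1) + (n + 1) * ((t + 1) + 253 * (t + 1))) := by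
        gcongr
        omega
      _ = _ := by ring
  have h4 := ub_tr hn 20 21
  have h5 := ub_mul hn ht
  have h6 : ub r0Cmd e ≤ 4 * ((n + 1) * (n + 1)) := by
    have h := ub_n hn 2 (.seq (.loop 3 nn (.sub ⟨32, .var 2, .var 3⟩ (sc 31) ⟨22, .var 2, .var 3⟩))
      (.add ⟨32, .var 2, .var 2⟩ ⟨32, .var 2, .var 2⟩ (sc 29))) ((n + 1) * (1 + 1) + 1)
      (fun i => by
        have h1 := ub_n (upd0 hn (by norm_num) : (Function.update e 2 i) 0 = n) 3
          (.sub ⟨32, .var 2, .var 3⟩ (sc 31) ⟨22, .var 2, .var 3⟩) 1 (by intro i; simp [ub])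
        simp only [ub] at *
        omega)
    simp only [r0Cmd] at *
    nlinarith
  have h7 : ub u0Cmd e ≤ 5 * ((n + 1) * (n + 1)) := by
    have h := ub_n hn 2 (.seq (dotCmd nn ⟨33, .var 2, .lit 0⟩ ⟨0, .var 3, .var 2⟩ ⟨1, .var 3, .lit 0⟩)
      (.div ⟨33, .var 2, .lit 0⟩ ⟨33, .var 2, .lit 0⟩ (sc 30))) (3 * (n + 1) + 1)
      (fun i => by
        have h1 := ub_dot (upd0 hn (by norm_num) : (Function.update e 2 i) 0 = n)
          ⟨33, .var 2, .lit 0⟩ ⟨0, .var 3, .var 2⟩ ⟨1, .var 3, .lit 0⟩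
        simp only [ub] at *
        omega)
    simp only [u0Cmd] at *
    nlinarith
  have h8 : (n + 1) * (n + 1) ≤ (n + 1) * (n + 1) * (t + 1) := Nat.le_mul_of_pos_right _ (by omega)
  have h9 : (t + 1) ≤ (n + 1) * (n + 1) * (t + 1) := Nat.le_mul_of_pos_left _ (by positivity)
  simp only [prepCmd, ub] at *
  omega

theorem ub_test : ub testCmd e ≤ 49 * ((n + 1) * (n + 1) * (t + 1)) := by
  have h1 : ub sqCmd e ≤ 1 + 4 * ((n + 1) * (n + 1)) := by
    have h := ub_n hn 2 (.loop 3 nn (.seq (.mul (sc 27) ⟨32, .var 2, .var 3⟩ ⟨32, .var 2, .var 3⟩)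
      (.add (sc 35) (sc 35) (sc 27)))) ((n + 1) * (1 + 2))
      (fun i => ub_n (upd0 hn (by norm_num)) 3 _ 2 (by intro i; simp [ub]))
    simp only [sqCmd, ub] at *
    nlinarith
  have h2 : ub (dbl 35 (.lit 4)) e ≤ 9 :=
    ub_loop_le 9 (.lit 4) (.add (sc 35) (sc 35) (sc 35)) e 1 (by intro i _; simp [ub])
  have h3 : ub (dbl 37 (.lit 2)) e ≤ 5 :=
    ub_loop_le 9 (.lit 2) (.add (sc 37) (sc 37) (sc 37)) e 1 (by intro i _; simp [ub])
  have h4 : ub (dbl 39 (.var 1)) e ≤ 1 + t * (1 + 1) := by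
    have := ub_loop_le 9 (.var 1) (.add (sc 39) (sc 39) (sc 39)) e 1 (by intro i _; simp [ub])
    rw [show (IE.var 1).eval e = t from ht] at this
    exact this
  have h5 := ub_n hn 2 (.add (sc 37) (sc 37) (sc 38)) 1 (by intro i; simp [ub])
  have h6 : ub resCmd e ≤ 5 * ((n + 1) * (n + 1)) := by
    have h := ub_n hn 2 (.seq (dotCmd nn ⟨40, .var 2, .lit 0⟩ ⟨0, .var 2, .var 3⟩ ⟨3, .var 3, .lit 0⟩)
      (.sub ⟨40, .var 2, .lit 0⟩ ⟨40, .var 2, .lit 0⟩ ⟨1, .var 2, .lit 0⟩)) (3 * (n + 1) + 1)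
      (fun i => by
        have h1 := ub_dot (upd0 hn (by norm_num) : (Function.update e 2 i) 0 = n)
          ⟨40, .var 2, .lit 0⟩ ⟨0, .var 2, .var 3⟩ ⟨3, .var 3, .lit 0⟩
        simp only [ub] at *
        omega)
    simp only [resCmd] at *
    nlinarith
  have h7 := ub_dot hn (sc 41) ⟨40, .var 3, .lit 0⟩ ⟨40, .var 3, .lit 0⟩
  have h8 := ub_dot hn (sc 42) ⟨1, .var 3, .lit 0⟩ ⟨1, .var 3, .lit 0⟩
  have h9 : (n + 1) * (n + 1) ≤ (n + 1) * (n + 1) * (t + 1) := Nat.le_mul_of_pos_right _ (by omega)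
  have h10 : (t + 1) ≤ (n + 1) * (n + 1) * (t + 1) := Nat.le_mul_of_pos_left _ (by positivity)
  have h11 : (n + 1) ≤ (n + 1) * (n + 1) := Nat.le_mul_of_pos_left _ (by omega)
  simp only [testCmd, ub] at *
  omega

theorem ub_round : ub roundCmd e ≤ 1600 * ((n + 1) * (n + 1) * ((t + 1) * (t + 1))) := by
  have h1 := ub_prep hn ht
  have h2 := ub_it hn ht
  have h3 := ub_test hn ht
  have h4 : ub outCmd e ≤ 2 * (n + 1) := by
    have := ub_n hn 2 (.div ⟨3, .var 2, .lit 0⟩ ⟨33, .var 2, .lit 0⟩ (sc 30)) 1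
      (by intro i; simp [ub])
    simp only [outCmd] at *
    omega
  have h9 : (n + 1) * (n + 1) * (t + 1) ≤ (n + 1) * (n + 1) * ((t + 1) * (t + 1)) := by
    refine Nat.mul_le_mul_left _ ?_
    exact Nat.le_mul_of_pos_left _ (by omega)
  have h10 : (n + 1) ≤ (n + 1) * (n + 1) * (t + 1) := by
    calc n + 1 ≤ (n + 1) * (n + 1) := Nat.le_mul_of_pos_left _ (by omega)
      _ ≤ _ := Nat.le_mul_of_pos_right _ (by omega)
  simp only [roundCmd, ub] at *
  omega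

end

end Pool.Agent.Q225.PK
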