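import Pool.Agent.Q225.PK.Net

set_option autoImplicit false

/-!
# Random matrices with two values: the smallest singular value
-/

namespace Pool.Agent.Q225.PK

open Finset Matrix

/-- The matrix with the entries `α`, `β`. -/
def matV {n : ℕ} (α β : ℝ) (M : Fin n → Fin n → Bool) : Matrix (Fin n) (Fin n) ℝ :=
  Matrix.of fun i j => val α β (M i j)

/-- Row `i` is replaced by zero. -/
def del {n : ℕ} (A : Matrix (Fin n) (Fin n) ℝ) (i : Fin n) : Matrix (Fin n) (Fin n) ℝ :=
  Matrix.of fun j k => if j = i then 0 else A j k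

theorem exists_normal {n : ℕ} (A : Matrix (Fin n) (Fin n) ℝ) (i : Fin n) :
    ∃ u : Fin n → ℝ, nrm u = 1 ∧ del A i *ᵥ u = 0 := by
  have hdet : (del A i).det = 0 := Matrix.det_eq_zero_of_row_eq_zero i (by
    intro j; simp [del])
  obtain ⟨v, hv, hv0⟩ := Matrix.exists_mulVec_eq_zero_iff.mpr hdet
  have hpos := nrm_pos hv
  refine ⟨(nrm v)⁻¹ • v, ?_, ?_⟩
  · rw [nrm_smul, abs_of_pos (inv_pos.mpr hpos), inv_mul_cancel₀ hpos.ne']
  · rw [mulVec_smul, hv0, smul_zero]

open Classical in
/-- A unit vector in the kernel. -/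
noncomputable def nv {n : ℕ} (N : Matrix (Fin n) (Fin n) ℝ) : Fin n → ℝ :=
  if h : ∃ u : Fin n → ℝ, nrm u = 1 ∧ N *ᵥ u = 0 then Classical.choose h else 0

theorem nv_spec {n : ℕ} (A : Matrix (Fin n) (Fin n) ℝ) (i : Fin n) :
    nrm (nv (del A i)) = 1 ∧ ∀ j ≠ i, ∑ k, A j k * nv (del A i) k = 0 := by
  have h := exists_normal A i
  have h1 : nv (del A i) = Classical.choose h := by rw [nv, dif_pos h]
  have h2 := Classical.choose_spec h
  rw [← h1] at h2
  refine ⟨h2.1, fun j hj => ?_⟩
  have h3 := congrFun h2.2 j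
  simp only [mulVec, dotProduct, del, Matrix.of_apply, if_neg hj, Pi.zero_apply] at h3
  exact h3

theorem del_update {n : ℕ} (α β : ℝ) (M : Fin n → Fin n → Bool) (i : Fin n) (x : Fin n → Bool) :
    del (matV α β (Function.update M i x)) i = del (matV α β M) i := by
  ext j k
  simp only [del, matV, Matrix.of_apply]
  split_ifs with h
  · rfl
  · rw [Function.update_of_ne h]

/-- Row `i` is almost in the hyperplane of the other rows, and the normal vector is spread. -/
noncomputable def Dset (n m : ℕ) (α β : ℝ) (i : Fin n) : Set (Fin n → Fin n → Bool) :=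
  {M | m ≤ (big (nv (del (matV α β M) i))).card ∧
    |∑ k, val α β (M i k) * nv (del (matV α β M) i) k| ≤ mesh n / 4}

open Classical in
theorem dset_card {n m : ℕ} (hn : 1 ≤ n) (α β : ℝ) (hd : 1 ≤ β - α) (i : Fin n) :
    ((univ.filter fun M => M ∈ Dset n m α β i).card : ℝ) * √(m : ℝ) ≤ 2 ^ (n * n) := by
  set D := univ.filter fun M => M ∈ Dset n m α β i with hD
  let φ : (Fin n → Fin n → Bool) × (Fin n → Bool) → (Fin n → Fin n → Bool) × (Fin n → Bool) :=
    fun q => (Function.update q.1 i q.2, q.1 i)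
  have hφ : ∀ q, φ (φ q) = q := by
    intro q
    simp only [φ, Function.update_self, Function.update_idem, Function.update_eq_self]
  -- double counting
  have h1 : (univ.filter fun q : (Fin n → Fin n → Bool) × (Fin n → Bool) =>
      Function.update q.1 i q.2 ∈ Dset n m α β i).card = D.card * 2 ^ n := by
    have : (univ.filter fun q : (Fin n → Fin n → Bool) × (Fin n → Bool) =>
      Function.update q.1 i q.2 ∈ Dset n m α β i).card =
      (D ×ˢ (univ : Finset (Fin n → Bool))).card := by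
      refine card_nbij' φ φ ?_ ?_ ?_ ?_
      · intro q hq
        simp only [coe_filter, mem_univ, true_and, Set.mem_ofPred_eq] at hq
        simp only [coe_product, coe_univ, Set.mem_prod, Set.mem_univ, and_true, hD, coe_filter,
          mem_univ, true_and, Set.mem_ofPred_eq]
        exact hq
      · intro q hq
        simp only [coe_product, coe_univ, Set.mem_prod, Set.mem_univ, and_true, hD, coe_filter,
          mem_univ, true_and, Set.mem_ofPred_eq] at hq
        simp only [coe_filter, mem_univ, true_and, Set.mem_ofPred_eq]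
        have h2 : Function.update (φ q).1 i (φ q).2 = q.1 := congrArg Prod.fst (hφ q)
        rw [h2]
        exact hq
      · intro q _; exact hφ q
      · intro q _; exact hφ q
    rw [this, card_product, card_univ, Fintype.card_fun, Fintype.card_bool, Fintype.card_fin]
  have h2 : ((univ.filter fun q : (Fin n → Fin n → Bool) × (Fin n → Bool) =>
      Function.update q.1 i q.2 ∈ Dset n m α β i).card : ℝ) * √(m : ℝ) ≤ 2 ^ (n * n) * 2 ^ n := by
    have h3 : (univ.filter fun q : (Fin n → Fin n → Bool) × (Fin n → Bool) =>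
        Function.update q.1 i q.2 ∈ Dset n m α β i).card =
        ∑ M : Fin n → Fin n → Bool,
          (univ.filter fun x : Fin n → Bool => Function.update M i x ∈ Dset n m α β i).card := by
      rw [card_eq_sum_card_fiberwise (f := Prod.fst) (t := univ) (fun _ _ => mem_univ _)]
      refine sum_congr rfl fun M _ => ?_
      refine card_nbij' (fun q => q.2) (fun x => (M, x)) ?_ ?_ ?_ ?_
      · intro q hq
        simp only [coe_filter, mem_filter, mem_univ, true_and, Set.mem_ofPred_eq] at hq ⊢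
        rw [← hq.2]; exact hq.1
      · intro x hx
        simp only [coe_filter, mem_filter, mem_univ, true_and, Set.mem_ofPred_eq] at hx ⊢
        exact ⟨hx, trivial⟩
      · intro q hq
        simp only [coe_filter, mem_filter, mem_univ, true_and, Set.mem_ofPred_eq] at hq
        rw [← hq.2]
      · intro x _; rfl
    rw [h3]
    push_cast
    rw [sum_mul]
    have h4 : ∀ M : Fin n → Fin n → Bool,
        ((univ.filter fun x : Fin n → Bool => Function.update M i x ∈ Dset n m α β i).card : ℝ) *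
          √(m : ℝ) ≤ 2 ^ n := by
      intro M
      set u := nv (del (matV α β M) i) with hu
      have ht := mesh_pos hn
      have hlo := lo u α β (mesh n) (mesh n / 4) ht hd (by linarith)
      rw [Fintype.card_fin] at hlo
      by_cases hm : m ≤ (big u).card
      · have h5 : (univ.filter fun x : Fin n → Bool => Function.update M i x ∈ Dset n m α β i) ⊆
            (univ.filter fun x : Fin n → Bool => |∑ k, val α β (x k) * u k| ≤ mesh n / 4) := by
          intro x hx
          rw [mem_filter] at hx ⊢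
          refine ⟨mem_univ _, ?_⟩
          have h6 := hx.2.2
          rw [del_update, ← hu] at h6
          simpa using h6
        have h7 : √(m : ℝ) ≤ √((univ.filter fun k => mesh n ≤ |u k|).card : ℝ) :=
          Real.sqrt_le_sqrt (by exact_mod_cast hm)
        have h8 : ((univ.filter fun x : Fin n → Bool =>
            Function.update M i x ∈ Dset n m α β i).card : ℝ) ≤
            ((univ.filter fun x : Fin n → Bool =>
              |∑ k, val α β (x k) * u k| ≤ mesh n / 4).card : ℝ) := by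
          exact_mod_cast card_le_card h5
        calc _ ≤ ((univ.filter fun x : Fin n → Bool =>
              |∑ k, val α β (x k) * u k| ≤ mesh n / 4).card : ℝ) *
              √((univ.filter fun k => mesh n ≤ |u k|).card : ℝ) := by gcongr
          _ ≤ 2 ^ n := hlo
      · have h5 : (univ.filter fun x : Fin n → Bool =>
            Function.update M i x ∈ Dset n m α β i) = ∅ := by
          rw [filter_eq_empty_iff]
          intro x _ hx
          have h6 := hx.1
          rw [del_update, ← hu] at h6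
          exact hm h6
        rw [h5]
        simp
    calc ∑ M : Fin n → Fin n → Bool,
        ((univ.filter fun x : Fin n → Bool => Function.update M i x ∈ Dset n m α β i).card : ℝ) *
          √(m : ℝ) ≤ ∑ _M : Fin n → Fin n → Bool, (2 : ℝ) ^ n := sum_le_sum fun M _ => h4 M
      _ = 2 ^ (n * n) * 2 ^ n := by
        rw [sum_const, card_univ, Fintype.card_fun, Fintype.card_fun, Fintype.card_bool,
          Fintype.card_fin, nsmul_eq_mul, ← pow_mul]
        push_cast
        ring
  rw [h1] at h2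
  push_cast at h2
  have h3 : (0 : ℝ) < 2 ^ n := by positivity
  refine le_of_mul_le_mul_right ?_ h3
  calc (D.card : ℝ) * √(m : ℝ) * 2 ^ n = (D.card : ℝ) * 2 ^ n * √(m : ℝ) := by ring
    _ ≤ _ := h2

/-- The bad matrices. -/
noncomputable def BadAll (n : ℕ) (α β : ℝ) : Set (Fin n → Fin n → Bool) :=
  {M | ∃ w : Fin n → ℝ, nrm w = 1 ∧ nrm ((matV α β M)ᵀ *ᵥ w) ≤ mesh n ^ 2 / 4}

theorem bad_spread {n m : ℕ} (hn : 1 ≤ n) (α β : ℝ) (M : Fin n → Fin n → Bool)
    (h1 : Function.swap M ∉ Bad2 n m α β ⟨0, hn⟩) (h2 : ∀ i, M ∉ Bad2 n m α β i)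
    (h : M ∈ BadAll n α β) : ∃ I : Finset (Fin n), m ≤ I.card ∧ ∀ i ∈ I, M ∈ Dset n m α β i := by
  have ht := mesh_pos hn
  have ht1 : mesh n ≤ 1 := by
    have hn0 : (1 : ℝ) ≤ n := by exact_mod_cast hn
    unfold mesh
    rw [div_le_one (by positivity)]
    nlinarith
  obtain ⟨w, hw, hA⟩ := h
  have hcol : ∀ j, |∑ k, val α β (M k j) * w k| ≤ mesh n ^ 2 / 4 := by
    intro j
    have := (abs_le_nrm ((matV α β M)ᵀ *ᵥ w) j).trans hA
    exact this
  have hbw : m < (big w).card := by
    by_contra hcon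
    push Not at hcon
    apply h1
    refine ⟨w, hw, hcon, fun j _ => ?_⟩
    refine (hcol j).trans ?_
    nlinarith
  refine ⟨big w, hbw.le, fun i hi => ?_⟩
  obtain ⟨hu1, hu2⟩ := nv_spec (matV α β M) i
  set u := nv (del (matV α β M) i) with hu
  have hbu : m < (big u).card := by
    by_contra hcon
    push Not at hcon
    apply h2 i
    refine ⟨u, hu1, hcon, fun j hj => ?_⟩
    have := hu2 j hj
    simp only [matV, Matrix.of_apply] at this
    rw [this, abs_zero]
    exact ht.le
  refine ⟨hbu.le, ?_⟩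
  have hwi : mesh n ≤ |w i| := by
    rw [big, mem_filter] at hi; exact hi.2
  -- the scalar product of `u` and `Aᵀ w`
  have e1 : u ⬝ᵥ ((matV α β M)ᵀ *ᵥ w) = w i * ∑ k, val α β (M i k) * u k := by
    have e2 : u ⬝ᵥ ((matV α β M)ᵀ *ᵥ w) = (matV α β M *ᵥ u) ⬝ᵥ w := by
      rw [mulVec_transpose, dotProduct_comm, ← dotProduct_mulVec, dotProduct_comm]
    rw [e2, dotProduct, sum_eq_single i]
    · simp only [mulVec, dotProduct, matV, Matrix.of_apply]; ring
    · intro j _ hj
      have : (matV α β M *ᵥ u) j = 0 := hu2 j hj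
      rw [this, zero_mul]
    · intro hh; exact absurd (mem_univ _) hh
  have e3 : |u ⬝ᵥ ((matV α β M)ᵀ *ᵥ w)| ≤ nrm u * nrm ((matV α β M)ᵀ *ᵥ w) := by
    rw [← Real.sqrt_sq (mul_nonneg (nrm_nonneg u) (nrm_nonneg ((matV α β M)ᵀ *ᵥ w))),
      ← Real.sqrt_sq_eq_abs, mul_pow, nrm_sq, nrm_sq]
    exact Real.sqrt_le_sqrt (sum_mul_sq_le_sq_mul_sq univ _ _)
  rw [e1, hu1, one_mul, abs_mul] at e3
  have e4 : mesh n * |∑ k, val α β (M i k) * u k| ≤ mesh n * (mesh n / 4) := by
    calc mesh n * |∑ k, val α β (M i k) * u k| ≤ |w i| * |∑ k, val α β (M i k) * u k| :=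
          mul_le_mul_of_nonneg_right hwi (abs_nonneg _)
      _ ≤ mesh n ^ 2 / 4 := e3.trans hA
      _ = _ := by ring
  exact le_of_mul_le_mul_left e4 ht

open Classical in
theorem badAll_card {n m : ℕ} (hn : 1 ≤ n) (hm : 1 ≤ m) (α β : ℝ) (hα : |α| ≤ 1) (hβ : |β| ≤ 1)
    (hd : 1 ≤ β - α) :
    ((univ.filter fun M => M ∈ BadAll n α β).card : ℝ) ≤
      ((n + 1) * (n * (2 * (10 * (n : ℝ) ^ 2) + 1)) ^ m / 2 ^ (n - 1) +
        n / (m * √(m : ℝ))) * 2 ^ (n * n) := by
  have hm0 : (0 : ℝ) < m := by exact_mod_cast hm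
  have hsm : 0 < √(m : ℝ) := Real.sqrt_pos.mpr hm0
  set B := univ.filter fun M => M ∈ BadAll n α β with hB
  set B1 := univ.filter fun M : Fin n → Fin n → Bool =>
    Function.swap M ∈ Bad2 n m α β ⟨0, hn⟩ with hB1
  set B3 := univ.filter fun M : Fin n → Fin n → Bool =>
    ∃ I : Finset (Fin n), m ≤ I.card ∧ ∀ i ∈ I, M ∈ Dset n m α β i with hB3
  have hsub : B ⊆ (B1 ∪ (univ : Finset (Fin n)).biUnion
      fun i => univ.filter fun M => M ∈ Bad2 n m α β i) ∪ B3 := by
    intro M hM
    rw [hB, mem_filter] at hM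
    rw [mem_union, mem_union]
    by_cases h1 : Function.swap M ∈ Bad2 n m α β ⟨0, hn⟩
    · exact Or.inl (Or.inl (by rw [hB1, mem_filter]; exact ⟨mem_univ _, h1⟩))
    · by_cases h2 : ∀ i, M ∉ Bad2 n m α β i
      · exact Or.inr (by rw [hB3, mem_filter]; exact ⟨mem_univ _, bad_spread hn α β M h1 h2 hM.2⟩)
      · push Not at h2
        obtain ⟨i, hi⟩ := h2
        exact Or.inl (Or.inr (by
          rw [mem_biUnion]; exact ⟨i, mem_univ _, by rw [mem_filter]; exact ⟨mem_univ _, hi⟩⟩))
  set X : ℝ := (n * (2 * (10 * (n : ℝ) ^ 2) + 1)) ^ m / 2 ^ (n - 1) * 2 ^ (n * n) with hX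
  have hb2 : ∀ i, ((univ.filter fun M => M ∈ Bad2 n m α β i).card : ℝ) ≤ X := by
    intro i
    have h := bad2_card (m := m) hn α β hα hβ hd i
    have h' : ((2 ^ (n - 1) * (univ.filter fun M => M ∈ Bad2 n m α β i).card : ℕ) : ℝ) ≤
      (((n * (2 * (10 * n ^ 2) + 1)) ^ m * 2 ^ (n * n) : ℕ) : ℝ) := by exact_mod_cast h
    push_cast at h'
    rw [hX, div_mul_eq_mul_div, le_div_iff₀ (by positivity)]
    linarith
  have hb1 : (B1.card : ℝ) ≤ X := by
    refine le_trans ?_ (hb2 ⟨0, hn⟩)
    have : B1.card ≤ (univ.filter fun M => M ∈ Bad2 n m α β ⟨0, hn⟩).card := by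
      refine card_le_card_of_injOn Function.swap ?_ ?_
      · intro M hM
        simp only [hB1, coe_filter, mem_univ, true_and, Set.mem_ofPred_eq] at hM ⊢
        exact hM
      · intro M _ M' _ h
        funext a b
        exact congrFun (congrFun h b) a
    exact_mod_cast this
  have hb3 : (B3.card : ℝ) ≤ n / (m * √(m : ℝ)) * 2 ^ (n * n) := by
    have h1 : (m : ℝ) * B3.card ≤ ∑ i : Fin n, ((univ.filter fun M => M ∈ Dset n m α β i).card : ℝ) := by
      have h2 : m * B3.card ≤ ∑ i : Fin n, (univ.filter fun M => M ∈ Dset n m α β i).card := by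
        calc m * B3.card = ∑ _M ∈ B3, m := by simp [mul_comm]
          _ ≤ ∑ M ∈ B3, (univ.filter fun i : Fin n => M ∈ Dset n m α β i).card := by
            refine sum_le_sum fun M hM => ?_
            rw [hB3, mem_filter] at hM
            obtain ⟨I, hI, hI'⟩ := hM.2
            refine hI.trans (card_le_card fun i hi => ?_)
            rw [mem_filter]; exact ⟨mem_univ _, hI' i hi⟩
          _ ≤ ∑ M : Fin n → Fin n → Bool, (univ.filter fun i : Fin n => M ∈ Dset n m α β i).card :=
            sum_le_sum_of_subset (subset_univ _)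
          _ = ∑ i : Fin n, (univ.filter fun M => M ∈ Dset n m α β i).card := by
            simp only [card_filter]
            exact sum_comm
      exact_mod_cast h2
    have h3 : ∑ i : Fin n, ((univ.filter fun M => M ∈ Dset n m α β i).card : ℝ) ≤
        n * (2 ^ (n * n) / √(m : ℝ)) := by
      calc _ ≤ ∑ _i : Fin n, (2 : ℝ) ^ (n * n) / √(m : ℝ) := by
            refine sum_le_sum fun i _ => ?_
            rw [le_div_iff₀ hsm]
            exact dset_card hn α β hd i
        _ = _ := by simp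
    have h4 : (m : ℝ) * B3.card ≤ n * (2 ^ (n * n) / √(m : ℝ)) := h1.trans h3
    calc (B3.card : ℝ) ≤ n * (2 ^ (n * n) / √(m : ℝ)) / m := by
          rw [le_div_iff₀ hm0]; linarith
      _ = _ := by field_simp
  have hcard : (B.card : ℝ) ≤ (B1.card + ∑ i : Fin n,
      ((univ.filter fun M => M ∈ Bad2 n m α β i).card : ℝ)) + B3.card := by
    have : B.card ≤ (B1.card + ∑ i : Fin n,
      (univ.filter fun M => M ∈ Bad2 n m α β i).card) + B3.card :=
      (card_le_card hsub).trans ((card_union_le _ _).trans (Nat.add_le_add_right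
        ((card_union_le _ _).trans (Nat.add_le_add_left card_biUnion_le _)) _))
    exact_mod_cast this
  have hsum : ∑ i : Fin n, ((univ.filter fun M => M ∈ Bad2 n m α β i).card : ℝ) ≤ n * X := by
    calc _ ≤ ∑ _i : Fin n, X := sum_le_sum fun i _ => hb2 i
      _ = n * X := by simp
  calc (B.card : ℝ) ≤ (X + n * X) + n / (m * √(m : ℝ)) * 2 ^ (n * n) := by linarith
    _ = _ := by rw [hX]; ring

/-- Matrices which are not bad are well invertible. -/
theorem lower_of_transpose {n : ℕ} (A : Matrix (Fin n) (Fin n) ℝ) (s : ℝ) (hs : 0 < s)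
    (h : ∀ w, nrm w = 1 → s < nrm (Aᵀ *ᵥ w)) : ∀ v, s * nrm v ≤ nrm (A *ᵥ v) := by
  have h1 : ∀ w, s * nrm w ≤ nrm (Aᵀ *ᵥ w) := by
    intro w
    by_cases hw : w = 0
    · rw [hw, nrm_zero, mul_zero]; exact nrm_nonneg _
    · have hpos := nrm_pos hw
      have h2 := (h ((nrm w)⁻¹ • w) (by
        rw [nrm_smul, abs_of_pos (inv_pos.mpr hpos), inv_mul_cancel₀ hpos.ne'])).le
      rw [mulVec_smul, nrm_smul, abs_of_pos (inv_pos.mpr hpos), ← div_eq_inv_mul,
        le_div_iff₀ hpos] at h2
      exact h2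
  have hdet : A.det ≠ 0 := by
    intro h0
    rw [← Matrix.det_transpose] at h0
    obtain ⟨w, hw, hw0⟩ := Matrix.exists_mulVec_eq_zero_iff.mpr h0
    have h2 := h1 w
    rw [hw0, nrm_zero] at h2
    have := mul_pos hs (nrm_pos hw)
    linarith
  intro v
  have hu : IsUnit Aᵀ.det := by rw [Matrix.det_transpose]; exact isUnit_iff_ne_zero.mpr hdet
  set w := Aᵀ⁻¹ *ᵥ v with hw
  have hv : Aᵀ *ᵥ w = v := by
    rw [hw, mulVec_mulVec, Matrix.mul_nonsing_inv _ hu, one_mulVec]
  have e1 : nrm v ^ 2 = (A *ᵥ v) ⬝ᵥ w := by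
    calc nrm v ^ 2 = v ⬝ᵥ v := (dot_self v).symm
      _ = v ⬝ᵥ (Aᵀ *ᵥ w) := by rw [hv]
      _ = (A *ᵥ v) ⬝ᵥ w := by
        rw [mulVec_transpose, dotProduct_comm, ← dotProduct_mulVec, dotProduct_comm]
  have e2 : (A *ᵥ v) ⬝ᵥ w ≤ nrm (A *ᵥ v) * nrm w := by
    refine (le_abs_self _).trans ?_
    rw [← Real.sqrt_sq (mul_nonneg (nrm_nonneg (A *ᵥ v)) (nrm_nonneg w)),
      ← Real.sqrt_sq_eq_abs, mul_pow, nrm_sq, nrm_sq]
    exact Real.sqrt_le_sqrt (sum_mul_sq_le_sq_mul_sq univ _ _)
  have e3 := h1 w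
  rw [hv] at e3
  have e4 : s * (nrm v * nrm v) ≤ nrm (A *ᵥ v) * nrm v := by
    calc s * (nrm v * nrm v) = s * nrm v ^ 2 := by ring
      _ ≤ s * (nrm (A *ᵥ v) * nrm w) := mul_le_mul_of_nonneg_left (e1 ▸ e2) hs.le
      _ = nrm (A *ᵥ v) * (s * nrm w) := by ring
      _ ≤ nrm (A *ᵥ v) * nrm v := mul_le_mul_of_nonneg_left e3 (nrm_nonneg _)
  by_cases hv0 : v = 0
  · rw [hv0, nrm_zero, mul_zero]; exact nrm_nonneg _
  · have := nrm_pos hv0
    refine le_of_mul_le_mul_right ?_ this
    linarith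

end Pool.Agent.Q225.PK
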