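import Pool.Agent.Q225.PK.Mul

set_option autoImplicit false

/-!
# Filling matrices and vectors, sums
-/

namespace Pool.Agent.Q225.PK

open Finset

/-- A double loop which computes the entries of the array `a`. -/
theorem fill2 {c : Cmd} {e : ℕ → ℕ} {m : Mem} (a : ℕ) (S : List ℕ) (F : ℕ → ℕ → ℝ)
    (hS : ∀ b ∈ S, b ∉ mods c)
    (hw : ∀ i j i' j', wrs c (Function.update (Function.update e 2 i) 3 j) a i' j' →
      i' = i ∧ j' = j)
    (hb : ∀ i < e 0, ∀ j < e 0, ∀ m', (∀ b ∈ S, m' b = m b) →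
      run c (Function.update (Function.update e 2 i) 3 j) m' a i j = F i j) :
    ∀ i < e 0, ∀ j < e 0, run (.loop 2 nn (.loop 3 nn c)) e m a i j = F i j := by
  refine loop_rows (v := 2) (N := nn) (e := e) (m := m) (c := .loop 3 nn c) a S
    (fun i r => ∀ j < e 0, r j = F i j) (by simpa [mods] using hS) ?_ ?_
  · intro i _ k _ hik j hh
    obtain ⟨l, _, hl⟩ := hh
    exact hik (hw _ _ _ _ hl).1
  · intro i hi m1 hm1
    have key := loop_inv (v := 3) (N := nn) (c := c) (e := Function.update e 2 i) (m := m1)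
      (fun k m' => (∀ b ∈ S, m' b = m b) ∧ ∀ j < k, j < e 0 → m' a i j = F i j)
      ⟨hm1, by simp⟩ ?_
    · intro j hj
      exact key.2 j (by simpa [nn, IE.eval, Function.update] using hj) hj
    · rintro k - m' ⟨h1, h2⟩
      refine ⟨fun b hb' => by rw [frame _ _ _ _ (hS b hb'), h1 b hb'], fun j hj hj' => ?_⟩
      rcases Nat.lt_succ_iff_lt_or_eq.mp hj with h | h
      · rw [frame2 _ _ _ _ _ _ (fun hh => by have := (hw _ _ _ _ hh).2; omega)]
        exact h2 j h hj'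
      · subst h
        exact hb i hi j hj' m' h1

/-- A loop which computes the entries of the vector `a`. -/
theorem fill1 {c : Cmd} {e : ℕ → ℕ} {m : Mem} (a : ℕ) (S : List ℕ) (F : ℕ → ℝ)
    (hS : ∀ b ∈ S, b ∉ mods c)
    (hw : ∀ i i' j', wrs c (Function.update e 2 i) a i' j' → i' = i)
    (hb : ∀ i < e 0, ∀ m', (∀ b ∈ S, m' b = m b) →
      run c (Function.update e 2 i) m' a i 0 = F i) :
    ∀ i < e 0, run (.loop 2 nn c) e m a i 0 = F i :=
  loop_rows (v := 2) (N := nn) (e := e) (m := m) (c := c) a S (fun i r => r 0 = F i) hS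
    (fun _ _ _ _ hik _ hh => hik (hw _ _ _ hh)) hb

/-- Copy a matrix. -/
def cpCmd (a b : ℕ) : Cmd := .loop 2 nn (.loop 3 nn (.copy ⟨a, .var 2, .var 3⟩ ⟨b, .var 2, .var 3⟩))

theorem run_cp (a b : ℕ) (hab : b ≠ a) (e : ℕ → ℕ) (m : Mem) :
    ∀ i < e 0, ∀ j < e 0, run (cpCmd a b) e m a i j = m b i j := by
  refine fill2 a [b] (fun i j => m b i j) (by simpa [mods] using hab) ?_ ?_
  · intro i j i' j' h
    simp [wrs, IE.eval, Function.update] at h
    exact h
  · intro i _ j _ m' hm'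
    simp [run, wr, rd, IE.eval, Function.update, hm' b (by simp)]

theorem cp_mods (a b : ℕ) : mods (cpCmd a b) = [a] := rfl

/-- Transpose a matrix. -/
def trCmd (a b : ℕ) : Cmd := .loop 2 nn (.loop 3 nn (.copy ⟨a, .var 2, .var 3⟩ ⟨b, .var 3, .var 2⟩))

theorem run_tr (a b : ℕ) (hab : b ≠ a) (e : ℕ → ℕ) (m : Mem) :
    ∀ i < e 0, ∀ j < e 0, run (trCmd a b) e m a i j = m b j i := by
  refine fill2 a [b] (fun i j => m b j i) (by simpa [mods] using hab) ?_ ?_
  · intro i j i' j' h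
    simp [wrs, IE.eval, Function.update] at h
    exact h
  · intro i _ j _ m' hm'
    simp [run, wr, rd, IE.eval, Function.update, hm' b (by simp)]

theorem tr_mods (a b : ℕ) : mods (trCmd a b) = [a] := rfl

/-- `30 := ∑ |A i j|` -/
def absCmd : Cmd :=
  .seq (.seq (.zero (sc 30)) (.zero (sc 31))) <|
  .loop 2 nn (.loop 3 nn (.cond ⟨0, .var 2, .var 3⟩ (sc 31)
    (.sub (sc 30) (sc 30) ⟨0, .var 2, .var 3⟩) (.add (sc 30) (sc 30) ⟨0, .var 2, .var 3⟩)))

theorem run_abs (e : ℕ → ℕ) (m : Mem) :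
    run absCmd e m 30 0 0 = ∑ i ∈ range (e 0), ∑ j ∈ range (e 0), |m 0 i j| ∧
    run absCmd e m 31 0 0 = 0 := by
  unfold absCmd
  rw [run_seq]
  set m1 := run (.seq (.zero (sc 30)) (.zero (sc 31))) e m with hm1
  have a30 : m1 30 0 0 = 0 := by simp [hm1, run, wr, sc, IE.eval]
  have a31 : m1 31 0 0 = 0 := by simp [hm1, run, wr, sc, IE.eval]
  have a0 : m1 0 = m 0 := by rw [hm1]; exact frame _ _ _ _ (by simp [mods, sc])
  clear_value m1
  have key := loop_inv (v := 2) (N := nn) (c := .loop 3 nn (.cond ⟨0, .var 2, .var 3⟩ (sc 31)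
    (.sub (sc 30) (sc 30) ⟨0, .var 2, .var 3⟩) (.add (sc 30) (sc 30) ⟨0, .var 2, .var 3⟩)))
    (e := e) (m := m1)
    (fun k m' => m' 0 = m 0 ∧ m' 31 0 0 = 0 ∧
      m' 30 0 0 = ∑ i ∈ range k, ∑ j ∈ range (e 0), |m 0 i j|)
    ⟨a0, a31, by simpa using a30⟩ ?_
  · exact ⟨key.2.2, key.2.1⟩
  · rintro i - m2 ⟨h0, h31, h30⟩
    have key2 := loop_inv (v := 3) (N := nn) (c := .cond ⟨0, .var 2, .var 3⟩ (sc 31)
      (.sub (sc 30) (sc 30) ⟨0, .var 2, .var 3⟩) (.add (sc 30) (sc 30) ⟨0, .var 2, .var 3⟩))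
      (e := Function.update e 2 i) (m := m2)
      (fun k m' => m' 0 = m 0 ∧ m' 31 0 0 = 0 ∧
        m' 30 0 0 = ∑ i ∈ range i, ∑ j ∈ range (e 0), |m 0 i j| + ∑ j ∈ range k, |m 0 i j|)
      ⟨h0, h31, by simpa using h30⟩ ?_
    · refine ⟨key2.1, key2.2.1, ?_⟩
      rw [key2.2.2, sum_range_succ]
      simp [nn, IE.eval, Function.update]
    · rintro j - m3 ⟨g0, g31, g30⟩
      have hev2 : (Function.update (Function.update e 2 i) 3 j) 2 = i := by simp [Function.update]
      have hev3 : (Function.update (Function.update e 2 i) 3 j) 3 = j := by simp [Function.update]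
      have hx : m3 0 i j = m 0 i j := by rw [g0]
      by_cases hc : m 0 i j ≤ 0
      · refine ⟨?_, ?_, ?_⟩
        · rw [frame _ _ _ _ (by simp [mods, sc]), g0]
        · rw [frame _ _ _ _ (by simp [mods, sc]), g31]
        · simp [run, wr, sc, rd, IE.eval, hev2, hx, g31, hc, g30, sum_range_succ]
          rw [abs_of_nonpos hc]; ring
      · refine ⟨?_, ?_, ?_⟩
        · rw [frame _ _ _ _ (by simp [mods, sc]), g0]
        · rw [frame _ _ _ _ (by simp [mods, sc]), g31]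
        · simp [run, wr, sc, rd, IE.eval, hev2, hx, g31, hc, g30, sum_range_succ]
          rw [abs_of_pos (not_le.mp hc)]; ring

theorem abs_mods : mods absCmd = [30, 31, 30, 30] := rfl

/-- `35 := ∑ R i j ^ 2` -/
def sqCmd : Cmd :=
  .seq (.zero (sc 35)) <| .loop 2 nn (.loop 3 nn
    (.seq (.mul (sc 27) ⟨32, .var 2, .var 3⟩ ⟨32, .var 2, .var 3⟩) (.add (sc 35) (sc 35) (sc 27))))

theorem run_sq (e : ℕ → ℕ) (m : Mem) :
    run sqCmd e m 35 0 0 = ∑ i ∈ range (e 0), ∑ j ∈ range (e 0), m 32 i j * m 32 i j := by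
  unfold sqCmd
  rw [run_seq]
  set m1 := run (.zero (sc 35)) e m with hm1
  have a30 : m1 35 0 0 = 0 := by simp [hm1, run, wr, sc, IE.eval]
  have a0 : m1 32 = m 32 := by rw [hm1]; exact frame _ _ _ _ (by simp [mods, sc])
  clear_value m1
  have key := loop_inv (v := 2) (N := nn) (c := .loop 3 nn
    (.seq (.mul (sc 27) ⟨32, .var 2, .var 3⟩ ⟨32, .var 2, .var 3⟩) (.add (sc 35) (sc 35) (sc 27))))
    (e := e) (m := m1)
    (fun k m' => m' 32 = m 32 ∧
      m' 35 0 0 = ∑ i ∈ range k, ∑ j ∈ range (e 0), m 32 i j * m 32 i j)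
    ⟨a0, by simpa using a30⟩ ?_
  · exact key.2
  · rintro i - m2 ⟨h0, h30⟩
    have key2 := loop_inv (v := 3) (N := nn)
      (c := .seq (.mul (sc 27) ⟨32, .var 2, .var 3⟩ ⟨32, .var 2, .var 3⟩)
        (.add (sc 35) (sc 35) (sc 27)))
      (e := Function.update e 2 i) (m := m2)
      (fun k m' => m' 32 = m 32 ∧
        m' 35 0 0 = ∑ i ∈ range i, ∑ j ∈ range (e 0), m 32 i j * m 32 i j +
          ∑ j ∈ range k, m 32 i j * m 32 i j)
      ⟨h0, by simpa using h30⟩ ?_
    · refine ⟨key2.1, ?_⟩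
      rw [key2.2, sum_range_succ]
      simp [nn, IE.eval, Function.update]
    · rintro j - m3 ⟨g0, g30⟩
      have hev2 : (Function.update (Function.update e 2 i) 3 j) 2 = i := by simp [Function.update]
      have hx : m3 32 i j = m 32 i j := by rw [g0]
      refine ⟨?_, ?_⟩
      · rw [frame _ _ _ _ (by simp [mods, sc]), g0]
      · simp [run, wr, sc, rd, IE.eval, hev2, hx, g30, sum_range_succ]
        ring

theorem sq_mods : mods sqCmd = [35, 27, 35] := rfl

end Pool.Agent.Q225.PK
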