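import Pool.Agent.Q225.PK.Core

set_option autoImplicit false

/-!
# Correctness of a round, termination
-/

namespace Pool.Agent.Q225.PK

open Finset Matrix

theorem env0 (n t : ℕ) : env n t 0 = n := rfl
theorem env1 (n t : ℕ) : env n t 1 = t := rfl

theorem ww_eval (n t : ℕ) : WW.eval (env n t) = 25 * t + 20 := rfl
theorem pp_eval (n t : ℕ) : PP.eval (env n t) = 12 * t + 8 := rfl

theorem round_mods : mods roundCmd = mods prepCmd ++ (mods stepCmd ++ ([3] ++ mods testCmd)) := by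
  simp [roundCmd, mods, it_mods, out_mods]

theorem keep (n L : ℕ) (m : Mem) (a : ℕ) (ha : a = 0 ∨ a = 1 ∨ a = 2) :
    run roundCmd (env n L) m a = m a := by
  refine frame _ _ _ _ ?_
  rw [round_mods, prep_mods, step_mods, test_mods, mulCmd_mods, digitBody_mods, gBody_mods, abs_mods]
  rcases ha with rfl | rfl | rfl <;> decide

section

variable (n L : ℕ) (m : Mem) (s : ℝ) (z : Fin n → ℝ)

theorem run_main (hs : s = ∑ i ∈ range n, ∑ j ∈ range n, |m 0 i j|) (hs0 : 0 < s)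
    (hn : (n : ℝ) ≤ 2 ^ L) (hz : GM n (m 0) s *ᵥ z = vecOf n (fun i => m 1 i 0)) :
    let mo := run outCmd (env n L) (run itCmd (env n L) (run prepCmd (env n L) m))
    mo 0 = m 0 ∧ mo 1 = m 1 ∧ mo 2 = m 2 ∧ mo 29 0 0 = 2 ^ (12 * L + 8) ∧
    (∀ i < n, ∀ j < n, mo 32 i j = (Rk (m 0) s n (12 * L + 8) L i j : ℤ)) ∧
    (∀ i < n, mo 3 i 0 = uk (m 0) (fun i => m 1 i 0) s n (12 * L + 8) L i / s) := by
  intro mo
  have hmo : mo = run outCmd (env n L) (run itCmd (env n L) (run prepCmd (env n L) m)) := rfl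
  clear_value mo
  have hp := run_prep (env n L) m s hs
    (by
      intro i hi j hj
      rw [env0] at hi hj
      rw [ww_eval, pp_eval]
      have h1 := abs_div_le n (m 0) s hs hs0 i j hi hj
      rw [abs_mul, abs_of_pos (show (0 : ℝ) < 2 ^ (12 * L + 8) by positivity)]
      have h2 : (2 : ℝ) ^ (12 * L + 8) * 2 ≤ 2 ^ (25 * L + 20) := by
        rw [← pow_succ]
        exact pow_le_pow_right₀ (by norm_num) (by omega)
      have h3 : (1 : ℝ) ≤ 2 ^ (12 * L + 8) := one_le_pow₀ (by norm_num)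
      nlinarith)
    (by
      intro i hi l hl
      rw [env0] at hi hl
      rw [env0, ww_eval, pp_eval]
      exact sum_bound n L _ _ hn
        (fun j hj => gt_bound n L (m 0) s hs hs0 j i hj hi)
        (fun j hj => gt_bound n L (m 0) s hs hs0 j l hj hl))
  rw [env0, pp_eval] at hp
  obtain ⟨p30, p29, p32, p33⟩ := hp
  have hi := run_it (env n L) (run prepCmd (env n L) m) (m 0) (fun i => m 1 i 0) s p29
    (by rw [env0, pp_eval]; exact p32) (by rw [env0, pp_eval]; exact p33)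
    (by
      rw [env0, env1, pp_eval, ww_eval]
      intro k hk i hi l hl
      exact sum_bound n L _ _ hn
        (fun j hj => rk_bound n L (m 0) (fun i => m 1 i 0) s z hs hs0 hn hz k hk.le i j hi hj)
        (fun j hj => rk_bound n L (m 0) (fun i => m 1 i 0) s z hs hs0 hn hz k hk.le j l hj hl))
  rw [env0, env1, pp_eval] at hi
  obtain ⟨q32, q33⟩ := hi
  have ho := run_out (env n L) (run itCmd (env n L) (run prepCmd (env n L) m))
  rw [env0] at ho
  have F : ∀ a, a ∉ mods outCmd → a ∉ mods itCmd → mo a = run prepCmd (env n L) m a := by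
    intro a h1 h2
    rw [hmo, frame _ _ _ _ h1, frame _ _ _ _ h2]
  have F0 : ∀ a, a = 0 ∨ a = 1 ∨ a = 2 → mo a = m a := by
    intro a ha
    rw [F a (by rcases ha with rfl | rfl | rfl <;> (rw [out_mods]; decide))
      (by rcases ha with rfl | rfl | rfl <;>
        (rw [it_mods, step_mods, mulCmd_mods, digitBody_mods]; decide)),
      frame _ _ _ _ (by
        rcases ha with rfl | rfl | rfl <;>
        (rw [prep_mods, mulCmd_mods, digitBody_mods, gBody_mods, abs_mods]; decide))]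
  refine ⟨F0 0 (by simp), F0 1 (by simp), F0 2 (by simp), ?_, ?_, ?_⟩
  · rw [F 29 (by rw [out_mods]; decide)
      (by rw [it_mods, step_mods, mulCmd_mods, digitBody_mods]; decide), p29]
  · intro i hi j hj
    rw [hmo, frame outCmd 32 _ _ (by rw [out_mods]; decide)]
    exact q32 i hi j hj
  · intro i hi
    rw [hmo, ho i hi, q33 i hi, frame itCmd 30 _ _ (by
      rw [it_mods, step_mods, mulCmd_mods, digitBody_mods]; decide), p30]

theorem sum2 (f : ℕ → ℕ → ℝ) :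
    ∑ i ∈ range n, ∑ j ∈ range n, f i j = ∑ i : Fin n, ∑ j : Fin n, f i j := by
  rw [← Fin.sum_univ_eq_sum_range (fun i => ∑ j ∈ range n, f i j) n]
  exact sum_congr rfl fun i _ => (Fin.sum_univ_eq_sum_range (fun j => f i j) n).symm

/-- The test in terms of norms. -/
theorem flag_iff (hs : s = ∑ i ∈ range n, ∑ j ∈ range n, |m 0 i j|) (hs0 : 0 < s)
    (hn : (n : ℝ) ≤ 2 ^ L) (hz : GM n (m 0) s *ᵥ z = vecOf n (fun i => m 1 i 0))
    (hε : 0 < m 2 0 0) :
    run roundCmd (env n L) m 4 0 0 =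
      (if 4 * √(∑ i : Fin n, ∑ j : Fin n, QM n (m 0) s (12 * L + 8) L i j ^ 2) ≤ m 2 0 0 ∧
        4 * (n : ℝ) ≤ 2 ^ L * m 2 0 0 ∧
        nrm (matOf n (m 0) *ᵥ outp n (run roundCmd (env n L) m) - vecOf n (fun i => m 1 i 0)) ≤
          m 2 0 0 * nrm (vecOf n (fun i => m 1 i 0)) then 1 else 0) ∧
    ∀ i : Fin n, outp n (run roundCmd (env n L) m) i =
      uk (m 0) (fun i => m 1 i 0) s n (12 * L + 8) L i / s := by
  obtain ⟨o0, o1, o2, o29, o32, o3⟩ := run_main n L m s z hs hs0 hn hz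
  set mo := run outCmd (env n L) (run itCmd (env n L) (run prepCmd (env n L) m)) with hmo
  have hrun : run roundCmd (env n L) m = run testCmd (env n L) mo := rfl
  have hout : ∀ i : Fin n, outp n (run roundCmd (env n L) m) i =
      uk (m 0) (fun i => m 1 i 0) s n (12 * L + 8) L i / s := by
    intro i
    rw [outp, hrun, frame _ _ _ _ (by rw [test_mods]; decide)]
    exact o3 i i.2
  refine ⟨?_, hout⟩
  rw [hrun, run_test, env0, env1, ← hrun, o0, o1, o2, o29]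
  have e3 : ∀ i, mo 3 i = run roundCmd (env n L) m 3 i := by
    intro i
    rw [hrun, frame _ _ _ _ (by rw [test_mods]; decide)]
  clear_value mo
  set ε := m 2 0 0
  set p : ℝ := 2 ^ (12 * L + 8) with hp
  have hp0 : 0 < p := by rw [hp]; positivity
  have c1 : ((2 : ℝ) ^ 4 * (∑ i ∈ range n, ∑ j ∈ range n, mo 32 i j * mo 32 i j) ≤
      (ε * p) * (ε * p)) ↔
      4 * √(∑ i : Fin n, ∑ j : Fin n, QM n (m 0) s (12 * L + 8) L i j ^ 2) ≤ ε := by
    have h1 : ∑ i ∈ range n, ∑ j ∈ range n, mo 32 i j * mo 32 i j =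
        p ^ 2 * ∑ i : Fin n, ∑ j : Fin n, QM n (m 0) s (12 * L + 8) L i j ^ 2 := by
      rw [sum2 n (fun i j => mo 32 i j * mo 32 i j), mul_sum]
      refine sum_congr rfl fun i _ => ?_
      rw [mul_sum]
      refine sum_congr rfl fun j _ => ?_
      rw [o32 i i.2 j j.2, QM, Matrix.of_apply, ← hp]
      field_simp
    rw [h1]
    set F := ∑ i : Fin n, ∑ j : Fin n, QM n (m 0) s (12 * L + 8) L i j ^ 2 with hF
    have hF0 : 0 ≤ F := sum_nonneg fun _ _ => sum_nonneg fun _ _ => sq_nonneg _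
    have hsq : √F ^ 2 = F := Real.sq_sqrt hF0
    have hsn : 0 ≤ √F := Real.sqrt_nonneg _
    constructor
    · intro h
      have h2 : (4 * √F) ^ 2 ≤ ε ^ 2 := by
        rw [mul_pow, hsq]
        have h3 : p ^ 2 * (16 * F) ≤ p ^ 2 * ε ^ 2 := by nlinarith
        have := le_of_mul_le_mul_left h3 (by positivity)
        linarith
      exact le_of_sq_le_sq h2 hε.le
    · intro h
      have h2 : (4 * √F) ^ 2 ≤ ε ^ 2 := pow_le_pow_left₀ (by positivity) h 2
      rw [mul_pow, hsq] at h2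
      have h3 : p ^ 2 * (16 * F) ≤ p ^ 2 * ε ^ 2 :=
        mul_le_mul_of_nonneg_left (by linarith) (by positivity)
      nlinarith
  have c2 : ((2 : ℝ) ^ 2 * (n : ℝ) ≤ 2 ^ L * ε) ↔ 4 * (n : ℝ) ≤ 2 ^ L * ε := by norm_num
  have c3 : ((∑ i ∈ range n, ((∑ j ∈ range n, m 0 i j * mo 3 j 0) - m 1 i 0) *
            ((∑ j ∈ range n, m 0 i j * mo 3 j 0) - m 1 i 0)) ≤
          (∑ i ∈ range n, m 1 i 0 * m 1 i 0) * ε * ε) ↔
      nrm (matOf n (m 0) *ᵥ outp n (run roundCmd (env n L) m) - vecOf n (fun i => m 1 i 0)) ≤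
          ε * nrm (vecOf n (fun i => m 1 i 0)) := by
    have h1 : (∑ i ∈ range n, ((∑ j ∈ range n, m 0 i j * mo 3 j 0) - m 1 i 0) *
            ((∑ j ∈ range n, m 0 i j * mo 3 j 0) - m 1 i 0)) =
        nrm (matOf n (m 0) *ᵥ outp n (run roundCmd (env n L) m) -
          vecOf n (fun i => m 1 i 0)) ^ 2 := by
      rw [nrm_sq, ← Fin.sum_univ_eq_sum_range (fun i => ((∑ j ∈ range n, m 0 i j * mo 3 j 0) -
        m 1 i 0) * ((∑ j ∈ range n, m 0 i j * mo 3 j 0) - m 1 i 0)) n]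
      refine sum_congr rfl fun i _ => ?_
      rw [Pi.sub_apply, sq]
      have : (matOf n (m 0) *ᵥ outp n (run roundCmd (env n L) m)) i =
          ∑ j ∈ range n, m 0 i j * mo 3 j 0 := by
        have h := mulVec_matOf n (m 0) (fun j => run roundCmd (env n L) m 3 j 0) i
        simp only [← e3] at h
        rw [← h]
        congr 1
        rw [show outp n (run roundCmd (env n L) m) = vecOf n (fun j => mo 3 j 0) by
          funext j; rw [outp, vecOf, e3]]
      rw [this]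
      rfl
    have h2 : ∑ i ∈ range n, m 1 i 0 * m 1 i 0 = nrm (vecOf n (fun i => m 1 i 0)) ^ 2 := by
      rw [nrm_sq, ← Fin.sum_univ_eq_sum_range (fun i => m 1 i 0 * m 1 i 0) n]
      exact sum_congr rfl fun i _ => (sq _).symm
    rw [h1, h2]
    set X := nrm (matOf n (m 0) *ᵥ outp n (run roundCmd (env n L) m) - vecOf n (fun i => m 1 i 0))
    set Y := nrm (vecOf n (fun i => m 1 i 0))
    have hX : 0 ≤ X := nrm_nonneg _
    have hY : 0 ≤ Y := nrm_nonneg _
    rw [show Y ^ 2 * ε * ε = (ε * Y) ^ 2 by ring]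
    exact pow_le_pow_iff_left₀ hX (mul_nonneg hε.le hY) (by norm_num)
  exact if_congr (and_congr c1 (and_congr c2 c3)) rfl rfl

theorem flag_imp (h : 0 < run roundCmd (env n L) m 4 0 0) : 4 * (n : ℝ) ≤ 2 ^ L * m 2 0 0 := by
  set mo := run outCmd (env n L) (run itCmd (env n L) (run prepCmd (env n L) m)) with hmo
  have hrun : run roundCmd (env n L) m = run testCmd (env n L) mo := rfl
  have o2 : mo 2 = m 2 := by
    rw [hmo, frame _ _ _ _ (by rw [out_mods]; decide),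
      frame _ _ _ _ (by rw [it_mods, step_mods, mulCmd_mods, digitBody_mods]; decide),
      frame _ _ _ _ (by rw [prep_mods, mulCmd_mods, digitBody_mods, gBody_mods, abs_mods]; decide)]
  rw [hrun, run_test, env0, env1] at h
  split_ifs at h with hc
  · have := hc.2.1
    rw [o2] at this
    linarith
  · exact absurd h (lt_irrefl _)

theorem mulVec_GM (a : ℕ → ℕ → ℝ) (v : Fin n → ℝ) (hs0 : 0 < s) :
    GM n a s *ᵥ v = s⁻¹ • (matOf n a *ᵥ v) := by
  funext i
  simp only [GM, matOf, mulVec, dotProduct, Matrix.of_apply, Pi.smul_apply, smul_eq_mul, mul_sum]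
  exact sum_congr rfl fun j _ => by field_simp

variable (x : Fin n → ℝ)

/-- If the test is passed, the output is correct. -/
theorem round_correct (hs : s = ∑ i ∈ range n, ∑ j ∈ range n, |m 0 i j|) (hs0 : 0 < s)
    (hn1 : 1 ≤ n) (hε : 0 < m 2 0 0) (hε1 : m 2 0 0 < 1)
    (hx : matOf n (m 0) *ᵥ x = vecOf n (fun i => m 1 i 0))
    (h : 0 < run roundCmd (env n L) m 4 0 0) :
    nrm (outp n (run roundCmd (env n L) m) - x) ≤ m 2 0 0 * nrm x ∧
    nrm (matOf n (m 0) *ᵥ outp n (run roundCmd (env n L) m) - vecOf n (fun i => m 1 i 0)) ≤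
      m 2 0 0 * nrm (vecOf n (fun i => m 1 i 0)) := by
  have h4 := flag_imp n L m h
  have hn : (n : ℝ) ≤ 2 ^ L := by
    have h5 : (0 : ℝ) < 2 ^ L := by positivity
    have h6 : (0 : ℝ) ≤ n := Nat.cast_nonneg _
    nlinarith
  have hz : GM n (m 0) s *ᵥ (s • x) = vecOf n (fun i => m 1 i 0) := by
    rw [mulVec_GM n s (m 0) _ hs0, mulVec_smul, hx, smul_smul, inv_mul_cancel₀ hs0.ne', one_smul]
  obtain ⟨hf, ho⟩ := flag_iff n L m s (s • x) hs hs0 hn hz hε
  rw [hf] at h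
  split_ifs at h with hc
  swap
  · exact absurd h (lt_irrefl _)
  obtain ⟨c1, c2, c3⟩ := hc
  refine ⟨?_, c3⟩
  set D := mkData n L (m 0) (fun i => m 1 i 0) s (s • x) hs hs0 hn hz with hD
  have hfin := D.final
  have e1 : D.U L - D.z = s • (outp n (run roundCmd (env n L) m) - x) := by
    funext i
    have : D.U L i = uk (m 0) (fun i => m 1 i 0) s n (12 * L + 8) L i := rfl
    rw [Pi.sub_apply, this, Pi.smul_apply, Pi.sub_apply, ho i]
    have : D.z i = s * x i := rfl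
    rw [this, smul_eq_mul]
    field_simp
  have e2 : D.z = s • x := rfl
  have e3 : √(∑ i, ∑ j, D.Q L i j ^ 2) =
      √(∑ i : Fin n, ∑ j : Fin n, QM n (m 0) s (12 * L + 8) L i j ^ 2) := rfl
  rw [e1, e2, nrm_smul, nrm_smul, abs_of_pos hs0, e3] at hfin
  have h7 : ((1 : ℝ) / 2) ^ (7 * L + 6) ≤ m 2 0 0 / 4 := by
    have h8 : ((1 : ℝ) / 2) ^ (7 * L + 6) ≤ (1 / 2) ^ L :=
      pow_le_pow_of_le_one (by norm_num) (by norm_num) (by omega)
    have h9 : (1 : ℝ) ≤ n := by exact_mod_cast hn1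
    have h10 : ((1 : ℝ) / 2) ^ L * 2 ^ L = 1 := by rw [← mul_pow]; norm_num
    have h11 : (0 : ℝ) < (1 / 2) ^ L := by positivity
    have h12 : 4 * (1 / 2 : ℝ) ^ L ≤ m 2 0 0 := by
      calc 4 * (1 / 2 : ℝ) ^ L ≤ (1 / 2) ^ L * (2 ^ L * m 2 0 0) := by nlinarith
        _ = m 2 0 0 := by rw [← mul_assoc, h10, one_mul]
    linarith
  have hx0 := nrm_nonneg x
  have h8 : s * nrm (outp n (run roundCmd (env n L) m) - x) ≤ s * (m 2 0 0 * nrm x) := by
    calc s * nrm (outp n (run roundCmd (env n L) m) - x) ≤ _ := hfin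
      _ ≤ (m 2 0 0) * (s * nrm x) := by
        refine mul_le_mul_of_nonneg_right ?_ (by positivity)
        linarith
      _ = _ := by ring
  exact le_of_mul_le_mul_left h8 hs0

/-- The test is passed if the round number is large. -/
theorem round_stops (hs : s = ∑ i ∈ range n, ∑ j ∈ range n, |m 0 i j|) (hs0 : 0 < s)
    (hn1 : 1 ≤ n) (hε : 0 < m 2 0 0) (hε1 : m 2 0 0 < 1)
    (hx : matOf n (m 0) *ᵥ x = vecOf n (fun i => m 1 i 0))
    (τ : ℝ) (hτ : 0 < τ) (hτ1 : τ ≤ 1)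
    (hτ' : ∀ v, τ * s * nrm v ≤ nrm (matOf n (m 0) *ᵥ v))
    (hL : 64 * (n : ℝ) ≤ 2 ^ L * (m 2 0 0 * τ ^ 3)) :
    0 < run roundCmd (env n L) m 4 0 0 := by
  have h2L : (0 : ℝ) < 2 ^ L := by positivity
  have hn0 : (1 : ℝ) ≤ n := by exact_mod_cast hn1
  have hτ3 : τ ^ 3 ≤ 1 := pow_le_one₀ hτ.le hτ1
  have hτ30 : 0 < τ ^ 3 := by positivity
  set ε := m 2 0 0 with hεdef
  have hετ : ε * τ ^ 3 ≤ 1 := by nlinarith
  have hn : (n : ℝ) ≤ 2 ^ L := by
    have : (2 : ℝ) ^ L * (ε * τ ^ 3) ≤ 2 ^ L * 1 := mul_le_mul_of_nonneg_left hετ h2L.le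
    linarith
  have hz : GM n (m 0) s *ᵥ (s • x) = vecOf n (fun i => m 1 i 0) := by
    rw [mulVec_GM n s (m 0) _ hs0, mulVec_smul, hx, smul_smul, inv_mul_cancel₀ hs0.ne', one_smul]
  obtain ⟨hf, ho⟩ := flag_iff n L m s (s • x) hs hs0 hn hz hε
  rw [hf]
  set D := mkData n L (m 0) (fun i => m 1 i 0) s (s • x) hs hs0 hn hz with hD
  have hGτ : ∀ v, τ * nrm v ≤ nrm (D.G *ᵥ v) := by
    intro v
    have e : D.G *ᵥ v = s⁻¹ • (matOf n (m 0) *ᵥ v) := mulVec_GM n s (m 0) v hs0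
    rw [e, nrm_smul, abs_of_pos (inv_pos.mpr hs0), ← div_eq_inv_mul, le_div_iff₀ hs0]
    have := hτ' v
    linarith
  have hF := D.frobQ τ hτ.le hτ1 hGτ
  have hfin := D.final
  have h4 := D.η_le L le_rfl
  have h44 : (4 : ℝ) ^ L * D.η ≤ 16 ^ L * D.η := by
    have := D.η_pos
    gcongr; norm_num
  -- the exponential
  have hy : 32 * (n : ℝ) ≤ (τ ^ 2 * 2 ^ L / 2) * (ε * τ) := by
    have : (τ ^ 2 * 2 ^ L / 2) * (ε * τ) = (2 ^ L * (ε * τ ^ 3)) / 2 := by ring
    rw [this]; linarith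
  have hετ0 : 0 < ε * τ := by positivity
  have hexp : n * Real.exp (-(τ ^ 2 * 2 ^ L / 2)) ≤ ε * τ / 32 := by
    set y := τ ^ 2 * 2 ^ L / 2 with hydef
    have hy0 : 0 < y := by positivity
    have h5 : y ≤ Real.exp y := by have := Real.add_one_le_exp y; linarith
    rw [Real.exp_neg, ← div_eq_mul_inv, div_le_iff₀ (Real.exp_pos y)]
    have h6 : ε * τ / 32 * y ≤ ε * τ / 32 * Real.exp y :=
      mul_le_mul_of_nonneg_left h5 (by positivity)
    nlinarith
  have hpow : (n : ℝ) * ((1 / 2) ^ (7 * L + 7)) ≤ ε * τ / 128 := by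
    have e1 : ((1 : ℝ) / 2) ^ (7 * L + 7) = (1 / 2) ^ (6 * L) * ((1 / 2) ^ L * (1 / 128)) := by
      rw [show 7 * L + 7 = 6 * L + (L + 7) by ring, pow_add, pow_add (1 / 2 : ℝ) L]
      norm_num
    have e2 : ((1 : ℝ) / 2) ^ L * 2 ^ L = 1 := by rw [← mul_pow]; norm_num
    have e3 : ((1 : ℝ) / 2) ^ (6 * L) ≤ 1 := pow_le_one₀ (by norm_num) (by norm_num)
    have e4 : (0 : ℝ) < (1 / 2) ^ L := by positivity
    have e5 : (n : ℝ) * (1 / 2) ^ L ≤ ε * τ := by
      have h9 : ε * τ ^ 3 ≤ ε * τ := by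
        have : τ ^ 3 ≤ τ := by nlinarith [sq_nonneg τ, mul_le_one₀ hτ1 hτ.le hτ1]
        exact mul_le_mul_of_nonneg_left this hε.le
      calc (n : ℝ) * (1 / 2) ^ L ≤ (2 ^ L * (ε * τ ^ 3)) * (1 / 2) ^ L := by
            refine mul_le_mul_of_nonneg_right ?_ e4.le
            linarith
        _ = ε * τ ^ 3 := by rw [show (2 : ℝ) ^ L * (ε * τ ^ 3) * (1 / 2) ^ L =
            (ε * τ ^ 3) * ((1 / 2) ^ L * 2 ^ L) by ring, e2, mul_one]
        _ ≤ ε * τ := h9
    calc (n : ℝ) * ((1 / 2) ^ (7 * L + 7)) = (1 / 2) ^ (6 * L) * (n * (1 / 2) ^ L) / 128 := by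
          rw [e1]; ring
      _ ≤ 1 * (n * (1 / 2) ^ L) / 128 := by
          have : 0 ≤ (n : ℝ) * (1 / 2) ^ L := by positivity
          gcongr
      _ ≤ ε * τ / 128 := by rw [one_mul]; linarith
  have hF2 : √(∑ i, ∑ j, D.Q L i j ^ 2) ≤ ε * τ / 16 := by
    refine hF.trans ?_
    rw [mul_add]
    have h7 : (n : ℝ) * (4 ^ L * D.η) ≤ n * (1 / 2) ^ (7 * L + 7) :=
      mul_le_mul_of_nonneg_left (h44.trans h4) (by positivity)
    linarith
  have hετε : ε * τ ≤ ε := by nlinarith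
  have hsm : ((1 : ℝ) / 2) ^ (7 * L + 6) ≤ ε * τ / 64 := by
    have e1 : ((1 : ℝ) / 2) ^ (7 * L + 6) = 2 * (1 / 2) ^ (7 * L + 7) := by
      rw [show 7 * L + 7 = (7 * L + 6) + 1 by ring, pow_succ]; ring
    have e2 : (0 : ℝ) < (1 / 2) ^ (7 * L + 7) := by positivity
    rw [e1]
    nlinarith
  have hc1 : 4 * √(∑ i : Fin n, ∑ j : Fin n, QM n (m 0) s (12 * L + 8) L i j ^ 2) ≤ ε := by
    have e3 : √(∑ i, ∑ j, D.Q L i j ^ 2) =
      √(∑ i : Fin n, ∑ j : Fin n, QM n (m 0) s (12 * L + 8) L i j ^ 2) := rfl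
    rw [← e3]
    linarith
  have hc2 : 4 * (n : ℝ) ≤ 2 ^ L * ε := by
    have : (2 : ℝ) ^ L * (ε * τ ^ 3) ≤ 2 ^ L * ε := by
      refine mul_le_mul_of_nonneg_left ?_ h2L.le
      nlinarith
    linarith
  have hc3 : nrm (matOf n (m 0) *ᵥ outp n (run roundCmd (env n L) m) -
      vecOf n (fun i => m 1 i 0)) ≤ ε * nrm (vecOf n (fun i => m 1 i 0)) := by
    have e1 : matOf n (m 0) *ᵥ outp n (run roundCmd (env n L) m) - vecOf n (fun i => m 1 i 0) =
        D.G *ᵥ (D.U L - D.z) := by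
      have g1 : D.G *ᵥ (D.U L - D.z) = s⁻¹ • (matOf n (m 0) *ᵥ (D.U L - D.z)) :=
        mulVec_GM n s (m 0) _ hs0
      have g2 : D.U L - D.z = s • (outp n (run roundCmd (env n L) m) - x) := by
        funext i
        have : D.U L i = uk (m 0) (fun i => m 1 i 0) s n (12 * L + 8) L i := rfl
        rw [Pi.sub_apply, this, Pi.smul_apply, Pi.sub_apply, ho i]
        have : D.z i = s * x i := rfl
        rw [this, smul_eq_mul]
        field_simp
      rw [g1, g2, mulVec_smul, smul_smul, inv_mul_cancel₀ hs0.ne', one_smul, mulVec_sub, hx]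
    rw [e1]
    have e2 := D.opG (D.U L - D.z)
    have e3 : τ * nrm D.z ≤ nrm (vecOf n (fun i => m 1 i 0)) := by
      have := hGτ D.z
      rw [D.hz] at this
      exact this
    have hz0 := nrm_nonneg D.z
    calc nrm (D.G *ᵥ (D.U L - D.z)) ≤ nrm (D.U L - D.z) := by linarith
      _ ≤ (√(∑ i, ∑ j, D.Q L i j ^ 2) + (1 / 2) ^ (7 * L + 6)) * nrm D.z := hfin
      _ ≤ (ε * τ) * nrm D.z := mul_le_mul_of_nonneg_right (by linarith) hz0
      _ = ε * (τ * nrm D.z) := by ring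
      _ ≤ ε * nrm (vecOf n (fun i => m 1 i 0)) := mul_le_mul_of_nonneg_left e3 hε.le
  rw [if_pos ⟨hc1, hc2, hc3⟩]
  exact one_pos

end

end Pool.Agent.Q225.PK
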