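import Pool.Agent.Q225.PK.Disc

set_option autoImplicit false

/-!
# Gaussian matrices: the smallest singular value
-/

namespace Pool.Agent.Q225.PK

open MeasureTheory ProbabilityTheory Set Matrix

/-- A set is small if its sections in the direction of one coordinate are small. -/
theorem pi_le_of_sections {l : ℕ} {X : Type} [MeasurableSpace X] (ν : Measure X)
    [IsProbabilityMeasure ν] (S : Set (Fin (l + 1) → X)) (hS : MeasurableSet S) (i : Fin (l + 1))
    (c : ENNReal) (h : ∀ y : Fin l → X, ν {x | i.insertNth x y ∈ S} ≤ c) :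
    Measure.pi (fun _ => ν) S ≤ c := by
  have e := (measurePreserving_piFinSuccAbove (fun _ : Fin (l + 1) => ν) i).symm
  rw [← e.measure_preimage hS.nullMeasurableSet, Measure.prod_apply_symm (e.measurable hS)]
  calc _ ≤ ∫⁻ _y : Fin l → X, c ∂(Measure.pi fun _ => ν) := lintegral_mono fun y => h y
    _ = c := by simp

/-- The density is at most `1 / 2`. -/
theorem pdf_le (x : ℝ) : gaussianPDFReal 0 1 x ≤ 1 / 2 := by
  rw [gaussianPDFReal]
  have h1 : (2 : ℝ) ≤ √(2 * Real.pi * ((1 : NNReal) : ℝ)) := by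
    rw [Real.le_sqrt' (by norm_num)]
    have := Real.pi_gt_three
    simp only [NNReal.coe_one, mul_one]
    linarith
  have h2 : (√(2 * Real.pi * ((1 : NNReal) : ℝ)))⁻¹ ≤ 1 / 2 := by
    rw [one_div]
    exact inv_anti₀ (by norm_num) h1
  have h3 : Real.exp (-(x - 0) ^ 2 / (2 * ((1 : NNReal) : ℝ))) ≤ 1 := by
    rw [Real.exp_le_one_iff]
    have := sq_nonneg (x - 0)
    simp only [NNReal.coe_one, mul_one]
    linarith
  calc _ ≤ (1 / 2 : ℝ) * 1 := mul_le_mul h2 h3 (Real.exp_pos _).le (by norm_num)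
    _ = 1 / 2 := by norm_num

theorem gauss_interval (u c r : ℝ) (hu : u ≠ 0) (hr : 0 ≤ r) :
    gaussianReal 0 1 {x | |x * u + c| ≤ r} ≤ ENNReal.ofReal (r / |u|) := by
  have hu0 : 0 < |u| := abs_pos.mpr hu
  have hsub : {x : ℝ | |x * u + c| ≤ r} ⊆ Icc (-c / u - r / |u|) (-c / u + r / |u|) := by
    intro x hx
    rw [Set.mem_ofPred_eq] at hx
    have h1 : x - -c / u = (x * u + c) / u := by field_simp; ring
    have h2 : |x - -c / u| ≤ r / |u| := by
      rw [h1, abs_div]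
      exact div_le_div_of_nonneg_right hx hu0.le
    have h3 := abs_le.mp h2
    constructor <;> linarith [h3.1, h3.2]
  calc gaussianReal 0 1 {x | |x * u + c| ≤ r}
      ≤ gaussianReal 0 1 (Icc (-c / u - r / |u|) (-c / u + r / |u|)) := measure_mono hsub
    _ = ∫⁻ x in Icc (-c / u - r / |u|) (-c / u + r / |u|), gaussianPDF 0 1 x :=
        gaussianReal_apply 0 (by norm_num) _
    _ ≤ ∫⁻ _x in Icc (-c / u - r / |u|) (-c / u + r / |u|), ENNReal.ofReal (1 / 2) :=
        lintegral_mono fun x => ENNReal.ofReal_le_ofReal (pdf_le x)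
    _ = ENNReal.ofReal (1 / 2) * ENNReal.ofReal (2 * (r / |u|)) := by
        rw [lintegral_const, Measure.restrict_apply MeasurableSet.univ, univ_inter,
          Real.volume_Icc]
        congr 2
        ring
    _ = ENNReal.ofReal (r / |u|) := by
        rw [← ENNReal.ofReal_mul (by norm_num)]
        congr 1
        ring

/-- The law of a vector with independent standard normal coordinates. -/
noncomputable def gvec (n : ℕ) : Measure (Fin n → ℝ) := Measure.pi fun _ => gaussianReal 0 1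

instance (n : ℕ) : IsProbabilityMeasure (gvec n) := by unfold gvec; infer_instance

/-- The law of a matrix with independent standard normal entries. -/
noncomputable def gmat (n : ℕ) : Measure (Fin n → Fin n → ℝ) := Measure.pi fun _ => gvec n

instance (n : ℕ) : IsProbabilityMeasure (gmat n) := by unfold gmat; infer_instance

theorem gvec_ball {l : ℕ} (u : Fin (l + 1) → ℝ) (hu : nrm u = 1) (r : ℝ) (hr : 0 ≤ r) :
    gvec (l + 1) {x | |∑ k, x k * u k| ≤ r} ≤ ENNReal.ofReal (r * (l + 1 : ℕ)) := by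
  obtain ⟨k, hk⟩ := exists_coord (by omega) u hu
  have hn0 : (0 : ℝ) < ((l + 1 : ℕ) : ℝ) := by positivity
  have huk : 0 < |u k| := lt_of_lt_of_le (by positivity) hk
  have hcont : Continuous fun x : Fin (l + 1) → ℝ => |∑ k, x k * u k| := by fun_prop
  refine pi_le_of_sections _ _ (isClosed_le hcont continuous_const).measurableSet k _ fun y => ?_
  have e : {x : ℝ | (k.insertNth x y : Fin (l + 1) → ℝ) ∈
      {x : Fin (l + 1) → ℝ | |∑ k, x k * u k| ≤ r}} =
      {x : ℝ | |x * u k + ∑ j, y j * u (k.succAbove j)| ≤ r} := by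
    ext x
    rw [Set.mem_ofPred_eq, Set.mem_ofPred_eq, Set.mem_ofPred_eq, Fin.sum_univ_succAbove _ k]
    simp
  rw [e]
  refine (gauss_interval (u k) _ r (abs_pos.mp huk) hr).trans (ENNReal.ofReal_le_ofReal ?_)
  rw [div_le_iff₀ huk]
  have : 1 ≤ ((l + 1 : ℕ) : ℝ) * |u k| := by
    rw [div_le_iff₀ hn0] at hk
    linarith
  nlinarith

theorem nrm_cont {n : ℕ} : Continuous (nrm : (Fin n → ℝ) → ℝ) := by
  unfold nrm
  fun_prop

theorem compact_sphere {n : ℕ} : IsCompact {w : Fin n → ℝ | nrm w = 1} := by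
  have hcl : IsClosed {w : Fin n → ℝ | nrm w = 1} := isClosed_eq nrm_cont continuous_const
  refine (isCompact_closedBall (0 : Fin n → ℝ) 1).of_isClosed_subset hcl fun w hw => ?_
  rw [mem_closedBall_zero_iff, pi_norm_le_iff_of_nonneg zero_le_one]
  intro i
  rw [Set.mem_ofPred_eq] at hw
  rw [Real.norm_eq_abs, ← hw]
  exact abs_le_nrm w i

/-- The transposed matrix maps a unit vector with large `i`-th coordinate to a short vector. -/
def BadG (n : ℕ) (s : ℝ) (i : Fin n) : Set (Fin n → Fin n → ℝ) :=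
  {M | ∃ w : Fin n → ℝ, nrm w = 1 ∧ 1 / (n : ℝ) ≤ |w i| ∧ nrm ((Matrix.of M)ᵀ *ᵥ w) ≤ s}

theorem badG_closed (n : ℕ) (s : ℝ) (i : Fin n) : IsClosed (BadG n s i) := by
  have hK : CompactSpace {w : Fin n → ℝ | nrm w = 1} := isCompact_iff_compactSpace.mp compact_sphere
  have e : BadG n s i = Prod.snd '' {q : {w : Fin n → ℝ | nrm w = 1} × (Fin n → Fin n → ℝ) |
      1 / (n : ℝ) ≤ |q.1.1 i| ∧ nrm ((Matrix.of q.2)ᵀ *ᵥ q.1.1) ≤ s} := by
    ext M
    constructor
    · rintro ⟨w, hw, h1, h2⟩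
      exact ⟨(⟨w, hw⟩, M), ⟨h1, h2⟩, rfl⟩
    · rintro ⟨⟨w, M'⟩, ⟨h1, h2⟩, rfl⟩
      exact ⟨w.1, w.2, h1, h2⟩
  rw [e]
  apply isClosedMap_snd_of_compactSpace
  have c1 : Continuous fun q : {w : Fin n → ℝ | nrm w = 1} × (Fin n → Fin n → ℝ) =>
      |q.1.1 i| :=
    continuous_abs.comp ((continuous_apply i).comp (continuous_subtype_val.comp continuous_fst))
  have c2 : Continuous fun q : {w : Fin n → ℝ | nrm w = 1} × (Fin n → Fin n → ℝ) =>
      nrm ((Matrix.of q.2)ᵀ *ᵥ q.1.1) := by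
    refine nrm_cont.comp ?_
    refine continuous_pi fun j => ?_
    simp only [mulVec, dotProduct, Matrix.transpose_apply, Matrix.of_apply]
    refine continuous_finsetSum _ fun k _ => ?_
    have d1 : Continuous fun q : {w : Fin n → ℝ | nrm w = 1} × (Fin n → Fin n → ℝ) => q.2 k j := by
      fun_prop
    have d2 : Continuous fun q : {w : Fin n → ℝ | nrm w = 1} × (Fin n → Fin n → ℝ) => q.1.1 k :=
      (continuous_apply k).comp (continuous_subtype_val.comp continuous_fst)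
    exact d1.mul d2
  exact (isClosed_le continuous_const c1).inter (isClosed_le c2 continuous_const)

theorem badG_measure {l : ℕ} (s : ℝ) (hs : 0 ≤ s) (i : Fin (l + 1)) :
    gmat (l + 1) (BadG (l + 1) s i) ≤ ENNReal.ofReal (s * (l + 1 : ℕ) * (l + 1 : ℕ)) := by
  have hn0 : (0 : ℝ) < ((l + 1 : ℕ) : ℝ) := by positivity
  refine pi_le_of_sections _ _ (badG_closed _ _ _).measurableSet i _ fun y => ?_
  set N := del (Matrix.of (i.insertNth 0 y : Fin (l + 1) → Fin (l + 1) → ℝ)) i with hN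
  have hdel : ∀ x : Fin (l + 1) → ℝ,
      del (Matrix.of (i.insertNth x y : Fin (l + 1) → Fin (l + 1) → ℝ)) i = N := by
    intro x
    ext j k
    simp only [hN, del, Matrix.of_apply]
    split_ifs with h
    · rfl
    · obtain ⟨j', rfl⟩ := Fin.exists_succAbove_eq h
      simp
  have hu := nv_spec (Matrix.of (i.insertNth 0 y : Fin (l + 1) → Fin (l + 1) → ℝ)) i
  rw [← hN] at hu
  set u := nv N with huN
  refine le_trans (measure_mono ?_) (gvec_ball u hu.1 (s * (l + 1 : ℕ)) (by positivity))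
  intro x hx
  obtain ⟨w, hw, hwi, hA⟩ := hx
  rw [Set.mem_ofPred_eq]
  set M : Fin (l + 1) → Fin (l + 1) → ℝ := i.insertNth x y with hM
  have hMi : M i = x := by rw [hM]; simp
  have hu2 : ∀ j ≠ i, ∑ k, M j k * u k = 0 := by
    intro j hj
    have h := (nv_spec (Matrix.of M) i).2 j hj
    rw [hM, hdel x] at h
    exact h
  have e1 : u ⬝ᵥ ((Matrix.of M)ᵀ *ᵥ w) = w i * ∑ k, M i k * u k := by
    have e2 : u ⬝ᵥ ((Matrix.of M)ᵀ *ᵥ w) = (Matrix.of M *ᵥ u) ⬝ᵥ w := by
      rw [mulVec_transpose, dotProduct_comm, ← dotProduct_mulVec, dotProduct_comm]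
    rw [e2, dotProduct, Finset.sum_eq_single i]
    · simp only [mulVec, dotProduct, Matrix.of_apply]; ring
    · intro j _ hj
      have : (Matrix.of M *ᵥ u) j = 0 := hu2 j hj
      rw [this, zero_mul]
    · intro hh; exact absurd (Finset.mem_univ _) hh
  have e3 : |u ⬝ᵥ ((Matrix.of M)ᵀ *ᵥ w)| ≤ nrm u * nrm ((Matrix.of M)ᵀ *ᵥ w) := by
    rw [← Real.sqrt_sq (mul_nonneg (nrm_nonneg u) (nrm_nonneg ((Matrix.of M)ᵀ *ᵥ w))),
      ← Real.sqrt_sq_eq_abs, mul_pow, nrm_sq, nrm_sq]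
    exact Real.sqrt_le_sqrt (Finset.sum_mul_sq_le_sq_mul_sq Finset.univ _ _)
  rw [e1, hu.1, one_mul, abs_mul, hMi] at e3
  have h5 : |w i| * |∑ k, x k * u k| ≤ s := e3.trans hA
  have h6 : 1 ≤ ((l + 1 : ℕ) : ℝ) * |w i| := by
    rw [div_le_iff₀ hn0] at hwi
    linarith
  calc |∑ k, x k * u k| ≤ (((l + 1 : ℕ) : ℝ) * |w i|) * |∑ k, x k * u k| := by
        nlinarith [abs_nonneg (∑ k, x k * u k)]
    _ = ((l + 1 : ℕ) : ℝ) * (|w i| * |∑ k, x k * u k|) := by ring
    _ ≤ ((l + 1 : ℕ) : ℝ) * s := mul_le_mul_of_nonneg_left h5 hn0.le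
    _ = s * ((l + 1 : ℕ) : ℝ) := by ring

theorem gauss_tail (t : ℝ) (ht : 0 < t) :
    gaussianReal 0 1 {x | t ≤ |x|} ≤ ENNReal.ofReal (1 / t ^ 2) := by
  have h := meas_ge_le_variance_div_sq (memLp_id_gaussianReal' (μ := 0) (v := 1) 2 (by norm_num)) ht
  have e1 : ∫ x, id x ∂(gaussianReal 0 1) = 0 := integral_id_gaussianReal
  rw [e1, variance_id_gaussianReal] at h
  simpa using h

theorem gmat_tail {l : ℕ} (t : ℝ) (ht : 0 < t) (i j : Fin (l + 1)) :
    gmat (l + 1) {M | t ≤ |M i j|} ≤ ENNReal.ofReal (1 / t ^ 2) := by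
  have c1 : Continuous fun M : Fin (l + 1) → Fin (l + 1) → ℝ => |M i j| := by fun_prop
  refine pi_le_of_sections _ _ (isClosed_le continuous_const c1).measurableSet i _ fun y => ?_
  have e : {x : Fin (l + 1) → ℝ | (i.insertNth x y : Fin (l + 1) → Fin (l + 1) → ℝ) ∈
      {M : Fin (l + 1) → Fin (l + 1) → ℝ | t ≤ |M i j|}} = {x | t ≤ |x j|} := by
    ext x
    rw [Set.mem_ofPred_eq, Set.mem_ofPred_eq, Set.mem_ofPred_eq]
    simp
  rw [e]
  have c2 : Continuous fun x : Fin (l + 1) → ℝ => |x j| := by fun_prop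
  refine pi_le_of_sections _ _ (isClosed_le continuous_const c2).measurableSet j _ fun z => ?_
  have e2 : {x : ℝ | (j.insertNth x z : Fin (l + 1) → ℝ) ∈
      {x : Fin (l + 1) → ℝ | t ≤ |x j|}} = {x | t ≤ |x|} := by
    ext x
    rw [Set.mem_ofPred_eq, Set.mem_ofPred_eq, Set.mem_ofPred_eq]
    simp
  rw [e2]
  exact gauss_tail t ht

end Pool.Agent.Q225.PK
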