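import Mathlib

set_option autoImplicit false

/-!
# The Littlewood–Offord inequality for real coefficients and two-valued random variables
-/

namespace Pool.Agent.Q225.PK

open Finset

/-- The two values. -/
def val (α β : ℝ) (x : Bool) : ℝ := if x then β else α

theorem central_sq (k : ℕ) : (Nat.centralBinom k) ^ 2 * (2 * k + 1) ≤ 16 ^ k := by
  induction k with
  | zero => simp
  | succ k ih =>
    have h := Nat.succ_mul_centralBinom_succ k
    have h2 : ((k + 1) * Nat.centralBinom (k + 1)) ^ 2 * (2 * k + 3) ≤
        (k + 1) ^ 2 * 16 ^ (k + 1) := by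
      rw [h]
      calc (2 * (2 * k + 1) * Nat.centralBinom k) ^ 2 * (2 * k + 3)
          = (Nat.centralBinom k ^ 2 * (2 * k + 1)) * (4 * (2 * k + 1) * (2 * k + 3)) := by ring
        _ ≤ 16 ^ k * (4 * (2 * k + 1) * (2 * k + 3)) := Nat.mul_le_mul_right _ ih
        _ ≤ 16 ^ k * (16 * (k + 1) ^ 2) := Nat.mul_le_mul_left _ (by nlinarith)
        _ = (k + 1) ^ 2 * 16 ^ (k + 1) := by ring
    have h3 : (k + 1) ^ 2 * (Nat.centralBinom (k + 1) ^ 2 * (2 * (k + 1) + 1)) ≤
        (k + 1) ^ 2 * 16 ^ (k + 1) := by
      calc (k + 1) ^ 2 * (Nat.centralBinom (k + 1) ^ 2 * (2 * (k + 1) + 1))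
          = ((k + 1) * Nat.centralBinom (k + 1)) ^ 2 * (2 * k + 3) := by ring
        _ ≤ _ := h2
    exact Nat.le_of_mul_le_mul_left h3 (by positivity)

theorem choose_half_sq (n : ℕ) : (n.choose (n / 2)) ^ 2 * n ≤ 4 ^ n := by
  rcases Nat.even_or_odd' n with ⟨k, rfl | rfl⟩
  · have h := central_sq k
    rw [Nat.centralBinom_eq_two_mul_choose] at h
    rw [Nat.mul_div_cancel_left k (by norm_num), pow_mul]
    calc (2 * k).choose k ^ 2 * (2 * k) ≤ (2 * k).choose k ^ 2 * (2 * k + 1) :=
          Nat.mul_le_mul_left _ (by omega)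
      _ ≤ 16 ^ k := h
      _ = (4 ^ 2) ^ k := by norm_num
  · have h := central_sq (k + 1)
    have h1 : (2 * k + 1) / 2 = k := by omega
    have h2 : Nat.centralBinom (k + 1) = 2 * (2 * k + 1).choose k := by
      rw [Nat.centralBinom_eq_two_mul_choose, show 2 * (k + 1) = (2 * k + 1) + 1 by ring,
        Nat.choose_succ_succ, show (2 * k + 1).choose (k + 1) = (2 * k + 1).choose k by
          rw [Nat.choose_symm_half]]
      ring
    rw [h2] at h
    rw [h1]
    have h4 : 4 * ((2 * k + 1).choose k ^ 2 * (2 * k + 1)) ≤ 4 * 4 ^ (2 * k + 1) := by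
      calc 4 * ((2 * k + 1).choose k ^ 2 * (2 * k + 1))
          ≤ (2 * (2 * k + 1).choose k) ^ 2 * (2 * (k + 1) + 1) := by
            rw [show (2 * (2 * k + 1).choose k) ^ 2 * (2 * (k + 1) + 1) =
              4 * ((2 * k + 1).choose k ^ 2 * (2 * k + 3)) by ring]
            exact Nat.mul_le_mul_left _ (Nat.mul_le_mul_left _ (by omega))
        _ ≤ 16 ^ (k + 1) := h
        _ = 4 * 4 ^ (2 * k + 1) := by
          rw [show (16 : ℕ) = 4 ^ 2 by norm_num, ← pow_mul, show 2 * (k + 1) = (2 * k + 1) + 1 by
            ring, pow_succ]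
          ring
    exact Nat.le_of_mul_le_mul_left h4 (by norm_num)

/-- All coefficients are at least `t`, the interval has length `2 r < t (β - α)`. -/
theorem lo_all {ι : Type} [Fintype ι] [DecidableEq ι] (a : ι → ℝ) (α β t r c : ℝ)
    (ht : 0 < t) (hd : 1 ≤ β - α) (ha : ∀ k, t ≤ |a k|) (hr : 2 * r < t) :
    (univ.filter fun x : ι → Bool => |∑ k, val α β (x k) * a k - c| ≤ r).card ≤
      (Fintype.card ι).choose (Fintype.card ι / 2) := by
  classical
  let A : (ι → Bool) → Finset ι := fun x => univ.filter fun k => x k = decide (0 < a k)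
  have hA : Function.Injective A := by
    intro x y h
    funext k
    have h1 : k ∈ A x ↔ k ∈ A y := by rw [h]
    simp only [A, mem_filter, mem_univ, true_and] at h1
    cases hx : x k <;> cases hy : y k <;> cases hd : decide (0 < a k) <;> simp_all
  -- the sum in terms of the set
  have hterm : ∀ x k, val α β (x k) * a k =
      (if k ∈ A x then (β - α) * |a k| else 0) + (if 0 < a k then α * a k else β * a k) := by
    intro x k
    simp only [A, mem_filter, mem_univ, true_and]
    rcases lt_or_ge 0 (a k) with h | h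
    · have h1 : decide (0 < a k) = true := by simpa using h
      rw [h1, abs_of_pos h, if_pos h]
      cases hx : x k
      · simp [val]
      · simp [val]; ring
    · have h1 : decide (0 < a k) = false := by simpa using h
      rw [h1, abs_of_nonpos h, if_neg (not_lt.mpr h)]
      cases hx : x k
      · simp [val]; ring
      · simp [val]
  have hmono : ∀ x y, A x ⊆ A y → A x ≠ A y →
      ∑ k, val α β (x k) * a k + t ≤ ∑ k, val α β (y k) * a k := by
    intro x y hxy hne
    obtain ⟨k, hk1, hk2⟩ := exists_of_ssubset (hxy.ssubset_of_ne hne)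
    have h1 : ∑ k, (if k ∈ A x then (β - α) * |a k| else 0) + t ≤
        ∑ k, (if k ∈ A y then (β - α) * |a k| else 0) := by
      rw [← add_sum_erase univ _ (mem_univ k), ← add_sum_erase univ (fun k =>
        if k ∈ A y then (β - α) * |a k| else 0) (mem_univ k)]
      rw [if_neg hk2, if_pos hk1]
      have h2 : ∑ l ∈ univ.erase k, (if l ∈ A x then (β - α) * |a l| else 0) ≤
          ∑ l ∈ univ.erase k, (if l ∈ A y then (β - α) * |a l| else 0) := by
        refine sum_le_sum fun l _ => ?_
        have h0 : 0 ≤ (β - α) * |a l| := mul_nonneg (by linarith) (abs_nonneg _)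
        by_cases h1 : l ∈ A x
        · rw [if_pos h1, if_pos (hxy h1)]
        · rw [if_neg h1]
          split_ifs
          · exact h0
          · exact le_rfl
      have h3 : t ≤ (β - α) * |a k| := by nlinarith [ha k, abs_nonneg (a k)]
      linarith
    have e1 := sum_congr rfl (fun k (_ : k ∈ (univ : Finset ι)) => hterm x k)
    have e2 := sum_congr rfl (fun k (_ : k ∈ (univ : Finset ι)) => hterm y k)
    rw [e1, e2, sum_add_distrib, sum_add_distrib]
    linarith
  set S := univ.filter fun x : ι → Bool => |∑ k, val α β (x k) * a k - c| ≤ r with hS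
  have hanti : IsAntichain (· ⊆ ·) (SetLike.coe (S.image A)) := by
    intro s hs t' ht' hst hsub
    rw [SetLike.mem_coe, mem_image] at hs ht'
    obtain ⟨x, hx, rfl⟩ := hs
    obtain ⟨y, hy, rfl⟩ := ht'
    have h1 := hmono x y hsub hst
    rw [hS, mem_filter] at hx hy
    have hx2 := abs_le.mp hx.2
    have hy2 := abs_le.mp hy.2
    linarith [hx2.1, hx2.2, hy2.1, hy2.2]
  have h2 := hanti.sperner
  rw [card_image_of_injective S hA] at h2
  exact h2

/-- At least `m` coefficients are at least `t`. -/
theorem lo {ι : Type} [Fintype ι] [DecidableEq ι] (a : ι → ℝ) (α β t r : ℝ)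
    (ht : 0 < t) (hd : 1 ≤ β - α) (hr : 2 * r < t) :
    ((univ.filter fun x : ι → Bool => |∑ k, val α β (x k) * a k| ≤ r).card : ℝ) *
      √((univ.filter fun k => t ≤ |a k|).card : ℝ) ≤ 2 ^ Fintype.card ι := by
  classical
  let e := Equiv.piEquivPiSubtypeProd (fun k => t ≤ |a k|) (fun _ : ι => Bool)
  set s := Fintype.card {k // t ≤ |a k|} with hs
  have h5 : (univ.filter fun k => t ≤ |a k|).card = s := (Fintype.card_subtype _).symm
  have h1 : (univ.filter fun x : ι → Bool => |∑ k, val α β (x k) * a k| ≤ r).card ≤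
      2 ^ Fintype.card {k // ¬ t ≤ |a k|} * s.choose (s / 2) := by
    have hmaps : ∀ x ∈ (univ.filter fun x : ι → Bool => |∑ k, val α β (x k) * a k| ≤ r),
        (e x).2 ∈ (univ : Finset ({k // ¬ t ≤ |a k|} → Bool)) := fun _ _ => mem_univ _
    rw [card_eq_sum_card_fiberwise hmaps]
    calc ∑ y ∈ (univ : Finset ({k // ¬ t ≤ |a k|} → Bool)),
          ((univ.filter fun x : ι → Bool => |∑ k, val α β (x k) * a k| ≤ r).filter
            fun x => (e x).2 = y).card
        ≤ ∑ _y ∈ (univ : Finset ({k // ¬ t ≤ |a k|} → Bool)), s.choose (s / 2) := by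
          refine sum_le_sum fun y _ => ?_
          refine le_trans ?_ (lo_all (fun k : {k // t ≤ |a k|} => a k) α β t r
            (-(∑ k : {k // ¬ t ≤ |a k|}, val α β (y k) * a k)) ht hd (fun k => k.2) hr)
          refine card_le_card_of_injOn (fun x => (e x).1) ?_ ?_
          · intro x hx
            simp only [coe_filter, mem_filter, mem_univ, true_and, Set.mem_ofPred_eq] at hx ⊢
            have h2 : ∑ k, val α β (x k) * a k =
                ∑ k : {k // t ≤ |a k|}, val α β ((e x).1 k) * a k +
                ∑ k : {k // ¬ t ≤ |a k|}, val α β (y k) * a k := by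
              rw [← Fintype.sum_subtype_add_sum_subtype (fun k => t ≤ |a k|)
                (fun k => val α β (x k) * a k), ← hx.2]
              rfl
            rw [sub_neg_eq_add, ← h2]
            exact hx.1
          · intro x hx x' hx' hxx
            simp only [coe_filter, mem_filter, mem_univ, true_and, Set.mem_ofPred_eq] at hx hx'
            exact e.injective (Prod.ext hxx (hx.2.trans hx'.2.symm))
      _ = _ := by simp
  have h6 : Fintype.card ι = s + Fintype.card {k // ¬ t ≤ |a k|} := by
    rw [hs]
    have := Fintype.card_subtype_compl (fun k => t ≤ |a k|)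
    have h7 := Fintype.card_subtype_le (fun k => t ≤ |a k|)
    omega
  have h8 : ((s.choose (s / 2) : ℕ) : ℝ) * √(s : ℝ) ≤ 2 ^ s := by
    have h9 : (((s.choose (s / 2)) ^ 2 * s : ℕ) : ℝ) ≤ ((4 ^ s : ℕ) : ℝ) :=
      Nat.cast_le.2 (choose_half_sq s)
    push_cast at h9
    refine abs_le_of_sq_le_sq' ?_ (by positivity) |>.2
    rw [mul_pow, Real.sq_sqrt (by positivity), ← pow_mul, mul_comm s 2, pow_mul]
    norm_num
    exact h9
  rw [h5, h6, pow_add]
  have h10 : ((univ.filter fun x : ι → Bool => |∑ k, val α β (x k) * a k| ≤ r).card : ℝ) ≤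
      2 ^ Fintype.card {k // ¬ t ≤ |a k|} * ((s.choose (s / 2) : ℕ) : ℝ) := by
    exact_mod_cast h1
  calc _ ≤ (2 ^ Fintype.card {k // ¬ t ≤ |a k|} * ((s.choose (s / 2) : ℕ) : ℝ)) * √(s : ℝ) := by
        gcongr
    _ = (((s.choose (s / 2) : ℕ) : ℝ) * √(s : ℝ)) * 2 ^ Fintype.card {k // ¬ t ≤ |a k|} := by ring
    _ ≤ _ := by gcongr

/-- One coefficient is larger than `2 r`. -/
theorem half {ι : Type} [Fintype ι] [DecidableEq ι] (a : ι → ℝ) (α β r : ℝ)
    (hd : 1 ≤ β - α) (i : ι) (hi : 2 * r < |a i|) :
    2 * (univ.filter fun x : ι → Bool => |∑ k, val α β (x k) * a k| ≤ r).card ≤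
      2 ^ Fintype.card ι := by
  classical
  set S := univ.filter fun x : ι → Bool => |∑ k, val α β (x k) * a k| ≤ r with hS
  let φ : (ι → Bool) → (ι → Bool) := fun x => Function.update x i (!(x i))
  have hφ : Function.Injective φ := by
    intro x y h
    have hi' : x i = y i := by
      have := congrFun h i
      simp only [φ, Function.update_self] at this
      simpa using this
    funext k
    by_cases hk : k = i
    · rw [hk, hi']
    · have := congrFun h k
      simp only [φ, Function.update_of_ne hk] at this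
      exact this
  have hdisj : Disjoint S (S.image φ) := by
    rw [disjoint_left]
    intro x hx hx'
    rw [mem_image] at hx'
    obtain ⟨y, hy, rfl⟩ := hx'
    rw [hS, mem_filter] at hx hy
    have h1 : ∑ k, val α β (φ y k) * a k - ∑ k, val α β (y k) * a k =
        (val α β (!(y i)) - val α β (y i)) * a i := by
      rw [← sum_sub_distrib, sum_eq_single i]
      · simp only [φ, Function.update_self]; ring
      · intro k _ hk
        simp only [φ, Function.update_of_ne hk]; ring
      · intro h; exact absurd (mem_univ i) h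
    have h2 : |(val α β (!(y i)) - val α β (y i)) * a i| ≤ 2 * r := by
      rw [← h1]
      refine (abs_sub _ _).trans ?_
      linarith [hx.2, hy.2]
    rw [abs_mul] at h2
    have h3 : 1 ≤ |val α β (!(y i)) - val α β (y i)| := by
      cases y i
      · simp only [val, Bool.not_false, if_true, Bool.false_eq_true, if_false]
        exact hd.trans (le_abs_self _)
      · simp only [val, Bool.not_true, if_true, Bool.false_eq_true, if_false]
        rw [abs_sub_comm]
        exact hd.trans (le_abs_self _)
    nlinarith [abs_nonneg (a i)]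
  have h4 : (S ∪ S.image φ).card ≤ (univ : Finset (ι → Bool)).card := card_le_univ _
  rw [card_union_of_disjoint hdisj, card_image_of_injective S hφ, card_univ, Fintype.card_fun,
    Fintype.card_bool] at h4
  omega

end Pool.Agent.Q225.PK
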