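import Pool.Agent.Q225.PK.Rand

set_option autoImplicit false

/-!
# The law of a matrix with independent two-valued entries
-/

namespace Pool.Agent.Q225.PK

open MeasureTheory ProbabilityTheory Set Matrix Filter Topology

/-- A fair coin. -/
noncomputable def coin : Measure Bool :=
  (1 / 2 : ENNReal) • Measure.dirac false + (1 / 2 : ENNReal) • Measure.dirac true

theorem coin_singleton (x : Bool) : coin {x} = 1 / 2 := by
  cases x <;> simp [coin]

instance : IsProbabilityMeasure coin := ⟨by
  simp only [coin, Measure.coe_add, Measure.coe_smul, Pi.add_apply, Pi.smul_apply,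
    measure_univ, smul_eq_mul, mul_one]
  exact ENNReal.add_halves 1⟩

theorem coin_map (α β : ℝ) : coin.map (val α β) =
    (1 / 2 : ENNReal) • Measure.dirac α + (1 / 2 : ENNReal) • Measure.dirac β := by
  have hm : Measurable (val α β) := measurable_of_finite _
  rw [coin, Measure.map_add _ _ hm, Measure.map_smul, Measure.map_smul, Measure.map_dirac' hm,
    Measure.map_dirac' hm]
  rfl

theorem coins_apply (n : ℕ) (S : Set (Fin n → Fin n → Bool)) :
    (Measure.pi fun _ : Fin n => Measure.pi fun _ : Fin n => coin) S =
      ENNReal.ofReal ((Set.ncard S : ℝ) / 2 ^ (n * n)) := by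
  classical
  have h1 : ∀ M : Fin n → Fin n → Bool,
      (Measure.pi fun _ : Fin n => Measure.pi fun _ : Fin n => coin) {M} =
        ENNReal.ofReal (1 / 2 ^ (n * n)) := by
    intro M
    rw [Measure.pi_singleton]
    simp only [Measure.pi_singleton, coin_singleton, Finset.prod_const, Finset.card_univ,
      Fintype.card_fin]
    rw [← pow_mul, ENNReal.ofReal_div_of_pos (by positivity), ENNReal.ofReal_one,
      ENNReal.ofReal_pow (by norm_num), one_div, one_div, ENNReal.inv_pow]
    norm_num
  have h2 : S = ((Set.toFinite S).toFinset : Set (Fin n → Fin n → Bool)) :=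
    (Set.Finite.coe_toFinset _).symm
  rw [Set.ncard_eq_toFinset_card S (Set.toFinite S)]
  have h3 : (Measure.pi fun _ : Fin n => Measure.pi fun _ : Fin n => coin) S =
      (Measure.pi fun _ : Fin n => Measure.pi fun _ : Fin n => coin)
        ((Set.toFinite S).toFinset : Set (Fin n → Fin n → Bool)) := congrArg _ h2
  rw [h3, ← sum_measure_singleton]
  simp only [h1]
  rw [Finset.sum_const, nsmul_eq_mul, ← ENNReal.ofReal_natCast,
    ← ENNReal.ofReal_mul (Nat.cast_nonneg _), mul_one_div]

/-- The probability is the fraction of the matrices. -/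
theorem two_valued (α β : ℝ) (n : ℕ) (S : Set (Matrix (Fin n) (Fin n) ℝ))
    (hS : MeasurableSet {M : Fin n → Fin n → ℝ | Matrix.of M ∈ S}) :
    (Measure.pi fun _ : Fin n => Measure.pi fun _ : Fin n =>
      ((1 / 2 : ENNReal) • Measure.dirac α + (1 / 2 : ENNReal) • Measure.dirac β))
        {M | Matrix.of M ∈ S} = ENNReal.ofReal (frac α β n S) := by
  have hm : Measurable (val α β) := measurable_of_finite _
  have : IsProbabilityMeasure (coin.map (val α β)) := Measure.isProbabilityMeasure_map hm.aemeasurable
  have h1 : (Measure.pi fun _ : Fin n => coin.map (val α β)) =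
      (Measure.pi fun _ : Fin n => coin).map (fun x i => val α β (x i)) :=
    (Measure.pi_map_pi (fun _ => hm.aemeasurable)).symm
  have hm2 : Measurable (fun (x : Fin n → Bool) (i : Fin n) => val α β (x i)) :=
    measurable_of_finite _
  have : IsProbabilityMeasure ((Measure.pi fun _ : Fin n => coin).map
      (fun x i => val α β (x i))) := Measure.isProbabilityMeasure_map hm2.aemeasurable
  have h2 : (Measure.pi fun _ : Fin n => (Measure.pi fun _ : Fin n => coin).map
      (fun x i => val α β (x i))) = (Measure.pi fun _ : Fin n => Measure.pi fun _ : Fin n =>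
        coin).map (fun M i j => val α β (M i j)) :=
    (Measure.pi_map_pi (fun _ => hm2.aemeasurable)).symm
  have hm3 : Measurable (fun (M : Fin n → Fin n → Bool) (i j : Fin n) => val α β (M i j)) :=
    measurable_of_finite _
  rw [← coin_map, h1, h2, Measure.map_apply hm3 hS, coins_apply]
  rfl

end Pool.Agent.Q225.PK
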