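import Pool.Agent.Q225.PK.Rnd

set_option autoImplicit false

/-!
# Loops which fill arrays, inner products
-/

namespace Pool.Agent.Q225.PK

/-- The command may write into the cell `(i, j)` of array `a`. -/
def wrs : Cmd → (ℕ → ℕ) → ℕ → ℕ → ℕ → Prop
  | .skip, _, _, _, _ => False
  | .zero d, e, a, i, j => a = d.a ∧ i = d.i.eval e ∧ j = d.j.eval e
  | .one d, e, a, i, j => a = d.a ∧ i = d.i.eval e ∧ j = d.j.eval e
  | .copy d _, e, a, i, j => a = d.a ∧ i = d.i.eval e ∧ j = d.j.eval e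
  | .add d _ _, e, a, i, j => a = d.a ∧ i = d.i.eval e ∧ j = d.j.eval e
  | .sub d _ _, e, a, i, j => a = d.a ∧ i = d.i.eval e ∧ j = d.j.eval e
  | .mul d _ _, e, a, i, j => a = d.a ∧ i = d.i.eval e ∧ j = d.j.eval e
  | .div d _ _, e, a, i, j => a = d.a ∧ i = d.i.eval e ∧ j = d.j.eval e
  | .seq c₁ c₂, e, a, i, j => wrs c₁ e a i j ∨ wrs c₂ e a i j
  | .cond _ _ c₁ c₂, e, a, i, j => wrs c₁ e a i j ∨ wrs c₂ e a i j
  | .loop v N c, e, a, i, j => ∃ k < N.eval e, wrs c (Function.update e v k) a i j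

theorem frame2 (c : Cmd) (a i j : ℕ) :
    ∀ (e : ℕ → ℕ) (m : Mem), ¬ wrs c e a i j → run c e m a i j = m a i j := by
  induction c with
  | skip => intro e m _; rfl
  | zero d => intro e m h; simp only [wrs] at h; simp only [run, wr, if_neg h]
  | one d => intro e m h; simp only [wrs] at h; simp only [run, wr, if_neg h]
  | copy d x => intro e m h; simp only [wrs] at h; simp only [run, wr, if_neg h]
  | add d x y => intro e m h; simp only [wrs] at h; simp only [run, wr, if_neg h]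
  | sub d x y => intro e m h; simp only [wrs] at h; simp only [run, wr, if_neg h]
  | mul d x y => intro e m h; simp only [wrs] at h; simp only [run, wr, if_neg h]
  | div d x y => intro e m h; simp only [wrs] at h; simp only [run, wr, if_neg h]
  | seq c₁ c₂ h₁ h₂ =>
    intro e m h
    simp only [wrs, not_or] at h
    simp only [run]
    rw [h₂ _ _ h.2, h₁ _ _ h.1]
  | cond x y c₁ c₂ h₁ h₂ =>
    intro e m h
    simp only [wrs, not_or] at h
    simp only [run]
    split_ifs
    · exact h₁ _ _ h.1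
    · exact h₂ _ _ h.2
  | loop v N c hc =>
    intro e m h
    simp only [wrs, not_exists, not_and] at h
    exact loop_inv (fun _ m' => m' a i j = m a i j) rfl fun k hk m' hm' => by
      rw [hc _ _ (h k hk), hm']

/-- A loop whose round `i` computes row `i` of array `a`. -/
theorem loop_rows {v : ℕ} {N : IE} {c : Cmd} {e : ℕ → ℕ} {m : Mem} (a : ℕ) (S : List ℕ)
    (Q : ℕ → (ℕ → ℝ) → Prop) (hS : ∀ b ∈ S, b ∉ mods c)
    (hw : ∀ i < N.eval e, ∀ k < N.eval e, i ≠ k → ∀ j,
      ¬ wrs c (Function.update e v k) a i j)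
    (hb : ∀ i < N.eval e, ∀ m', (∀ b ∈ S, m' b = m b) →
      Q i (run c (Function.update e v i) m' a i)) :
    ∀ i < N.eval e, Q i (run (.loop v N c) e m a i) := by
  have key := loop_inv (v := v) (N := N) (c := c) (e := e) (m := m)
    (fun i m' => (∀ b ∈ S, m' b = m b) ∧ (i ≤ N.eval e → ∀ k < i, Q k (m' a k)))
    ⟨fun _ _ => rfl, by simp⟩ ?_
  · exact key.2 le_rfl
  · rintro i hi m' ⟨h1, h2⟩
    refine ⟨fun b hb' => by rw [frame _ _ _ _ (hS b hb'), h1 b hb'], fun hle k hk => ?_⟩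
    rcases Nat.lt_succ_iff_lt_or_eq.mp hk with h | h
    · have : run c (Function.update e v i) m' a k = m' a k := by
        funext j
        exact frame2 _ _ _ _ _ _ (hw k (by omega) i hi (by omega) j)
      rw [this]
      exact h2 (by omega) k h
    · subst h
      exact hb k hi m' h1

/-- Inner product: `d := ∑_{v3 < n} x * y`. -/
def dotCmd (n : IE) (d x y : Loc) : Cmd :=
  .seq (.zero d) (.loop 3 n (.seq (.mul (sc 27) x y) (.add d d (sc 27))))

theorem run_dot (n : IE) (d x y : Loc) (e : ℕ → ℕ) (m : Mem)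
    (hd : d.a ≠ 27) (hx : x.a ≠ 27) (hy : y.a ≠ 27) (hxd : x.a ≠ d.a) (hyd : y.a ≠ d.a)
    (hdi : ∀ k, d.i.eval (Function.update e 3 k) = d.i.eval e)
    (hdj : ∀ k, d.j.eval (Function.update e 3 k) = d.j.eval e) :
    run (dotCmd n d x y) e m d.a (d.i.eval e) (d.j.eval e) =
      ∑ l ∈ Finset.range (n.eval e), rd (Function.update e 3 l) m x *
        rd (Function.update e 3 l) m y := by
  unfold dotCmd
  rw [run_seq]
  set m1 := run (.zero d) e m with hm1
  have hx1 : m1 x.a = m x.a := by rw [hm1]; exact frame _ _ _ _ (by simpa [mods] using hxd)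
  have hy1 : m1 y.a = m y.a := by rw [hm1]; exact frame _ _ _ _ (by simpa [mods] using hyd)
  have hd1 : m1 d.a (d.i.eval e) (d.j.eval e) = 0 := by simp [hm1, run, wr]
  clear_value m1
  refine (loop_inv (v := 3) (N := n) (e := e) (m := m1)
    (fun k m' => m' x.a = m x.a ∧ m' y.a = m y.a ∧
      m' d.a (d.i.eval e) (d.j.eval e) = ∑ l ∈ Finset.range k,
        rd (Function.update e 3 l) m x * rd (Function.update e 3 l) m y)
    ⟨hx1, hy1, by simpa using hd1⟩ ?_).2.2
  rintro k - m' ⟨h1, h2, h3⟩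
  refine ⟨?_, ?_, ?_⟩
  · rw [frame _ _ _ _ (by simp [mods, sc, hx, hxd]), h1]
  · rw [frame _ _ _ _ (by simp [mods, sc, hy, hyd]), h2]
  · rw [Finset.sum_range_succ, ← h3]
    simp only [run, wr, sc, rd, IE.eval, and_self, if_true, hdi, hdj, hd, false_and, if_false]
    rw [h1, h2]

theorem dot_mods (n : IE) (d x y : Loc) : mods (dotCmd n d x y) = [d.a, 27, d.a] := by
  simp [dotCmd, mods, sc]

theorem dot_wrs (n : IE) (d x y : Loc) (e : ℕ → ℕ) (a i j : ℕ) (ha : a ≠ 27)
    (hdi : ∀ k, d.i.eval (Function.update e 3 k) = d.i.eval e)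
    (hdj : ∀ k, d.j.eval (Function.update e 3 k) = d.j.eval e)
    (h : wrs (dotCmd n d x y) e a i j) :
    a = d.a ∧ i = d.i.eval e ∧ j = d.j.eval e := by
  simp only [dotCmd, wrs, sc, hdi, hdj, ha, false_and, false_or] at h
  rcases h with h | ⟨k, -, h⟩
  · exact h
  · exact h

theorem dot_ub (n : IE) (d x y : Loc) (e : ℕ → ℕ) :
    ub (dotCmd n d x y) e ≤ 3 * n.eval e + 2 := by
  have h := ub_loop_le 3 n (.seq (.mul (sc 27) x y) (.add d d (sc 27))) e 2
    (by intro i _; simp [ub])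
  simp only [dotCmd, ub] at *
  omega

end Pool.Agent.Q225.PK
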