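import Pool.Agent.Q225.PK.Cost

set_option autoImplicit false

/-!
# The algorithm
-/

namespace Pool.Agent.Q225.PK

open Finset Matrix

section

variable {n : ℕ} (A : Matrix (Fin n) (Fin n) ℝ) (b : Fin n → ℝ) (ε : ℝ)

theorem input0 : matOf n (input A b ε 0) = A := by
  funext i j
  simp [matOf, input]

theorem input1 : vecOf n (fun i => input A b ε 1 i 0) = b := by
  funext i
  simp [vecOf, input]

theorem input2 : input A b ε 2 0 0 = ε := by simp [input]

theorem input4 : input A b ε 4 0 0 = 0 := by simp [input]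

theorem after_keep (m : Mem) (a : ℕ) (ha : a = 0 ∨ a = 1 ∨ a = 2) (t : ℕ) :
    after roundCmd n m t a = m a := by
  induction t with
  | zero => rfl
  | succ t ih => rw [after, keep n t _ a ha, ih]

theorem time_le (m : Mem) (t : ℕ) :
    time roundCmd n m t ≤ 1601 * ((n + 1) * (n + 1) * (t * t * t)) := by
  unfold time
  calc ∑ i ∈ range t, (1 + cost roundCmd (env n i) (after roundCmd n m i))
      ≤ ∑ _i ∈ range t, 1601 * ((n + 1) * (n + 1) * (t * t)) := by
        refine sum_le_sum fun i hi => ?_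
        have hi' : i + 1 ≤ t := mem_range.mp hi
        have h1 := (cost_le roundCmd (env n i) (after roundCmd n m i)).trans
          (ub_round (env0 n i) (env1 n i))
        have h2 : (i + 1) * (i + 1) ≤ t * t := Nat.mul_le_mul hi' hi'
        have h3 : (n + 1) * (n + 1) * ((i + 1) * (i + 1)) ≤ (n + 1) * (n + 1) * (t * t) :=
          Nat.mul_le_mul_left _ h2
        have h4 : 1 ≤ (n + 1) * (n + 1) * (t * t) := by
          have : 1 ≤ (n + 1) * (n + 1) * ((i + 1) * (i + 1)) :=
            Nat.one_le_iff_ne_zero.mpr (by positivity)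
          omega
        omega
    _ = _ := by simp; ring

/-- The sum of the absolute values of the entries. -/
noncomputable def absSum : ℝ := ∑ i, ∑ j, |A i j|

theorem op_absSum (hs0 : 0 < absSum A) : OpB A (absSum A) := by
  have h := (OpB.frob A)
  refine h.mono ?_
  rw [← Real.sqrt_sq hs0.le]
  refine Real.sqrt_le_sqrt ?_
  calc ∑ i, ∑ j, A i j ^ 2 ≤ ∑ i, ∑ j, |A i j| * absSum A := by
        refine sum_le_sum fun i _ => sum_le_sum fun j _ => ?_
        rw [← sq_abs, sq]
        refine mul_le_mul_of_nonneg_left ?_ (abs_nonneg _)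
        unfold absSum
        calc |A i j| ≤ ∑ j, |A i j| :=
              single_le_sum (f := fun j => |A i j|) (fun _ _ => abs_nonneg _) (mem_univ j)
          _ ≤ _ := single_le_sum (f := fun i => ∑ j, |A i j|)
              (fun _ _ => sum_nonneg fun _ _ => abs_nonneg _) (mem_univ i)
    _ = absSum A ^ 2 := by
        rw [sq]
        conv_rhs => rw [absSum]
        rw [sum_mul]
        exact sum_congr rfl fun i _ => by rw [sum_mul]; rfl

theorem absSum_pos (hn : 1 ≤ n) (hA : A.det ≠ 0) : 0 < absSum A := by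
  have h0 : 0 ≤ absSum A := sum_nonneg fun _ _ => sum_nonneg fun _ _ => abs_nonneg _
  rcases h0.lt_or_eq with h | h
  · exact h
  · exfalso
    apply hA
    have h1 : A = 0 := by
      funext i j
      have h2 := (sum_eq_zero_iff_of_nonneg (fun i _ => sum_nonneg fun _ _ => abs_nonneg _)).mp
        h.symm i (mem_univ i)
      have h3 := (sum_eq_zero_iff_of_nonneg (fun _ _ => abs_nonneg _)).mp h2 j (mem_univ j)
      exact abs_eq_zero.mp h3
    have : Nonempty (Fin n) := ⟨⟨0, hn⟩⟩
    rw [h1]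
    exact Matrix.det_zero

/-- A lower bound for the increase of norms by an invertible matrix. -/
theorem exists_sigma (hA : A.det ≠ 0) : ∃ σ > 0, ∀ v, σ * nrm v ≤ nrm (A *ᵥ v) := by
  have hu : IsUnit A.det := isUnit_iff_ne_zero.mpr hA
  set c := √(∑ i, ∑ j, A⁻¹ i j ^ 2) + 1 with hc
  have hc0 : 0 < c := by have := Real.sqrt_nonneg (∑ i, ∑ j, A⁻¹ i j ^ 2); positivity
  refine ⟨c⁻¹, inv_pos.mpr hc0, fun v => ?_⟩
  have h1 := (OpB.frob A⁻¹).mono (show √(∑ i, ∑ j, A⁻¹ i j ^ 2) ≤ c by linarith) (A *ᵥ v)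
  rw [mulVec_mulVec, Matrix.nonsing_inv_mul A hu, one_mulVec] at h1
  rw [inv_mul_le_iff₀ hc0]
  exact h1

theorem rounds (hn : 1 ≤ n) (hA : A.det ≠ 0) (hε : 0 < ε) (hε1 : ε < 1) (σ : ℝ) (hσ : 0 < σ)
    (hσ' : ∀ v, σ * nrm v ≤ nrm (A *ᵥ v)) (L : ℕ)
    (hL : 64 * (n : ℝ) ≤ 2 ^ L * (ε * (σ / absSum A) ^ 3)) :
    0 < after roundCmd n (input A b ε) (L + 1) 4 0 0 := by
  have hs0 := absSum_pos A hn hA
  set m := after roundCmd n (input A b ε) L with hm
  have m0 : m 0 = input A b ε 0 := after_keep _ _ (by simp) _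
  have m1 : m 1 = input A b ε 1 := after_keep _ _ (by simp) _
  have m2 : m 2 = input A b ε 2 := after_keep _ _ (by simp) _
  have hm0 : matOf n (m 0) = A := by rw [m0, input0]
  have hm1 : vecOf n (fun i => m 1 i 0) = b := by rw [m1, input1]
  have hm2 : m 2 0 0 = ε := by rw [m2, input2]
  have hs : absSum A = ∑ i ∈ range n, ∑ j ∈ range n, |m 0 i j| := by
    rw [sum2 n (fun i j => |m 0 i j|), absSum]
    refine sum_congr rfl fun i _ => sum_congr rfl fun j _ => ?_
    have := congrFun (congrFun hm0 i) j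
    rw [← this]; rfl
  have hu : IsUnit A.det := isUnit_iff_ne_zero.mpr hA
  have hle : σ ≤ absSum A := by
    have h1 := hσ' (Pi.single ⟨0, hn⟩ 1)
    have h2 := op_absSum A hs0 (Pi.single ⟨0, hn⟩ 1)
    have h3 : 0 < nrm (Pi.single (⟨0, hn⟩ : Fin n) (1 : ℝ) : Fin n → ℝ) :=
      nrm_pos (by simp)
    exact le_of_mul_le_mul_right (h1.trans h2) h3
  refine round_stops n L m (absSum A) (A⁻¹ *ᵥ b) hs hs0 hn (by rw [hm2]; exact hε)
    (by rw [hm2]; exact hε1) (by rw [hm0, hm1, mulVec_mulVec, Matrix.mul_nonsing_inv A hu,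
      one_mulVec]) (σ / absSum A) (by positivity) ((div_le_one hs0).mpr hle) ?_ ?_
  · intro v
    rw [hm0, div_mul_cancel₀ _ hs0.ne']
    exact hσ' v
  · rw [hm2]; exact hL

theorem correct (hn : 1 ≤ n) (hA : A.det ≠ 0) (hε : 0 < ε) (hε1 : ε < 1) (t : ℕ)
    (h : EndsAt roundCmd n (input A b ε) t) :
    nrm (outp n (after roundCmd n (input A b ε) t) - A⁻¹ *ᵥ b) ≤ ε * nrm (A⁻¹ *ᵥ b) ∧
    nrm (A *ᵥ outp n (after roundCmd n (input A b ε) t) - b) ≤ ε * nrm b := by
  have hs0 := absSum_pos A hn hA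
  cases t with
  | zero => exact absurd h.1 (by rw [after, input4]; exact lt_irrefl _)
  | succ L =>
    set m := after roundCmd n (input A b ε) L with hm
    have m0 : m 0 = input A b ε 0 := after_keep _ _ (by simp) _
    have m1 : m 1 = input A b ε 1 := after_keep _ _ (by simp) _
    have m2 : m 2 = input A b ε 2 := after_keep _ _ (by simp) _
    have hm0 : matOf n (m 0) = A := by rw [m0, input0]
    have hm1 : vecOf n (fun i => m 1 i 0) = b := by rw [m1, input1]
    have hm2 : m 2 0 0 = ε := by rw [m2, input2]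
    have hs : absSum A = ∑ i ∈ range n, ∑ j ∈ range n, |m 0 i j| := by
      rw [sum2 n (fun i j => |m 0 i j|), absSum]
      refine sum_congr rfl fun i _ => sum_congr rfl fun j _ => ?_
      have := congrFun (congrFun hm0 i) j
      rw [← this]; rfl
    have hu : IsUnit A.det := isUnit_iff_ne_zero.mpr hA
    have := round_correct n L m (absSum A) (A⁻¹ *ᵥ b) hs hs0 hn (by rw [hm2]; exact hε)
      (by rw [hm2]; exact hε1) (by rw [hm0, hm1, mulVec_mulVec, Matrix.mul_nonsing_inv A hu,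
        one_mulVec]) h.1
    rw [hm0, hm1, hm2] at this
    exact this

/-- The algorithm ends, and the number of steps is bounded. -/
theorem ends (hn : 1 ≤ n) (hA : A.det ≠ 0) (hε : 0 < ε) (hε1 : ε < 1) :
    ∃ t, EndsAt roundCmd n (input A b ε) t ∧
      ∀ σ > 0, (∀ v, σ * nrm v ≤ nrm (A *ᵥ v)) →
        (time roundCmd n (input A b ε) t : ℝ) ≤
          6404 * (n : ℝ) ^ 2 * (8 * (1 + Real.log n + Real.log (1 / ε) +
            Real.log (absSum A / σ))) ^ 3 := by
  classical
  have hs0 := absSum_pos A hn hA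
  have hn0 : (1 : ℝ) ≤ n := by exact_mod_cast hn
  -- the first round for which the condition holds
  have key : ∀ σ > 0, (∀ v, σ * nrm v ≤ nrm (A *ᵥ v)) →
      ∃ L : ℕ, 0 < after roundCmd n (input A b ε) (L + 1) 4 0 0 ∧
        (L + 1 : ℝ) ≤ 8 * (1 + Real.log n + Real.log (1 / ε) + Real.log (absSum A / σ)) := by
    intro σ hσ hσ'
    have hle : σ ≤ absSum A := by
      have h1 := hσ' (Pi.single ⟨0, hn⟩ 1)
      have h2 := op_absSum A hs0 (Pi.single ⟨0, hn⟩ 1)
      have h3 : 0 < nrm (Pi.single (⟨0, hn⟩ : Fin n) (1 : ℝ) : Fin n → ℝ) :=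
        nrm_pos (by simp)
      exact le_of_mul_le_mul_right (h1.trans h2) h3
    set X := 64 * (n : ℝ) * (1 / ε) * (absSum A / σ) ^ 3 with hX
    have hq1 : 1 ≤ absSum A / σ := (one_le_div hσ).mpr hle
    have he1 : 1 ≤ 1 / ε := (one_le_div hε).mpr hε1.le
    have hX1 : 64 ≤ X := by
      have h3 : 1 ≤ (absSum A / σ) ^ 3 := one_le_pow₀ hq1
      have h4 : 1 ≤ (n : ℝ) * (1 / ε) := by nlinarith
      have h5 : 1 ≤ (n : ℝ) * (1 / ε) * (absSum A / σ) ^ 3 := by nlinarith
      rw [hX]; nlinarith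
    have hX0 : 0 < X := by linarith
    set L := ⌈Real.logb 2 X⌉₊ with hL
    have hlog : Real.logb 2 X ≤ L := Nat.le_ceil _
    have hpow : X ≤ 2 ^ L := by
      have h6 : X = (2 : ℝ) ^ Real.logb 2 X := (Real.rpow_logb (by norm_num) (by norm_num) hX0).symm
      calc X = (2 : ℝ) ^ Real.logb 2 X := h6
        _ ≤ (2 : ℝ) ^ (L : ℝ) := Real.rpow_le_rpow_of_exponent_le (by norm_num) hlog
        _ = 2 ^ L := Real.rpow_natCast 2 L
    refine ⟨L, rounds A b ε hn hA hε hε1 σ hσ hσ' L ?_, ?_⟩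
    · have h7 : X * (ε * (σ / absSum A) ^ 3) = 64 * n := by
        rw [hX]; field_simp
      rw [← h7]
      exact mul_le_mul_of_nonneg_right hpow (by positivity)
    · have h8 : (L : ℝ) < Real.logb 2 X + 1 := Nat.ceil_lt_add_one (by
        apply Real.logb_nonneg (by norm_num); linarith)
      have h9 : Real.logb 2 X = (Real.log 64 + Real.log n + Real.log (1 / ε) +
          3 * Real.log (absSum A / σ)) / Real.log 2 := by
        rw [Real.logb, hX, Real.log_mul (by positivity) (by positivity),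
          Real.log_mul (by positivity) (by positivity), Real.log_mul (by norm_num) (by positivity),
          Real.log_pow]
        norm_num
      have hl2 : 0.6931471803 < Real.log 2 := Real.log_two_gt_d9
      have h64 : Real.log 64 = 6 * Real.log 2 := by
        rw [show (64 : ℝ) = 2 ^ 6 by norm_num, Real.log_pow]; norm_num
      have hln : 0 ≤ Real.log n := Real.log_nonneg hn0
      have hle : 0 ≤ Real.log (1 / ε) := Real.log_nonneg he1
      have hlq : 0 ≤ Real.log (absSum A / σ) := Real.log_nonneg hq1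
      have hb : Real.logb 2 X ≤ 6 + 8 * (Real.log n + Real.log (1 / ε) +
          Real.log (absSum A / σ)) := by
        rw [h9, h64, div_le_iff₀ (by linarith)]
        nlinarith
      linarith
  have hex : ∃ t, 0 < after roundCmd n (input A b ε) t 4 0 0 := by
    obtain ⟨σ, hσ, hσ'⟩ := exists_sigma A hA
    obtain ⟨L, hL, -⟩ := key σ hσ hσ'
    exact ⟨L + 1, hL⟩
  refine ⟨Nat.find hex, ⟨Nat.find_spec hex, fun i hi => not_lt.mp (Nat.find_min hex hi)⟩, ?_⟩
  intro σ hσ hσ'
  obtain ⟨L, hL, hL'⟩ := key σ hσ hσ'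
  have hle : Nat.find hex ≤ L + 1 := Nat.find_min' hex hL
  set t := Nat.find hex with ht
  have h1 := time_le (n := n) (input A b ε) t
  have h2 : (t : ℝ) ≤ 8 * (1 + Real.log n + Real.log (1 / ε) + Real.log (absSum A / σ)) := by
    calc (t : ℝ) ≤ (L + 1 : ℕ) := by exact_mod_cast hle
      _ = (L : ℝ) + 1 := by push_cast; ring
      _ ≤ _ := hL'
  have h3 : ((1601 * ((n + 1) * (n + 1) * (t * t * t)) : ℕ) : ℝ) ≤
      6404 * (n : ℝ) ^ 2 * (t : ℝ) ^ 3 := by
    push_cast
    have h5 : ((n : ℝ) + 1) * (n + 1) ≤ 4 * (n : ℝ) ^ 2 := by nlinarith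
    have h6 : (0 : ℝ) ≤ (t : ℝ) * t * t := by positivity
    nlinarith
  calc (time roundCmd n (input A b ε) t : ℝ)
      ≤ ((1601 * ((n + 1) * (n + 1) * (t * t * t)) : ℕ) : ℝ) := by exact_mod_cast h1
    _ ≤ 6404 * (n : ℝ) ^ 2 * (t : ℝ) ^ 3 := h3
    _ ≤ _ := by
      refine mul_le_mul_of_nonneg_left ?_ (by positivity)
      exact pow_le_pow_left₀ (by positivity) h2 3

end

end Pool.Agent.Q225.PK
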