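import Mathlib

set_option autoImplicit false

/-!
# Programs for exact real arithmetic

A uniform real random access machine without floor function: the memory consists of arrays of real
numbers, a program is a finite text, and the only operations on real numbers are `0`, `1`, copy, `+`, `-`,
`*`, `/` and comparisons. The indices are natural numbers computed from the variables of the
loops; natural numbers cannot be computed from real numbers except by comparisons.

This file contains only definitions.
-/

namespace Pool.Agent.Q225.PK

/-- Index expressions: natural numbers computed from the loop variables. -/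
inductive IE where
  | var (v : ℕ)
  | lit (c : ℕ)
  | add (a b : IE)
  | sub (a b : IE)
  | mul (a b : IE)

/-- The value of an index expression (`sub` is the truncated subtraction). -/
def IE.eval (e : ℕ → ℕ) : IE → ℕ
  | .var v => e v
  | .lit c => c
  | .add a b => a.eval e + b.eval e
  | .sub a b => a.eval e - b.eval e
  | .mul a b => a.eval e * b.eval e

/-- The name of a cell of the memory: entry `(i, j)` of the array number `a`. -/
structure Loc where
  a : ℕ
  i : IE
  j : IE

/-- The memory: the real number in the cell `(i, j)` of array number `a`. -/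
abbrev Mem := ℕ → ℕ → ℕ → ℝ

/-- The content of a cell. -/
def rd (e : ℕ → ℕ) (m : Mem) (x : Loc) : ℝ := m x.a (x.i.eval e) (x.j.eval e)

/-- Write the number `v` into the cell `d`. -/
noncomputable def wr (e : ℕ → ℕ) (m : Mem) (d : Loc) (v : ℝ) : Mem := fun a i j =>
  if a = d.a ∧ i = d.i.eval e ∧ j = d.j.eval e then v else m a i j

/-- Commands: constants `0`, `1`, copy, the four operations, composition, the test `x ≤ y`, and loops
in which the variable `v` takes the values `0, 1, …, N - 1`. -/
inductive Cmd where
  | skip
  | zero (d : Loc)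
  | one (d : Loc)
  | copy (d x : Loc)
  | add (d x y : Loc)
  | sub (d x y : Loc)
  | mul (d x y : Loc)
  | div (d x y : Loc)
  | seq (c₁ c₂ : Cmd)
  | cond (x y : Loc) (c₁ c₂ : Cmd)
  | loop (v : ℕ) (N : IE) (c : Cmd)

/-- The memory after the execution of a command; `e` gives the values of the variables. -/
noncomputable def run : Cmd → (ℕ → ℕ) → Mem → Mem
  | .skip, _, m => m
  | .zero d, e, m => wr e m d 0
  | .one d, e, m => wr e m d 1
  | .copy d x, e, m => wr e m d (rd e m x)
  | .add d x y, e, m => wr e m d (rd e m x + rd e m y)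
  | .sub d x y, e, m => wr e m d (rd e m x - rd e m y)
  | .mul d x y, e, m => wr e m d (rd e m x * rd e m y)
  | .div d x y, e, m => wr e m d (rd e m x / rd e m y)
  | .seq c₁ c₂, e, m => run c₂ e (run c₁ e m)
  | .cond x y c₁ c₂, e, m => if rd e m x ≤ rd e m y then run c₁ e m else run c₂ e m
  | .loop v N c, e, m =>
      Nat.rec m (fun i m' => run c (Function.update e v i) m') (N.eval e)

/-- The memory of a loop after `k` rounds. -/
noncomputable def iter (v : ℕ) (c : Cmd) (e : ℕ → ℕ) (m : Mem) (k : ℕ) : Mem :=
  Nat.rec m (fun i m' => run c (Function.update e v i) m') k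

/-- The number of steps: every operation on real numbers, every copy, every comparison, and every
round of a loop (and one more for the loop) counts as one step. -/
noncomputable def cost : Cmd → (ℕ → ℕ) → Mem → ℕ
  | .skip, _, _ => 1
  | .zero _, _, _ => 1
  | .one _, _, _ => 1
  | .copy _ _, _, _ => 1
  | .add _ _ _, _, _ => 1
  | .sub _ _ _, _, _ => 1
  | .mul _ _ _, _, _ => 1
  | .div _ _ _, _, _ => 1
  | .seq c₁ c₂, e, m => cost c₁ e m + cost c₂ e (run c₁ e m)
  | .cond x y c₁ c₂, e, m => 1 + if rd e m x ≤ rd e m y then cost c₁ e m else cost c₂ e m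
  | .loop v N c, e, m =>
      1 + ∑ i ∈ Finset.range (N.eval e), (1 + cost c (Function.update e v i) (iter v c e m i))

/-- The values of the variables in round `t`: variable 0 is the order of the matrix, variable 1 is
the number of the round. -/
def env (n t : ℕ) : ℕ → ℕ := fun v => if v = 0 then n else if v = 1 then t else 0

/-- The memory after `t` rounds: the command is executed again and again. -/
noncomputable def after (c : Cmd) (n : ℕ) (m : Mem) : ℕ → Mem
  | 0 => m
  | t + 1 => run c (env n t) (after c n m t)

/-- The number of steps of the first `t` rounds, with one step for the test after each round. -/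
noncomputable def time (c : Cmd) (n : ℕ) (m : Mem) (t : ℕ) : ℕ :=
  ∑ i ∈ Finset.range t, (1 + cost c (env n i) (after c n m i))

/-- The execution ends after `t` rounds: the number in cell `(0, 0)` of array 4 is positive then,
and not before. -/
def EndsAt (c : Cmd) (n : ℕ) (m : Mem) (t : ℕ) : Prop :=
  0 < after c n m t 4 0 0 ∧ ∀ i < t, after c n m i 4 0 0 ≤ 0

/-- The input: array 0 contains the matrix, array 1 the vector, array 2 the number `ε`. -/
noncomputable def input {n : ℕ} (A : Matrix (Fin n) (Fin n) ℝ) (b : Fin n → ℝ) (ε : ℝ) : Mem :=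
  fun k i j =>
    if k = 0 then (if h : i < n ∧ j < n then A ⟨i, h.1⟩ ⟨j, h.2⟩ else 0)
    else if k = 1 then (if h : i < n ∧ j = 0 then b ⟨i, h.1⟩ else 0)
    else if k = 2 ∧ i = 0 ∧ j = 0 then ε else 0

/-- The output: array 3. -/
def outp (n : ℕ) (m : Mem) : Fin n → ℝ := fun i => m 3 i 0

/-- The Euclidean norm. -/
noncomputable def nrm {n : ℕ} (v : Fin n → ℝ) : ℝ := √(∑ i, v i ^ 2)

/-- The singular values: `sv A 0 ≥ sv A 1 ≥ ⋯ ≥ sv A (n - 1)`. -/
noncomputable def sv {n : ℕ} (A : Matrix (Fin n) (Fin n) ℝ) (i : ℕ) : ℝ :=
  (Matrix.toEuclideanLin A).singularValues i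

/-- The `p`-averaged condition number for `0 < p < ∞`. -/
noncomputable def kap {n : ℕ} (p : ℝ) (A : Matrix (Fin n) (Fin n) ℝ) : ℝ :=
  ((1 / n) * ∑ i ∈ Finset.range n, (sv A i ^ p / sv A (n - 1) ^ p)) ^ (1 / p)

/-- The `p`-averaged condition number for `0 < p ≤ ∞`; it is `σ₁ / σ_n` for `p = ∞`. -/
noncomputable def kapE {n : ℕ} (p : ENNReal) (A : Matrix (Fin n) (Fin n) ℝ) : ℝ :=
  if p = ⊤ then sv A 0 / sv A (n - 1) else kap p.toReal A

end Pool.Agent.Q225.PK
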