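import Pool.Agent.Q225.PK.Loops

set_option autoImplicit false

/-!
# Multiplication of integer matrices with `O(n ^ 2 w)` operations on real numbers

The rows of the second matrix are packed into single numbers, the rows of the product are read
off by comparisons.
-/

namespace Pool.Agent.Q225.PK

open Finset

/-- The order of the matrices. -/
def nn : IE := .var 0
/-- The number of bits after the binary point. -/
def PP : IE := .add (.mul (.lit 12) (.var 1)) (.lit 8)
/-- The number of bits of a digit. -/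
def WW : IE := .add (.mul (.lit 25) (.var 1)) (.lit 20)

theorem tail_bound (S : ℕ → ℤ) (β : ℝ) (hβ : 4 ≤ β) (n : ℕ) (hS : ∀ l < n, |(S l : ℝ)| ≤ β / 4) :
    ∀ L ≤ n, |∑ l ∈ range L, (S l : ℝ) * β ^ l| ≤ β ^ L / 3 := by
  intro L
  induction L with
  | zero => intro _; simp
  | succ L ih =>
    intro hL
    rw [sum_range_succ]
    have h1 := ih (by omega)
    have h2 : |(S L : ℝ) * β ^ L| ≤ β / 4 * β ^ L := by
      rw [abs_mul, abs_of_nonneg (show (0 : ℝ) ≤ β ^ L by positivity)]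
      exact mul_le_mul_of_nonneg_right (hS L (by omega)) (by positivity)
    have h3 : (0 : ℝ) ≤ β ^ L := by positivity
    calc |∑ l ∈ range L, (S l : ℝ) * β ^ l + (S L : ℝ) * β ^ L|
        ≤ |∑ l ∈ range L, (S l : ℝ) * β ^ l| + |(S L : ℝ) * β ^ L| := abs_add_le _ _
      _ ≤ β ^ L / 3 + β / 4 * β ^ L := add_le_add h1 h2
      _ ≤ β ^ (L + 1) / 3 := by rw [pow_succ]; nlinarith

/-- The index of the digit which is read in round `v3`. -/
def dg : IE := .sub (.sub nn (.lit 1)) (.var 3)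

def digitBody : Cmd :=
  .seq (.div (sc 10) (sc 26) ⟨23, dg, .lit 0⟩) <|
  .seq (rndCmd WW) <|
  .seq (.seq (.mul (sc 27) (sc 11) ⟨23, dg, .lit 0⟩) <|
    .seq (.sub (sc 26) (sc 26) (sc 27)) (.div (sc 10) (sc 11) (sc 29))) <|
  .seq (rndCmd WW) (.copy ⟨22, .var 2, dg⟩ (sc 11))

theorem digitBody_mods : mods digitBody = [10, 17, 13, 12, 12, 16, 14, 17, 14, 12, 15, 12, 14, 15, 11,
    27, 26, 10, 17, 13, 12, 12, 16, 14, 17, 14, 12, 15, 12, 14, 15, 11, 22] := by
  simp [digitBody, mods, rnd_mods, sc]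

theorem run_digitBody (e : ℕ → ℕ) (m : Mem) (L : ℕ) (S : ℕ → ℤ) (β p : ℝ)
    (hL : dg.eval e = L) (hβ : β = 2 ^ (WW.eval e)) (h4 : 4 ≤ β)
    (h23 : m 23 L 0 = β ^ L) (h29 : m 29 0 0 = p) (hp : 1 ≤ p)
    (h26 : m 26 0 0 = ∑ l ∈ range (L + 1), (S l : ℝ) * β ^ l)
    (hS : ∀ l < L + 1, |(S l : ℝ)| ≤ β / 4) :
    run digitBody e m 22 (e 2) L = (rnd ((S L : ℝ) / p) : ℤ) ∧
    run digitBody e m 26 0 0 = ∑ l ∈ range L, (S l : ℝ) * β ^ l := by
  have hpos : (0 : ℝ) < β ^ L := by positivity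
  unfold digitBody
  rw [run_seq, run_seq, run_seq, run_seq]
  set m1 := run (.div (sc 10) (sc 26) ⟨23, dg, .lit 0⟩) e m with hm1
  have a10 : m1 10 0 0 = (∑ l ∈ range (L + 1), (S l : ℝ) * β ^ l) / β ^ L := by
    simp [hm1, run, wr, sc, rd, IE.eval, hL, h23, h26]
  have a26 : m1 26 0 0 = ∑ l ∈ range (L + 1), (S l : ℝ) * β ^ l := by
    simp [hm1, run, wr, sc, rd, IE.eval, h26]
  have a23 : m1 23 L 0 = β ^ L := by
    simp [hm1, run, wr, sc, rd, IE.eval, h23]
  have a29 : m1 29 0 0 = p := by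
    simp [hm1, run, wr, sc, rd, IE.eval, h29]
  clear_value m1
  have htail : |(∑ l ∈ range (L + 1), (S l : ℝ) * β ^ l) / β ^ L - S L| ≤ 1 / 3 := by
    have h := tail_bound S β h4 (L + 1) hS L (by omega)
    rw [sum_range_succ, add_div, mul_div_cancel_right₀ _ hpos.ne', add_sub_cancel_right, abs_div,
      abs_of_pos hpos, div_le_iff₀ hpos]
    linarith
  have hSL := hS L (by omega)
  have hd1 : |m1 10 0 0| ≤ 2 ^ (WW.eval e) - 1 := by
    rw [a10, ← hβ]
    have h1 := abs_sub_abs_le_abs_sub ((∑ l ∈ range (L + 1), (S l : ℝ) * β ^ l) / β ^ L) (S L)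
    linarith
  have hr1 : rnd (m1 10 0 0) = S L := by
    rw [a10]
    exact rnd_eq _ _ (lt_of_le_of_lt htail (by norm_num))
  have h1 := run_rnd WW e m1 hd1
  rw [hr1] at h1
  set m2 := run (rndCmd WW) e m1 with hm2
  have b26 : m2 26 0 0 = ∑ l ∈ range (L + 1), (S l : ℝ) * β ^ l := by
    rw [hm2, frame _ 26 _ _ (by rw [rnd_mods]; decide), a26]
  have b23 : m2 23 L 0 = β ^ L := by
    rw [hm2, frame _ 23 _ _ (by rw [rnd_mods]; decide), a23]
  have b29 : m2 29 0 0 = p := by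
    rw [hm2, frame _ 29 _ _ (by rw [rnd_mods]; decide), a29]
  clear_value m2
  set m3 := run (.seq (.mul (sc 27) (sc 11) ⟨23, dg, .lit 0⟩) <|
    .seq (.sub (sc 26) (sc 26) (sc 27)) (.div (sc 10) (sc 11) (sc 29))) e m2 with hm3
  have c10 : m3 10 0 0 = S L / p := by
    simp [hm3, run, wr, sc, rd, IE.eval, h1, b29]
  have c26 : m3 26 0 0 = ∑ l ∈ range L, (S l : ℝ) * β ^ l := by
    simp [hm3, run, wr, sc, rd, IE.eval, h1, b26, hL, b23, sum_range_succ]
  clear_value m3
  have hd2 : |m3 10 0 0| ≤ 2 ^ (WW.eval e) - 1 := by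
    rw [c10, ← hβ, abs_div, abs_of_pos (by linarith : (0 : ℝ) < p)]
    have : |(S L : ℝ)| / p ≤ |(S L : ℝ)| := div_le_self (abs_nonneg _) hp
    linarith
  have h2 := run_rnd WW e m3 hd2
  rw [c10] at h2
  set m4 := run (rndCmd WW) e m3 with hm4
  have d26 : m4 26 0 0 = ∑ l ∈ range L, (S l : ℝ) * β ^ l := by
    rw [hm4, frame _ 26 _ _ (by rw [rnd_mods]; decide), c26]
  clear_value m4
  constructor
  · simp [run, wr, sc, rd, IE.eval, hL, h2]
  · simp [run, wr, IE.eval, d26]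

/-- The scratch cells of `rndCmd` are not in the array 22. -/
theorem rnd_wrs (w : IE) (e : ℕ → ℕ) (a i j : ℕ) (h : wrs (rndCmd w) e a i j) : a < 20 := by
  simp only [rndCmd, wrs, sc, dbl, extBody] at h
  obtain h | h := h
  · omega
  obtain ⟨k, -, h⟩ | h := h
  · omega
  obtain h | h := h
  · omega
  obtain ⟨k, -, h⟩ | h := h
  · simp at h; omega
  · omega

theorem digit_wrs (e : ℕ → ℕ) (i j : ℕ) (h : wrs digitBody e 22 i j) :
    i = e 2 ∧ j = dg.eval e := by
  simp only [digitBody, wrs, sc] at h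
  rcases h with h | h | h | h | h
  · omega
  · have := rnd_wrs _ _ _ _ _ h; omega
  · omega
  · have := rnd_wrs _ _ _ _ _ h; omega
  · exact ⟨h.2.1, h.2.2⟩

theorem run_digits (e : ℕ → ℕ) (m : Mem) (n : ℕ) (S : ℕ → ℤ) (β p : ℝ)
    (hn : e 0 = n) (hβ : β = 2 ^ (WW.eval e)) (h4 : 4 ≤ β)
    (h23 : ∀ l < n, m 23 l 0 = β ^ l) (h29 : m 29 0 0 = p) (hp : 1 ≤ p)
    (h26 : m 26 0 0 = ∑ l ∈ range n, (S l : ℝ) * β ^ l)
    (hS : ∀ l < n, |(S l : ℝ)| ≤ β / 4) :
    ∀ l < n, run (.loop 3 nn digitBody) e m 22 (e 2) l = (rnd ((S l : ℝ) / p) : ℤ) := by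
  have hnn : nn.eval e = n := hn
  have key := loop_inv (v := 3) (N := nn) (c := digitBody) (e := e) (m := m)
    (fun k m' => m' 23 = m 23 ∧ m' 29 = m 29 ∧
      m' 26 0 0 = ∑ l ∈ range (n - k), (S l : ℝ) * β ^ l ∧
      ∀ l < n, n - k ≤ l → m' 22 (e 2) l = (rnd ((S l : ℝ) / p) : ℤ))
    ⟨rfl, rfl, by simpa using h26, by intro l hl hl'; omega⟩ ?_
  · rw [hnn] at key
    intro l hl
    exact key.2.2.2 l hl (by omega)
  · rw [hnn]
    rintro k hk m' ⟨g23, g29, g26, g22⟩
    have hdg : dg.eval (Function.update e 3 k) = n - 1 - k := by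
      simp [dg, nn, IE.eval, Function.update, hn]
    have hww : WW.eval (Function.update e 3 k) = WW.eval e := by
      simp [WW, IE.eval, Function.update]
    have h2 : (Function.update e 3 k) 2 = e 2 := by simp [Function.update]
    obtain ⟨r1, r2⟩ := run_digitBody (Function.update e 3 k) m' (n - 1 - k) S β p hdg
      (by rw [hww]; exact hβ) h4 (by rw [g23]; exact h23 _ (by omega)) (by rw [g29]; exact h29) hp
      (by rw [g26]; congr 2; omega) (fun l hl => hS l (by omega))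
    refine ⟨?_, ?_, ?_, ?_⟩
    · rw [frame _ _ _ _ (by rw [digitBody_mods]; decide), g23]
    · rw [frame _ _ _ _ (by rw [digitBody_mods]; decide), g29]
    · rw [r2]; congr 2; omega
    · intro l hl hl'
      by_cases h : l = n - 1 - k
      · rw [h2] at r1
        rw [h]; exact r1
      · rw [frame2 _ _ _ _ _ _ (fun hh => h (by
          have := (digit_wrs _ _ _ hh).2
          rw [hdg] at this; exact this))]
        exact g22 l hl (by omega)

/-- One row of the product. -/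
def rowCmd : Cmd :=
  .seq (dotCmd nn (sc 26) ⟨20, .var 2, .var 3⟩ ⟨24, .var 3, .lit 0⟩) (.loop 3 nn digitBody)

/-- The powers of the base. -/
def powCmd : Cmd :=
  .seq (.one (sc 25)) <| .seq (dbl 25 WW) <| .seq (.one ⟨23, .lit 0, .lit 0⟩) <|
  .loop 2 nn (.mul ⟨23, .add (.var 2) (.lit 1), .lit 0⟩ ⟨23, .var 2, .lit 0⟩ (sc 25))

/-- The packed rows of the second matrix. -/
def packCmd : Cmd :=
  .loop 2 nn (dotCmd nn ⟨24, .var 2, .lit 0⟩ ⟨21, .var 2, .var 3⟩ ⟨23, .var 3, .lit 0⟩)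

/-- The array 22 := the rounded product of the arrays 20 and 21, divided by `2 ^ P`. -/
def mulCmd : Cmd := .seq powCmd <| .seq packCmd (.loop 2 nn rowCmd)

theorem run_pow (e : ℕ → ℕ) (m : Mem) :
    ∀ l ≤ e 0, run powCmd e m 23 l 0 = (2 ^ (WW.eval e)) ^ l := by
  unfold powCmd
  rw [run_seq, run_seq, run_seq]
  set m1 := run (.one (sc 25)) e m with hm1
  have a1 : m1 25 0 0 = 1 := by simp [hm1, run, wr, sc, IE.eval]
  clear_value m1
  set m2 := run (dbl 25 WW) e m1 with hm2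
  have a2 : m2 25 0 0 = 2 ^ (WW.eval e) := by rw [hm2, run_dbl, a1]; ring
  clear_value m2
  set m3 := run (.one ⟨23, .lit 0, .lit 0⟩) e m2 with hm3
  have a3 : m3 25 0 0 = 2 ^ (WW.eval e) := by simp [hm3, run, wr, IE.eval, a2]
  have b3 : m3 23 0 0 = 1 := by simp [hm3, run, wr, IE.eval]
  clear_value m3
  have key := loop_inv (v := 2) (N := nn)
    (c := .mul ⟨23, .add (.var 2) (.lit 1), .lit 0⟩ ⟨23, .var 2, .lit 0⟩ (sc 25)) (e := e) (m := m3)
    (fun k m' => m' 25 0 0 = 2 ^ (WW.eval e) ∧ ∀ l ≤ k, m' 23 l 0 = (2 ^ (WW.eval e)) ^ l)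
    ⟨a3, by intro l hl; rw [Nat.le_zero.mp hl]; simpa using b3⟩ ?_
  · exact key.2
  · rintro k - m' ⟨h1, h2⟩
    refine ⟨by simp [run, wr, IE.eval, h1], fun l hl => ?_⟩
    simp only [run, wr, IE.eval, Function.update_self, true_and, and_true, rd, sc]
    split_ifs with hc
    · rw [h2 k le_rfl, h1, hc, pow_succ]
    · exact h2 l (by omega)

theorem run_pack (e : ℕ → ℕ) (m : Mem) :
    ∀ j < e 0, run packCmd e m 24 j 0 = ∑ l ∈ range (e 0), m 21 j l * m 23 l 0 := by
  have := loop_rows (v := 2) (N := nn) (e := e) (m := m)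
    (c := dotCmd nn ⟨24, .var 2, .lit 0⟩ ⟨21, .var 2, .var 3⟩ ⟨23, .var 3, .lit 0⟩) 24 [21, 23]
    (fun j r => r 0 = ∑ l ∈ range (e 0), m 21 j l * m 23 l 0)
    (by rw [dot_mods]; decide) ?_ ?_
  · exact this
  · intro i _ k _ hik j hh
    have := (dot_wrs _ _ _ _ _ _ _ _ (by norm_num) (by intro k; rfl) (by intro k; rfl) hh).2.1
    simp [IE.eval] at this
    exact hik this
  · intro i _ m' hm'
    have h := run_dot nn ⟨24, .var 2, .lit 0⟩ ⟨21, .var 2, .var 3⟩ ⟨23, .var 3, .lit 0⟩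
      (Function.update e 2 i) m' (by norm_num) (by norm_num) (by norm_num) (by norm_num)
      (by norm_num) (by intro k; rfl) (by intro k; rfl)
    simp only [IE.eval, Function.update_self, rd, nn] at h
    simp only [Function.update_of_ne (show (2 : ℕ) ≠ 3 by norm_num), Function.update_self,
      Function.update_of_ne (show (0 : ℕ) ≠ 2 by norm_num)] at h
    refine Eq.trans h ?_
    rw [hm' 21 (by simp), hm' 23 (by simp)]

theorem packCmd_mods : mods packCmd = [24, 27, 24] := by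
  simp [packCmd, mods, dot_mods]

theorem powCmd_mods : mods powCmd = [25, 25, 23, 23] := by
  simp [powCmd, mods, sc, dbl]

theorem rowCmd_mods : mods rowCmd = [26, 27, 26] ++ mods digitBody := by
  simp [rowCmd, mods, dot_mods, sc]

theorem row_wrs (e : ℕ → ℕ) (i j : ℕ) (h : wrs rowCmd e 22 i j) : i = e 2 := by
  simp only [rowCmd, wrs] at h
  rcases h with h | ⟨k, -, h⟩
  · have := (dot_wrs _ _ _ _ _ _ _ _ (by norm_num) (by intro k; rfl) (by intro k; rfl) h).1
    simp [sc] at this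
  · have := (digit_wrs _ _ _ h).1
    simpa [Function.update] using this

theorem run_row (e : ℕ → ℕ) (m : Mem) (n i : ℕ) (U V : ℕ → ℕ → ℤ) (β p : ℝ)
    (hn : e 0 = n) (hi : e 2 = i) (hβ : β = 2 ^ (WW.eval e)) (h4 : 4 ≤ β)
    (h23 : ∀ l < n, m 23 l 0 = β ^ l) (h29 : m 29 0 0 = p) (hp : 1 ≤ p)
    (hU : ∀ j < n, m 20 i j = U i j)
    (h24 : ∀ j < n, m 24 j 0 = ∑ l ∈ range n, (V j l : ℝ) * β ^ l)
    (hS : ∀ l < n, |((∑ j ∈ range n, U i j * V j l : ℤ) : ℝ)| ≤ β / 4) :
    ∀ l < n, run rowCmd e m 22 i l = (rnd (((∑ j ∈ range n, U i j * V j l : ℤ) : ℝ) / p) : ℤ) := by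
  unfold rowCmd
  rw [run_seq]
  have hdot := run_dot nn (sc 26) ⟨20, .var 2, .var 3⟩ ⟨24, .var 3, .lit 0⟩ e m
    (by norm_num [sc]) (by norm_num) (by norm_num) (by norm_num [sc]) (by norm_num [sc])
    (by intro k; rfl) (by intro k; rfl)
  set m1 := run (dotCmd nn (sc 26) ⟨20, .var 2, .var 3⟩ ⟨24, .var 3, .lit 0⟩) e m with hm1
  have b23 : m1 23 = m 23 := by rw [hm1]; exact frame _ _ _ _ (by rw [dot_mods]; decide)
  have b29 : m1 29 = m 29 := by rw [hm1]; exact frame _ _ _ _ (by rw [dot_mods]; decide)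
  clear_value m1
  have h26 : m1 26 0 0 = ∑ l ∈ range n, ((∑ j ∈ range n, U i j * V j l : ℤ) : ℝ) * β ^ l := by
    have h1 : m1 26 0 0 = ∑ j ∈ range n, m 20 i j * m 24 j 0 := by
      simp only [sc, IE.eval, rd, nn, Function.update_self,
        Function.update_of_ne (show (2 : ℕ) ≠ 3 by norm_num), hn, hi] at hdot
      exact hdot
    rw [h1]
    calc ∑ j ∈ range n, m 20 i j * m 24 j 0
        = ∑ j ∈ range n, ∑ l ∈ range n, (U i j : ℝ) * ((V j l : ℝ) * β ^ l) := by
          refine sum_congr rfl fun j hj => ?_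
          rw [hU j (mem_range.mp hj), h24 j (mem_range.mp hj), mul_sum]
      _ = ∑ l ∈ range n, ∑ j ∈ range n, (U i j : ℝ) * ((V j l : ℝ) * β ^ l) := sum_comm
      _ = _ := by
          refine sum_congr rfl fun l _ => ?_
          push_cast
          rw [sum_mul]
          exact sum_congr rfl fun j _ => by ring
  have := run_digits e m1 n (fun l => ∑ j ∈ range n, U i j * V j l) β p hn hβ h4
    (by rw [b23]; exact h23) (by rw [b29]; exact h29) hp h26 hS
  rw [hi] at this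
  exact this

theorem run_mul (e : ℕ → ℕ) (m : Mem) (n : ℕ) (U V : ℕ → ℕ → ℤ) (p : ℝ) (hn : e 0 = n)
    (h29 : m 29 0 0 = p) (hp : 1 ≤ p)
    (hU : ∀ i < n, ∀ j < n, m 20 i j = U i j) (hV : ∀ i < n, ∀ j < n, m 21 i j = V i j)
    (hS : ∀ i < n, ∀ l < n, |((∑ j ∈ range n, U i j * V j l : ℤ) : ℝ)| ≤ 2 ^ (WW.eval e) / 4) :
    ∀ i < n, ∀ l < n, run mulCmd e m 22 i l =
      (rnd (((∑ j ∈ range n, U i j * V j l : ℤ) : ℝ) / p) : ℤ) := by
  unfold mulCmd
  rw [run_seq, run_seq]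
  have h4 : (4 : ℝ) ≤ 2 ^ (WW.eval e) := by
    have : WW.eval e = 25 * e 1 + 20 := rfl
    rw [this]
    calc (4 : ℝ) ≤ 2 ^ 4 := by norm_num
      _ ≤ 2 ^ (25 * e 1 + 20) := pow_le_pow_right₀ (by norm_num) (by omega)
  have hpow := run_pow e m
  set m1 := run powCmd e m with hm1
  have a20 : m1 20 = m 20 := by rw [hm1]; exact frame _ _ _ _ (by rw [powCmd_mods]; decide)
  have a21 : m1 21 = m 21 := by rw [hm1]; exact frame _ _ _ _ (by rw [powCmd_mods]; decide)
  have a29 : m1 29 = m 29 := by rw [hm1]; exact frame _ _ _ _ (by rw [powCmd_mods]; decide)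
  clear_value m1
  have hpack := run_pack e m1
  set m2 := run packCmd e m1 with hm2
  have b20 : m2 20 = m1 20 := by rw [hm2]; exact frame _ _ _ _ (by rw [packCmd_mods]; decide)
  have b23 : m2 23 = m1 23 := by rw [hm2]; exact frame _ _ _ _ (by rw [packCmd_mods]; decide)
  have b29 : m2 29 = m1 29 := by rw [hm2]; exact frame _ _ _ _ (by rw [packCmd_mods]; decide)
  clear_value m2
  have := loop_rows (v := 2) (N := nn) (e := e) (m := m2) (c := rowCmd) 22 [20, 23, 24, 29]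
    (fun i r => ∀ l < n, r l = (rnd (((∑ j ∈ range n, U i j * V j l : ℤ) : ℝ) / p) : ℤ))
    (by rw [rowCmd_mods, digitBody_mods]; decide) ?_ ?_
  · rw [show nn.eval e = n from hn] at this
    exact this
  · intro i _ k _ hik j hh
    have := row_wrs _ _ _ hh
    simp only [Function.update_self] at this
    exact hik this
  · rw [show nn.eval e = n from hn]
    intro i hi m' hm'
    refine run_row (Function.update e 2 i) m' n i U V (2 ^ (WW.eval e)) p
      (by simp [Function.update, hn]) (by simp) (by simp [WW, IE.eval, Function.update]) h4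
      ?_ ?_ hp ?_ ?_ (hS i hi)
    · intro l hl
      rw [hm' 23 (by simp), b23]
      exact hpow l (by omega)
    · rw [hm' 29 (by simp), b29, a29]; exact h29
    · intro j hj
      rw [hm' 20 (by simp), b20, a20]; exact hU i hi j hj
    · intro j hj
      rw [hm' 24 (by simp), hpack j (by omega), hn]
      refine sum_congr rfl fun l hl => ?_
      rw [a21, hV j hj l (mem_range.mp hl), hpow l (by have := mem_range.mp hl; omega)]

theorem mulCmd_mods : mods mulCmd = [25, 25, 23, 23, 24, 27, 24, 26, 27, 26] ++ mods digitBody := by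
  simp [mulCmd, mods, powCmd_mods, packCmd_mods, rowCmd_mods]

end Pool.Agent.Q225.PK
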