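import Pool.Agent.Q225.PK.Model

set_option autoImplicit false

/-!
# Euclidean norms and bounds for matrices
-/

namespace Pool.Agent.Q225.PK

open Finset Matrix

variable {n : ℕ}

theorem nrm_nonneg (v : Fin n → ℝ) : 0 ≤ nrm v := Real.sqrt_nonneg _

theorem nrm_sq (v : Fin n → ℝ) : nrm v ^ 2 = ∑ i, v i ^ 2 :=
  Real.sq_sqrt (sum_nonneg fun _ _ => sq_nonneg _)

theorem nrm_eq (v : Fin n → ℝ) : nrm v = ‖(WithLp.toLp 2 v : EuclideanSpace ℝ (Fin n))‖ := by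
  rw [EuclideanSpace.norm_eq]
  simp [nrm]

theorem nrm_add (v w : Fin n → ℝ) : nrm (v + w) ≤ nrm v + nrm w := by
  rw [nrm_eq, nrm_eq, nrm_eq, WithLp.toLp_add]
  exact norm_add_le _ _

theorem nrm_sub (v w : Fin n → ℝ) : nrm (v - w) ≤ nrm v + nrm w := by
  rw [nrm_eq, nrm_eq, nrm_eq, WithLp.toLp_sub]
  exact norm_sub_le _ _

theorem nrm_smul (c : ℝ) (v : Fin n → ℝ) : nrm (c • v) = |c| * nrm v := by
  rw [nrm_eq, nrm_eq, WithLp.toLp_smul, norm_smul, Real.norm_eq_abs]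

theorem nrm_zero : nrm (0 : Fin n → ℝ) = 0 := by simp [nrm]

theorem nrm_le_of_sq {v : Fin n → ℝ} {c : ℝ} (hc : 0 ≤ c) (h : ∑ i, v i ^ 2 ≤ c ^ 2) :
    nrm v ≤ c := by
  unfold nrm
  rw [← Real.sqrt_sq hc]
  exact Real.sqrt_le_sqrt h

theorem nrm_pos {v : Fin n → ℝ} (h : v ≠ 0) : 0 < nrm v := by
  rw [nrm_eq, norm_pos_iff]
  intro h'
  exact h (by simpa using congrArg (WithLp.ofLp) h')

theorem abs_le_nrm (v : Fin n → ℝ) (i : Fin n) : |v i| ≤ nrm v := by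
  unfold nrm
  rw [← Real.sqrt_sq_eq_abs]
  exact Real.sqrt_le_sqrt (single_le_sum (f := fun i => v i ^ 2) (fun _ _ => sq_nonneg _)
    (mem_univ i))

/-- The matrix `M` increases Euclidean norms at most by the factor `c`. -/
def OpB (M : Matrix (Fin n) (Fin n) ℝ) (c : ℝ) : Prop := ∀ v, nrm (M *ᵥ v) ≤ c * nrm v

theorem OpB.mono {M : Matrix (Fin n) (Fin n) ℝ} {c d : ℝ} (h : OpB M c) (hcd : c ≤ d) :
    OpB M d := fun v => (h v).trans (mul_le_mul_of_nonneg_right hcd (nrm_nonneg v))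

theorem OpB.add {M N : Matrix (Fin n) (Fin n) ℝ} {c d : ℝ} (h : OpB M c) (h' : OpB N d) :
    OpB (M + N) (c + d) := fun v => by
  rw [add_mulVec, add_mul]
  exact (nrm_add _ _).trans (add_le_add (h v) (h' v))

theorem OpB.sub {M N : Matrix (Fin n) (Fin n) ℝ} {c d : ℝ} (h : OpB M c) (h' : OpB N d) :
    OpB (M - N) (c + d) := fun v => by
  rw [sub_mulVec, add_mul]
  exact (nrm_sub _ _).trans (add_le_add (h v) (h' v))

theorem OpB.mul {M N : Matrix (Fin n) (Fin n) ℝ} {c d : ℝ} (h : OpB M c) (h' : OpB N d)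
    (hc : 0 ≤ c) : OpB (M * N) (c * d) := fun v => by
  rw [← mulVec_mulVec, mul_assoc]
  exact (h _).trans (mul_le_mul_of_nonneg_left (h' v) hc)

theorem OpB.one : OpB (1 : Matrix (Fin n) (Fin n) ℝ) 1 := fun v => by simp

theorem OpB.pow {M : Matrix (Fin n) (Fin n) ℝ} {c : ℝ} (h : OpB M c) (hc : 0 ≤ c) (k : ℕ) :
    OpB (M ^ k) (c ^ k) := by
  induction k with
  | zero => simpa using OpB.one
  | succ k ih => rw [pow_succ, pow_succ]; exact ih.mul h (pow_nonneg hc k)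

theorem OpB.frob (M : Matrix (Fin n) (Fin n) ℝ) : OpB M √(∑ i, ∑ j, M i j ^ 2) := fun v => by
  refine nrm_le_of_sq (mul_nonneg (Real.sqrt_nonneg _) (nrm_nonneg v)) ?_
  rw [mul_pow, Real.sq_sqrt (sum_nonneg fun _ _ => sum_nonneg fun _ _ => sq_nonneg _), nrm_sq,
    sum_mul]
  refine sum_le_sum fun i _ => ?_
  exact sum_mul_sq_le_sq_mul_sq univ (fun j => M i j) v

theorem OpB.entries {M : Matrix (Fin n) (Fin n) ℝ} {δ : ℝ} (hδ : 0 ≤ δ)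
    (h : ∀ i j, |M i j| ≤ δ) : OpB M (n * δ) := by
  refine (OpB.frob M).mono ?_
  rw [← Real.sqrt_sq (show 0 ≤ (n : ℝ) * δ by positivity)]
  refine Real.sqrt_le_sqrt ?_
  calc ∑ i, ∑ j, M i j ^ 2 ≤ ∑ _i : Fin n, ∑ _j : Fin n, δ ^ 2 :=
        sum_le_sum fun i _ => sum_le_sum fun j _ => by
          rw [← sq_abs]; exact pow_le_pow_left₀ (abs_nonneg _) (h i j) 2
    _ = (n * δ) ^ 2 := by simp; ring

theorem OpB.entry {M : Matrix (Fin n) (Fin n) ℝ} {c : ℝ} (h : OpB M c) (i j : Fin n) :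
    |M i j| ≤ c := by
  have h1 := h (Pi.single j 1)
  have h2 : nrm (Pi.single j (1 : ℝ) : Fin n → ℝ) = 1 := by
    unfold nrm
    rw [sum_eq_single j]
    · simp
    · intro b _ hb; simp [hb]
    · simp
  rw [h2, mul_one] at h1
  have h3 := abs_le_nrm (M *ᵥ Pi.single j 1) i
  simp at h3
  exact h3.trans (by simpa using h1)

/-- Frobenius norm from the operator bound. -/
theorem OpB.frob_le {M : Matrix (Fin n) (Fin n) ℝ} {c : ℝ} (h : OpB M c) (hc : 0 ≤ c) :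
    √(∑ i, ∑ j, M i j ^ 2) ≤ n * c := by
  rw [← Real.sqrt_sq (show 0 ≤ (n : ℝ) * c by positivity)]
  refine Real.sqrt_le_sqrt ?_
  calc ∑ i, ∑ j, M i j ^ 2 ≤ ∑ _i : Fin n, ∑ _j : Fin n, c ^ 2 :=
        sum_le_sum fun i _ => sum_le_sum fun j _ => by
          rw [← sq_abs]; exact pow_le_pow_left₀ (abs_nonneg _) (h.entry i j) 2
    _ = (n * c) ^ 2 := by simp; ring

theorem dot_self (v : Fin n → ℝ) : v ⬝ᵥ v = nrm v ^ 2 := by
  rw [nrm_sq]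
  exact sum_congr rfl fun i _ => (sq (v i)).symm

/-- The contraction `1 - Gᵀ G`. -/
theorem contr_sq (G : Matrix (Fin n) (Fin n) ℝ) (h : OpB Gᵀ 1) (v : Fin n → ℝ) :
    nrm ((1 - Gᵀ * G) *ᵥ v) ^ 2 ≤ nrm v ^ 2 - nrm (G *ᵥ v) ^ 2 := by
  have h1 : (1 - Gᵀ * G) *ᵥ v = v - Gᵀ *ᵥ (G *ᵥ v) := by
    rw [sub_mulVec, one_mulVec, mulVec_mulVec]
  have h2 : v ⬝ᵥ (Gᵀ *ᵥ (G *ᵥ v)) = nrm (G *ᵥ v) ^ 2 := by
    rw [dotProduct_mulVec, vecMul_transpose, dot_self]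
  have h3 : nrm (Gᵀ *ᵥ (G *ᵥ v)) ^ 2 ≤ nrm (G *ᵥ v) ^ 2 := by
    have := h (G *ᵥ v)
    rw [one_mul] at this
    exact pow_le_pow_left₀ (nrm_nonneg _) this 2
  rw [h1, ← dot_self (v - _), sub_dotProduct, dotProduct_sub, dotProduct_sub,
    dotProduct_comm (Gᵀ *ᵥ (G *ᵥ v)) v, h2, dot_self, dot_self]
  linarith

theorem contr_one (G : Matrix (Fin n) (Fin n) ℝ) (h : OpB Gᵀ 1) : OpB (1 - Gᵀ * G) 1 := fun v => by
  have h1 := contr_sq G h v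
  rw [one_mul]
  exact le_of_sq_le_sq (h1.trans (by nlinarith [sq_nonneg (nrm (G *ᵥ v))])) (nrm_nonneg v)

theorem contr_lt (G : Matrix (Fin n) (Fin n) ℝ) (h : OpB Gᵀ 1) (τ : ℝ) (hτ : 0 ≤ τ)
    (h' : ∀ v, τ * nrm v ≤ nrm (G *ᵥ v)) (hτ1 : τ ≤ 1) : OpB (1 - Gᵀ * G) √(1 - τ ^ 2) := fun v => by
  have h1 := contr_sq G h v
  have h2 : (τ * nrm v) ^ 2 ≤ nrm (G *ᵥ v) ^ 2 :=
    pow_le_pow_left₀ (mul_nonneg hτ (nrm_nonneg v)) (h' v) 2
  have h3 : (0 : ℝ) ≤ 1 - τ ^ 2 := by nlinarith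
  refine le_of_sq_le_sq ?_ (mul_nonneg (Real.sqrt_nonneg _) (nrm_nonneg v))
  rw [mul_pow, Real.sq_sqrt h3]
  nlinarith

end Pool.Agent.Q225.PK
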