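import Pool.Agent.Q225.PK.LO
import Pool.Agent.Q225.PK.Norm

set_option autoImplicit false

/-!
# Nearly sparse vectors
-/

namespace Pool.Agent.Q225.PK

open Finset Matrix

/-- The mesh. -/
noncomputable def mesh (n : ℕ) : ℝ := 1 / (10 * (n : ℝ) ^ 2)

theorem mesh_pos {n : ℕ} (hn : 1 ≤ n) : 0 < mesh n := by
  have : (0 : ℝ) < n := by exact_mod_cast hn
  unfold mesh; positivity

/-- The vectors of the net. -/
noncomputable def zv (n m : ℕ) (q : Fin m → Fin n × Fin (2 * (10 * n ^ 2) + 1)) (i : Fin n) : ℝ :=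
  ∑ a, if (q a).1 = i then mesh n * (((q a).2 : ℕ) - (10 * (n : ℝ) ^ 2)) else 0

/-- The coordinates which are not small. -/
noncomputable def big {n : ℕ} (x : Fin n → ℝ) : Finset (Fin n) :=
  univ.filter fun i => mesh n ≤ |x i|

theorem net_approx {n m : ℕ} (hn : 1 ≤ n) (x : Fin n → ℝ) (hx : ∀ i, |x i| ≤ 1)
    (hm : (big x).card ≤ m) :
    ∃ q : Fin m → Fin n × Fin (2 * (10 * n ^ 2) + 1), ∀ i, |x i - zv n m q i| ≤ mesh n := by
  classical
  have ht := mesh_pos hn
  have hn0 : (0 : ℝ) < n := by exact_mod_cast hn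
  have htK : mesh n * (10 * (n : ℝ) ^ 2) = 1 := by unfold mesh; field_simp
  set I := big x with hI
  let e : I ≃ Fin I.card := I.equivFin
  -- the number of the value at i
  have hval : ∀ i, ∃ k : Fin (2 * (10 * n ^ 2) + 1),
      |x i - mesh n * (((k : ℕ) : ℝ) - (10 * (n : ℝ) ^ 2))| ≤ mesh n := by
    intro i
    have hxi := abs_le.mp (hx i)
    set f := ⌊x i / mesh n⌋ with hf
    have f1 : (f : ℝ) ≤ x i / mesh n := Int.floor_le _
    have f2 : x i / mesh n < f + 1 := Int.lt_floor_add_one _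
    have g1 : (f : ℝ) * mesh n ≤ x i := (le_div_iff₀ ht).mp f1
    have g2 : x i < (f + 1) * mesh n := (div_lt_iff₀ ht).mp f2
    have h1 : -(10 * (n : ℤ) ^ 2) ≤ f := by
      rw [hf, Int.le_floor, le_div_iff₀ ht]
      push_cast
      nlinarith
    have h2 : f ≤ 10 * (n : ℤ) ^ 2 := by
      have : (f : ℝ) * mesh n ≤ (10 * (n : ℝ) ^ 2) * mesh n := by linarith
      have := le_of_mul_le_mul_right this ht
      exact_mod_cast this
    refine ⟨⟨(f + 10 * (n : ℤ) ^ 2).toNat, by zify; rw [Int.toNat_of_nonneg (by linarith)]; linarith⟩, ?_⟩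
    have h3 : (((f + 10 * (n : ℤ) ^ 2).toNat : ℕ) : ℝ) = f + 10 * (n : ℝ) ^ 2 := by
      have : (((f + 10 * (n : ℤ) ^ 2).toNat : ℤ) : ℝ) = ((f + 10 * (n : ℤ) ^ 2 : ℤ) : ℝ) := by
        rw [Int.toNat_of_nonneg (by linarith)]
      push_cast at this
      exact_mod_cast this
    simp only [h3]
    rw [abs_le]
    constructor <;> nlinarith
  choose κ hκ using hval
  let i0 : Fin n := ⟨0, hn⟩
  have hK : 10 * n ^ 2 < 2 * (10 * n ^ 2) + 1 := by omega
  let q : Fin m → Fin n × Fin (2 * (10 * n ^ 2) + 1) := fun a =>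
    if h : a.1 < I.card then ((e.symm ⟨a.1, h⟩).1, κ (e.symm ⟨a.1, h⟩).1)
    else (i0, ⟨10 * n ^ 2, hK⟩)
  refine ⟨q, fun i => ?_⟩
  by_cases hi : i ∈ I
  · set a0 : Fin m := ⟨(e ⟨i, hi⟩).1, lt_of_lt_of_le (e ⟨i, hi⟩).2 hm⟩ with ha0
    have ha0lt : a0.1 < I.card := (e ⟨i, hi⟩).2
    have hq0 : q a0 = (i, κ i) := by
      simp only [q, dif_pos ha0lt]
      have : e.symm ⟨a0.1, ha0lt⟩ = ⟨i, hi⟩ := by
        rw [Equiv.symm_apply_eq]
      rw [this]
    have hz : zv n m q i = mesh n * (((κ i : ℕ) : ℝ) - (10 * (n : ℝ) ^ 2)) := by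
      unfold zv
      rw [sum_eq_single a0]
      · rw [hq0, if_pos rfl]
      · intro a _ ha
        split_ifs with h
        · by_cases hlt : a.1 < I.card
          · exfalso
            apply ha
            have h1 : (e.symm ⟨a.1, hlt⟩).1 = i := by
              simpa only [q, dif_pos hlt] using h
            have h2 : e.symm ⟨a.1, hlt⟩ = ⟨i, hi⟩ := Subtype.ext h1
            rw [Equiv.symm_apply_eq] at h2
            apply Fin.ext
            rw [ha0]
            simp only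
            rw [← h2]
          · simp [q, dif_neg hlt]
        · rfl
      · intro h; exact absurd (mem_univ _) h
    rw [hz]
    exact hκ i
  · have hz : zv n m q i = 0 := by
      unfold zv
      refine sum_eq_zero fun a _ => ?_
      split_ifs with h
      · by_cases hlt : a.1 < I.card
        · exfalso
          apply hi
          have h1 : (e.symm ⟨a.1, hlt⟩).1 = i := by
            simpa only [q, dif_pos hlt] using h
          rw [← h1]
          exact (e.symm ⟨a.1, hlt⟩).2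
        · simp [q, dif_neg hlt]
      · rfl
    rw [hz, sub_zero]
    rw [hI, big, mem_filter] at hi
    push Not at hi
    exact (hi (mem_univ _)).le

theorem exists_coord {n : ℕ} (hn : 1 ≤ n) (x : Fin n → ℝ) (hx : nrm x = 1) :
    ∃ i, 1 / (n : ℝ) ≤ |x i| := by
  have hn0 : (0 : ℝ) < n := by exact_mod_cast hn
  have h1 : ∑ i, x i ^ 2 = 1 := by rw [← nrm_sq, hx]; norm_num
  by_contra h
  push Not at h
  have h2 : ∑ i, x i ^ 2 < ∑ _i : Fin n, 1 / (n : ℝ) := by
    have hne : (univ : Finset (Fin n)).Nonempty := ⟨⟨0, hn⟩, mem_univ _⟩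
    refine sum_lt_sum_of_nonempty hne fun i _ => ?_
    have h3 := h i
    have h4 : |x i| ≤ 1 := by rw [← hx]; exact abs_le_nrm x i
    rw [← sq_abs]
    nlinarith [abs_nonneg (x i)]
  rw [h1] at h2
  simp at h2
  rw [mul_inv_cancel₀ hn0.ne'] at h2
  exact lt_irrefl _ h2

/-- A vector of the net near a nearly sparse vector. -/
theorem net_vector {n m : ℕ} (hn : 1 ≤ n) (x : Fin n → ℝ) (hx : nrm x = 1)
    (hm : (big x).card ≤ m) :
    ∃ q : Fin m → Fin n × Fin (2 * (10 * n ^ 2) + 1), (∀ i, |x i - zv n m q i| ≤ mesh n) ∧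
      ∃ i, 2 * ((n + 1) * mesh n) < |zv n m q i| := by
  have hn0 : (1 : ℝ) ≤ n := by exact_mod_cast hn
  obtain ⟨q, hq⟩ := net_approx hn x (fun i => by rw [← hx]; exact abs_le_nrm x i) hm
  refine ⟨q, hq, ?_⟩
  obtain ⟨i, hi⟩ := exists_coord hn x hx
  refine ⟨i, ?_⟩
  have h1 : |x i| - |zv n m q i| ≤ |x i - zv n m q i| := abs_sub_abs_le_abs_sub _ _
  have h2 := hq i
  have h3 : (2 * n + 3) * mesh n < 1 / n := by
    unfold mesh
    rw [mul_one_div, div_lt_div_iff₀ (by positivity) (by positivity)]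
    nlinarith
  nlinarith

/-- The rows which are almost orthogonal to `z`. -/
noncomputable def Sz {n : ℕ} (α β : ℝ) (z : Fin n → ℝ) : Finset (Fin n → Bool) :=
  univ.filter fun Y => |∑ k, val α β (Y k) * z k| ≤ (n + 1) * mesh n

theorem mem_Sz {n m : ℕ} (hn : 1 ≤ n) (α β : ℝ) (hα : |α| ≤ 1) (hβ : |β| ≤ 1)
    (x : Fin n → ℝ) (q : Fin m → Fin n × Fin (2 * (10 * n ^ 2) + 1))
    (hq : ∀ i, |x i - zv n m q i| ≤ mesh n) (Y : Fin n → Bool)
    (hY : |∑ k, val α β (Y k) * x k| ≤ mesh n) : Y ∈ Sz α β (zv n m q) := by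
  rw [Sz, mem_filter]
  refine ⟨mem_univ _, ?_⟩
  have ht := mesh_pos hn
  have e : ∑ k, val α β (Y k) * zv n m q k = ∑ k, val α β (Y k) * x k -
      ∑ k, val α β (Y k) * (x k - zv n m q k) := by
    rw [← sum_sub_distrib]
    exact sum_congr rfl fun k _ => by ring
  rw [e]
  have h1 : |∑ k, val α β (Y k) * (x k - zv n m q k)| ≤ n * mesh n := by
    calc |∑ k, val α β (Y k) * (x k - zv n m q k)|
        ≤ ∑ k, |val α β (Y k) * (x k - zv n m q k)| := abs_sum_le_sum_abs _ _
      _ ≤ ∑ _k : Fin n, mesh n := by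
        refine sum_le_sum fun k _ => ?_
        rw [abs_mul]
        have h2 : |val α β (Y k)| ≤ 1 := by
          unfold val; split_ifs
          · exact hβ
          · exact hα
        have := hq k
        nlinarith [abs_nonneg (x k - zv n m q k), abs_nonneg (val α β (Y k))]
      _ = n * mesh n := by simp
  calc |∑ k, val α β (Y k) * x k - ∑ k, val α β (Y k) * (x k - zv n m q k)|
      ≤ |∑ k, val α β (Y k) * x k| + |∑ k, val α β (Y k) * (x k - zv n m q k)| := abs_sub _ _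
    _ ≤ mesh n + n * mesh n := add_le_add hY h1
    _ = (n + 1) * mesh n := by ring

/-- The matrices whose rows except for row `i` are almost orthogonal to a nearly sparse
vector. -/
noncomputable def Bad2 (n m : ℕ) (α β : ℝ) (i : Fin n) : Set (Fin n → Fin n → Bool) :=
  {M | ∃ x : Fin n → ℝ, nrm x = 1 ∧ (big x).card ≤ m ∧
    ∀ j ≠ i, |∑ k, val α β (M j k) * x k| ≤ mesh n}

open Classical in
theorem bad2_card {n m : ℕ} (hn : 1 ≤ n) (α β : ℝ) (hα : |α| ≤ 1) (hβ : |β| ≤ 1)
    (hd : 1 ≤ β - α) (i : Fin n) :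
    2 ^ (n - 1) * (univ.filter fun M => M ∈ Bad2 n m α β i).card ≤
      (n * (2 * (10 * n ^ 2) + 1)) ^ m * 2 ^ (n * n) := by
  set Q : Finset (Fin m → Fin n × Fin (2 * (10 * n ^ 2) + 1)) :=
    univ.filter fun q => ∃ i, 2 * ((n + 1) * mesh n) < |zv n m q i| with hQ
  let P : (Fin m → Fin n × Fin (2 * (10 * n ^ 2) + 1)) → Finset (Fin n → Fin n → Bool) :=
    fun q => Fintype.piFinset fun j => if j = i then univ else Sz α β (zv n m q)
  have hsub : (univ.filter fun M => M ∈ Bad2 n m α β i) ⊆ Q.biUnion P := by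
    intro M hM
    rw [mem_filter] at hM
    obtain ⟨x, hx, hm, hj⟩ := hM.2
    obtain ⟨q, hq, hq'⟩ := net_vector hn x hx hm
    rw [mem_biUnion]
    refine ⟨q, by rw [hQ, mem_filter]; exact ⟨mem_univ _, hq'⟩, ?_⟩
    rw [Fintype.mem_piFinset]
    intro j
    split_ifs with h
    · exact mem_univ _
    · exact mem_Sz hn α β hα hβ x q hq _ (hj j h)
  have hP : ∀ q ∈ Q, 2 ^ (n - 1) * (P q).card ≤ 2 ^ (n * n) := by
    intro q hq
    rw [hQ, mem_filter] at hq
    obtain ⟨k, hk⟩ := hq.2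
    have h1 := half (zv n m q) α β ((n + 1) * mesh n) hd k hk
    rw [Fintype.card_fin] at h1
    have h2 : (P q).card = 2 ^ n * (Sz α β (zv n m q)).card ^ (n - 1) := by
      simp only [P]
      rw [Fintype.card_piFinset, ← mul_prod_erase univ _ (mem_univ i), if_pos rfl, card_univ,
        Fintype.card_fun, Fintype.card_bool, Fintype.card_fin]
      congr 1
      rw [prod_congr rfl (fun j hj => by rw [if_neg (ne_of_mem_erase hj)]), prod_const,
        card_erase_of_mem (mem_univ i), card_univ, Fintype.card_fin]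
    rw [h2]
    calc 2 ^ (n - 1) * (2 ^ n * (Sz α β (zv n m q)).card ^ (n - 1))
        = 2 ^ n * (2 * (Sz α β (zv n m q)).card) ^ (n - 1) := by rw [mul_pow]; ring
      _ ≤ 2 ^ n * (2 ^ n) ^ (n - 1) := Nat.mul_le_mul_left _ (Nat.pow_le_pow_left h1 _)
      _ = 2 ^ (n * n) := by
        rw [← pow_mul, ← pow_add]
        congr 1
        obtain ⟨l, rfl⟩ : ∃ l, n = l + 1 := ⟨n - 1, by omega⟩
        simp; ring
  calc 2 ^ (n - 1) * (univ.filter fun M => M ∈ Bad2 n m α β i).card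
      ≤ 2 ^ (n - 1) * ∑ q ∈ Q, (P q).card :=
        Nat.mul_le_mul_left _ ((card_le_card hsub).trans card_biUnion_le)
    _ = ∑ q ∈ Q, 2 ^ (n - 1) * (P q).card := mul_sum _ _ _
    _ ≤ ∑ _q ∈ Q, 2 ^ (n * n) := sum_le_sum hP
    _ = Q.card * 2 ^ (n * n) := by simp
    _ ≤ _ := by
      refine Nat.mul_le_mul_right _ ?_
      refine (card_le_univ Q).trans ?_
      rw [Fintype.card_fun, Fintype.card_prod, Fintype.card_fin, Fintype.card_fin,
        Fintype.card_fin]

end Pool.Agent.Q225.PK
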