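import Pool.Agent.Q225.PK.Gauss
import Pool.Agent.Q225.PK.Main

set_option autoImplicit false

/-!
# Most matrices are well invertible
-/

namespace Pool.Agent.Q225.PK

open MeasureTheory ProbabilityTheory Set Matrix Filter Topology

/-- The good matrices. -/
def Good (n : ℕ) : Set (Matrix (Fin n) (Fin n) ℝ) :=
  {A | 2 ≤ n ∧ absSum A ≤ (n : ℝ) ^ 4 ∧ ∀ v, nrm v ≤ 400 * (n : ℝ) ^ 4 * nrm (A *ᵥ v)}

theorem limit1 : Tendsto (fun n : ℕ => ((n : ℝ) + 1) *
    (n * (2 * (10 * (n : ℝ) ^ 2) + 1)) ^ (⌊(n : ℝ) ^ (3 / 4 : ℝ)⌋₊) / 2 ^ (n - 1) +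
    n / ((⌊(n : ℝ) ^ (3 / 4 : ℝ)⌋₊ : ℝ) * √(⌊(n : ℝ) ^ (3 / 4 : ℝ)⌋₊ : ℝ))) atTop (𝓝 0) := by
  have hy : Tendsto (fun n : ℕ => (n : ℝ) ^ (1 / 8 : ℝ)) atTop atTop :=
    (tendsto_rpow_atTop (by norm_num)).comp tendsto_natCast_atTop_atTop
  have h1 : Tendsto (fun n : ℕ => Real.exp (-((n : ℝ) ^ (1 / 8 : ℝ))) + 3 / (n : ℝ) ^ (1 / 8 : ℝ))
      atTop (𝓝 0) := by
    have e1 := Real.tendsto_exp_neg_atTop_nhds_zero.comp hy
    have e2 : Tendsto (fun n : ℕ => 3 / (n : ℝ) ^ (1 / 8 : ℝ)) atTop (𝓝 0) :=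
      Tendsto.div_atTop tendsto_const_nhds hy
    simpa using e1.add e2
  refine squeeze_zero' ?_ ?_ h1
  · filter_upwards with n
    positivity
  · filter_upwards [hy.eventually_ge_atTop 80, eventually_ge_atTop 1] with n hn hn1
    set y : ℝ := (n : ℝ) ^ (1 / 8 : ℝ) with hydef
    have hn0 : (0 : ℝ) ≤ n := Nat.cast_nonneg n
    have hy1 : (1 : ℝ) ≤ y := by linarith
    have hy8 : y ^ 8 = n := by
      rw [hydef, ← Real.rpow_natCast, ← Real.rpow_mul hn0]; norm_num
    have hx : (n : ℝ) ^ (3 / 4 : ℝ) = y ^ 6 := by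
      rw [hydef, ← Real.rpow_natCast, ← Real.rpow_mul hn0]; norm_num
    rw [hx]
    set m := ⌊y ^ 6⌋₊ with hm
    have hm1 : (m : ℝ) ≤ y ^ 6 := Nat.floor_le (by positivity)
    have hm2 : y ^ 6 < m + 1 := Nat.lt_floor_add_one _
    have hy6 : 2 ≤ y ^ 6 := by
      calc (2 : ℝ) ≤ 80 ^ 6 := by norm_num
        _ ≤ y ^ 6 := pow_le_pow_left₀ (by norm_num) hn 6
    have hm3 : y ^ 6 / 2 ≤ m := by linarith
    refine add_le_add ?_ ?_
    · -- the exponential part
      have hb : (n : ℝ) * (2 * (10 * (n : ℝ) ^ 2) + 1) ≤ Real.exp (4 + 24 * y) := by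
        have h2 : (n : ℝ) * (2 * (10 * (n : ℝ) ^ 2) + 1) ≤ 21 * y ^ 24 := by
          rw [← hy8]
          have h3 : y ^ 8 ≤ y ^ 24 := pow_le_pow_right₀ hy1 (by norm_num)
          have : y ^ 8 * (2 * (10 * (y ^ 8) ^ 2) + 1) = 20 * y ^ 24 + y ^ 8 := by ring
          rw [this]; linarith
        have h3 : y ^ 24 ≤ Real.exp (24 * y) := by
          have : y ≤ Real.exp y := by have := Real.add_one_le_exp y; linarith
          calc y ^ 24 ≤ Real.exp y ^ 24 := pow_le_pow_left₀ (by linarith) this 24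
            _ = Real.exp (24 * y) := by rw [← Real.exp_nat_mul]; norm_num
        have h4 : (21 : ℝ) ≤ Real.exp 4 := by
          have h5 : (2.7182818283 : ℝ) < Real.exp 1 := Real.exp_one_gt_d9
          calc (21 : ℝ) ≤ 2.7182818283 ^ 4 := by norm_num
            _ ≤ Real.exp 1 ^ 4 := pow_le_pow_left₀ (by norm_num) h5.le 4
            _ = Real.exp 4 := by rw [← Real.exp_nat_mul]; norm_num
        calc _ ≤ 21 * y ^ 24 := h2
          _ ≤ Real.exp 4 * Real.exp (24 * y) := mul_le_mul h4 h3 (by positivity) (Real.exp_pos _).le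
          _ = _ := (Real.exp_add _ _).symm
      have hb2 : ((n : ℝ) * (2 * (10 * (n : ℝ) ^ 2) + 1)) ^ m ≤ Real.exp (28 * y ^ 7) := by
        calc _ ≤ Real.exp (4 + 24 * y) ^ m := pow_le_pow_left₀ (by positivity) hb m
          _ = Real.exp (m * (4 + 24 * y)) := by rw [← Real.exp_nat_mul]
          _ ≤ Real.exp (28 * y ^ 7) := by
            apply Real.exp_le_exp.mpr
            calc (m : ℝ) * (4 + 24 * y) ≤ y ^ 6 * (28 * y) :=
                  mul_le_mul hm1 (by linarith) (by positivity) (by positivity)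
              _ = 28 * y ^ 7 := by ring
      have hb3 : (n : ℝ) + 1 ≤ Real.exp (9 * y ^ 7) := by
        have h2 : (n : ℝ) + 1 ≤ y ^ 9 := by
          rw [← hy8]
          have : (1 : ℝ) ≤ y ^ 8 := one_le_pow₀ hy1
          have : y ^ 9 = y ^ 8 * y := by ring
          nlinarith
        have h3 : y ^ 9 ≤ Real.exp (9 * y) := by
          have : y ≤ Real.exp y := by have := Real.add_one_le_exp y; linarith
          calc y ^ 9 ≤ Real.exp y ^ 9 := pow_le_pow_left₀ (by linarith) this 9
            _ = Real.exp (9 * y) := by rw [← Real.exp_nat_mul]; norm_num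
        refine h2.trans (h3.trans (Real.exp_le_exp.mpr ?_))
        have : y ≤ y ^ 7 := by
          calc y = y ^ 1 := (pow_one y).symm
            _ ≤ y ^ 7 := pow_le_pow_right₀ hy1 (by norm_num)
        linarith
      have hb4 : Real.exp ((y ^ 8 - 1) / 2) ≤ 2 ^ (n - 1) := by
        have h2 : Real.exp (1 / 2) ≤ 2 := by
          have h5 : Real.exp 1 < 2.7182818286 := Real.exp_one_lt_d9
          have h6 : Real.exp (1 / 2) ^ 2 ≤ 2 ^ 2 := by
            rw [← Real.exp_nat_mul]
            norm_num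
            linarith
          exact le_of_sq_le_sq h6 (by norm_num)
        calc Real.exp ((y ^ 8 - 1) / 2) = Real.exp (1 / 2) ^ (n - 1) := by
              rw [← Real.exp_nat_mul, hy8, Nat.cast_sub hn1]
              congr 1
              push_cast
              ring
          _ ≤ 2 ^ (n - 1) := pow_le_pow_left₀ (Real.exp_pos _).le h2 _
      rw [div_le_iff₀ (by positivity)]
      calc ((n : ℝ) + 1) * (n * (2 * (10 * (n : ℝ) ^ 2) + 1)) ^ m
          ≤ Real.exp (9 * y ^ 7) * Real.exp (28 * y ^ 7) :=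
            mul_le_mul hb3 hb2 (by positivity) (Real.exp_pos _).le
        _ = Real.exp (37 * y ^ 7) := by rw [← Real.exp_add]; ring_nf
        _ ≤ Real.exp (-y + (y ^ 8 - 1) / 2) := by
          apply Real.exp_le_exp.mpr
          have h7 : y ≤ y ^ 7 := by
            calc y = y ^ 1 := (pow_one y).symm
              _ ≤ y ^ 7 := pow_le_pow_right₀ hy1 (by norm_num)
          have h8 : y ^ 8 = y * y ^ 7 := by ring
          have h9 : 80 * y ^ 7 ≤ y * y ^ 7 := mul_le_mul_of_nonneg_right hn (by positivity)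
          rw [h8]; linarith
        _ = Real.exp (-y) * Real.exp ((y ^ 8 - 1) / 2) := Real.exp_add _ _
        _ ≤ Real.exp (-y) * 2 ^ (n - 1) := mul_le_mul_of_nonneg_left hb4 (Real.exp_pos _).le
    · -- the spread part
      have hm0 : (0 : ℝ) < m := by linarith
      have h2 : y ^ 3 / 3 * 2 ≤ √(m : ℝ) := by
        refine Real.le_sqrt_of_sq_le ?_
        have e6 : (y ^ 3 / 3 * 2) ^ (2 : ℕ) = y ^ 6 * (4 / 9) := by ring
        rw [e6]
        nlinarith
      have h3 : y ^ 9 / 3 ≤ m * √(m : ℝ) := by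
        calc y ^ 9 / 3 = (y ^ 6 / 2) * (y ^ 3 / 3 * 2) := by ring
          _ ≤ m * √(m : ℝ) := mul_le_mul hm3 h2 (by positivity) hm0.le
      calc (n : ℝ) / (m * √(m : ℝ)) ≤ n / (y ^ 9 / 3) :=
            div_le_div_of_nonneg_left hn0 (by positivity) h3
        _ = 3 / y := by rw [← hy8]; field_simp

/-- The fraction of the good matrices among the matrices with two values. -/
noncomputable def frac (α β : ℝ) (n : ℕ) (S : Set (Matrix (Fin n) (Fin n) ℝ)) : ℝ :=
  (Set.ncard {M : Fin n → Fin n → Bool | matV α β M ∈ S} : ℝ) / 2 ^ (n * n)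

theorem good_of_not_bad {n : ℕ} (hn : 2 ≤ n) (α β : ℝ) (hα : |α| ≤ 1) (hβ : |β| ≤ 1)
    (M : Fin n → Fin n → Bool) (h : M ∉ BadAll n α β) : matV α β M ∈ Good n := by
  have hn0 : (2 : ℝ) ≤ n := by exact_mod_cast hn
  refine ⟨hn, ?_, ?_⟩
  · calc absSum (matV α β M) ≤ ∑ _i : Fin n, ∑ _j : Fin n, (1 : ℝ) := by
          refine Finset.sum_le_sum fun i _ => Finset.sum_le_sum fun j _ => ?_
          simp only [matV, Matrix.of_apply, val]
          split_ifs
          · exact hβ
          · exact hα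
      _ = (n : ℝ) ^ 2 := by simp; ring
      _ ≤ (n : ℝ) ^ 4 := pow_le_pow_right₀ (by linarith) (by norm_num)
  · have hs : 0 < mesh n ^ 2 / 4 := by have := mesh_pos (n := n) (by omega); positivity
    have h1 := lower_of_transpose (matV α β M) (mesh n ^ 2 / 4) hs (fun w hw => by
      by_contra hcon
      push Not at hcon
      exact h ⟨w, hw, hcon⟩)
    intro v
    have h2 := h1 v
    have e : mesh n ^ 2 / 4 = 1 / (400 * (n : ℝ) ^ 4) := by
      unfold mesh; field_simp; ring
    rw [e, one_div, inv_mul_le_iff₀ (by positivity)] at h2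
    exact h2

theorem frac_tendsto (α β : ℝ) (hα : |α| ≤ 1) (hβ : |β| ≤ 1) (hd : 1 ≤ β - α) :
    Tendsto (fun n => frac α β n (Good n)) atTop (𝓝 1) := by
  classical
  have hlow : Tendsto (fun n : ℕ => 1 - (((n : ℝ) + 1) *
    (n * (2 * (10 * (n : ℝ) ^ 2) + 1)) ^ (⌊(n : ℝ) ^ (3 / 4 : ℝ)⌋₊) / 2 ^ (n - 1) +
    n / ((⌊(n : ℝ) ^ (3 / 4 : ℝ)⌋₊ : ℝ) * √(⌊(n : ℝ) ^ (3 / 4 : ℝ)⌋₊ : ℝ)))) atTop (𝓝 1) := by
    simpa using limit1.const_sub 1
  have hN : ∀ n : ℕ, (Fintype.card (Fin n → Fin n → Bool) : ℝ) = 2 ^ (n * n) := by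
    intro n
    rw [Fintype.card_fun, Fintype.card_fun, Fintype.card_bool, Fintype.card_fin, ← pow_mul]
    push_cast
    rfl
  have hcard : ∀ n, (Set.ncard {M : Fin n → Fin n → Bool | matV α β M ∈ Good n} : ℝ) =
      ((Finset.univ.filter fun M : Fin n → Fin n → Bool => matV α β M ∈ Good n).card : ℝ) := by
    intro n
    rw [← Set.ncard_coe_finset]
    congr 2
    ext M
    simp
  refine tendsto_of_tendsto_of_tendsto_of_le_of_le' hlow tendsto_const_nhds ?_ ?_
  · filter_upwards [eventually_ge_atTop 2] with n hn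
    set m := ⌊(n : ℝ) ^ (3 / 4 : ℝ)⌋₊ with hm
    have hm1 : 1 ≤ m := by
      rw [hm, Nat.one_le_floor_iff]
      exact Real.one_le_rpow (by exact_mod_cast (by omega : 1 ≤ n)) (by norm_num)
    have hb := badAll_card (m := m) (by omega : 1 ≤ n) hm1 α β hα hβ hd
    rw [frac, hcard, le_div_iff₀ (by positivity)]
    have h1 : (Finset.univ : Finset (Fin n → Fin n → Bool)) ⊆
        (Finset.univ.filter fun M => matV α β M ∈ Good n) ∪
        (Finset.univ.filter fun M => M ∈ BadAll n α β) := by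
      intro M _
      rw [Finset.mem_union, Finset.mem_filter, Finset.mem_filter]
      by_cases h : M ∈ BadAll n α β
      · exact Or.inr ⟨Finset.mem_univ _, h⟩
      · exact Or.inl ⟨Finset.mem_univ _, good_of_not_bad hn α β hα hβ M h⟩
    have h2 : (Fintype.card (Fin n → Fin n → Bool) : ℝ) ≤
        ((Finset.univ.filter fun M : Fin n → Fin n → Bool => matV α β M ∈ Good n).card : ℝ) +
        ((Finset.univ.filter fun M : Fin n → Fin n → Bool => M ∈ BadAll n α β).card : ℝ) := by
      have := (Finset.card_le_card h1).trans (Finset.card_union_le _ _)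
      rw [Finset.card_univ] at this
      exact_mod_cast this
    rw [hN] at h2
    nlinarith
  · filter_upwards with n
    rw [frac, hcard, div_le_one (by positivity), ← hN]
    exact_mod_cast Finset.card_le_univ _

theorem good_closed (n : ℕ) : IsClosed {M : Fin n → Fin n → ℝ | Matrix.of M ∈ Good n} := by
  by_cases hn : 2 ≤ n
  · have e : {M : Fin n → Fin n → ℝ | Matrix.of M ∈ Good n} =
        {M | ∑ i, ∑ j, |M i j| ≤ (n : ℝ) ^ 4} ∩
        ⋂ v : Fin n → ℝ, {M | nrm v ≤ 400 * (n : ℝ) ^ 4 * nrm (Matrix.of M *ᵥ v)} := by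
      ext M
      simp only [Good, Set.mem_ofPred_eq, Set.mem_inter_iff, Set.mem_iInter, absSum,
        Matrix.of_apply]
      exact ⟨fun h => ⟨h.2.1, h.2.2⟩, fun h => ⟨hn, h.1, h.2⟩⟩
    rw [e]
    refine IsClosed.inter (isClosed_le (by fun_prop) continuous_const) (isClosed_iInter fun v => ?_)
    refine isClosed_le continuous_const (continuous_const.mul (nrm_cont.comp ?_))
    refine continuous_pi fun i => ?_
    simp only [mulVec, dotProduct, Matrix.of_apply]
    fun_prop
  · have e : {M : Fin n → Fin n → ℝ | Matrix.of M ∈ Good n} = ∅ := by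
      ext M
      simp only [Good, Set.mem_ofPred_eq, Set.mem_empty_iff_false, iff_false]
      exact fun h => hn h.1
    rw [e]
    exact isClosed_empty

theorem gauss_good {l : ℕ} (hl : 1 ≤ l) :
    1 - 2 / ((l + 1 : ℕ) : ℝ) ≤ (gmat (l + 1) {M | Matrix.of M ∈ Good (l + 1)}).toReal := by
  have hn0 : (2 : ℝ) ≤ ((l + 1 : ℕ) : ℝ) := by exact_mod_cast (by omega : 2 ≤ l + 1)
  set N : ℝ := ((l + 1 : ℕ) : ℝ) with hN
  set s : ℝ := 1 / (400 * N ^ 4) with hs
  have hs0 : 0 < s := by positivity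
  set G := {M : Fin (l + 1) → Fin (l + 1) → ℝ | Matrix.of M ∈ Good (l + 1)} with hG
  set B := (⋃ i : Fin (l + 1), BadG (l + 1) s i) ∪
    ⋃ i : Fin (l + 1), ⋃ j : Fin (l + 1), {M : Fin (l + 1) → Fin (l + 1) → ℝ | N ^ 2 ≤ |M i j|}
    with hB
  have hsub : Gᶜ ⊆ B := by
    intro M hM
    by_contra hcon
    apply hM
    rw [hB, Set.mem_union, not_or, Set.mem_iUnion, Set.mem_iUnion] at hcon
    obtain ⟨h1, h2⟩ := hcon
    push Not at h1 h2
    have h2' : ∀ i j, |M i j| ≤ N ^ 2 := by
      intro i j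
      have h3 := h2 i
      rw [Set.mem_iUnion] at h3
      push Not at h3
      have h4 := h3 j
      rw [Set.mem_ofPred_eq, not_le] at h4
      exact h4.le
    refine ⟨by omega, ?_, ?_⟩
    · calc absSum (Matrix.of M) ≤ ∑ _i : Fin (l + 1), ∑ _j : Fin (l + 1), N ^ 2 :=
            Finset.sum_le_sum fun i _ => Finset.sum_le_sum fun j _ => h2' i j
        _ = N ^ 4 := by
            rw [Finset.sum_const, Finset.sum_const, Finset.card_univ, Fintype.card_fin,
              nsmul_eq_mul, nsmul_eq_mul, ← hN]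
            ring
    · have h3 := lower_of_transpose (Matrix.of M) s hs0 (fun w hw => by
        by_contra hc
        push Not at hc
        obtain ⟨i, hi⟩ := exists_coord (by omega) w hw
        exact h1 i ⟨w, hw, hi, hc⟩)
      intro v
      have h4 := h3 v
      rw [hs, one_div, inv_mul_le_iff₀ (by positivity)] at h4
      exact h4
  have hmB : gmat (l + 1) B ≤ ENNReal.ofReal (2 / N) := by
    have hb1 : gmat (l + 1) (⋃ i : Fin (l + 1), BadG (l + 1) s i) ≤
        ENNReal.ofReal (N * (s * N * N)) := by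
      calc _ ≤ ∑ i : Fin (l + 1), gmat (l + 1) (BadG (l + 1) s i) := measure_iUnion_fintype_le _ _
        _ ≤ ∑ _i : Fin (l + 1), ENNReal.ofReal (s * N * N) :=
            Finset.sum_le_sum fun i _ => badG_measure s hs0.le i
        _ = ENNReal.ofReal (N * (s * N * N)) := by
            rw [Finset.sum_const, Finset.card_univ, Fintype.card_fin, nsmul_eq_mul,
              ← ENNReal.ofReal_natCast, ← hN, ← ENNReal.ofReal_mul (by positivity)]
    have hb2 : gmat (l + 1) (⋃ i : Fin (l + 1), ⋃ j : Fin (l + 1),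
        {M : Fin (l + 1) → Fin (l + 1) → ℝ | N ^ 2 ≤ |M i j|}) ≤
        ENNReal.ofReal (N * (N * (1 / (N ^ 2) ^ 2))) := by
      calc _ ≤ ∑ i : Fin (l + 1), gmat (l + 1) (⋃ j : Fin (l + 1),
            {M : Fin (l + 1) → Fin (l + 1) → ℝ | N ^ 2 ≤ |M i j|}) := measure_iUnion_fintype_le _ _
        _ ≤ ∑ _i : Fin (l + 1), ∑ _j : Fin (l + 1), ENNReal.ofReal (1 / (N ^ 2) ^ 2) :=
            Finset.sum_le_sum fun i _ => (measure_iUnion_fintype_le _ _).trans
              (Finset.sum_le_sum fun j _ => gmat_tail _ (by positivity) i j)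
        _ = _ := by
            rw [Finset.sum_const, Finset.sum_const, Finset.card_univ, Fintype.card_fin,
              nsmul_eq_mul, nsmul_eq_mul, ← ENNReal.ofReal_natCast, ← hN,
              ← ENNReal.ofReal_mul (by positivity), ← ENNReal.ofReal_mul (by positivity)]
    calc gmat (l + 1) B ≤ ENNReal.ofReal (N * (s * N * N)) +
          ENNReal.ofReal (N * (N * (1 / (N ^ 2) ^ 2))) :=
          (measure_union_le _ _).trans (add_le_add hb1 hb2)
      _ = ENNReal.ofReal (N * (s * N * N) + N * (N * (1 / (N ^ 2) ^ 2))) :=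
          (ENNReal.ofReal_add (by positivity) (by positivity)).symm
      _ ≤ ENNReal.ofReal (2 / N) := by
          refine ENNReal.ofReal_le_ofReal ?_
          have e1 : N * (s * N * N) = 1 / (400 * N) := by rw [hs]; field_simp
          have e2 : N * (N * (1 / (N ^ 2) ^ 2)) = 1 / (N * N) := by field_simp
          rw [e1, e2]
          have h5 : 1 / (400 * N) ≤ 1 / N := one_div_le_one_div_of_le (by positivity) (by linarith)
          have h6 : 1 / (N * N) ≤ 1 / N := one_div_le_one_div_of_le (by positivity) (by nlinarith)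
          have h7 : 2 / N = 1 / N + 1 / N := by ring
          linarith
  have hmeas : MeasurableSet G := (good_closed (l + 1)).measurableSet
  have h8 : (gmat (l + 1) Gᶜ).toReal ≤ 2 / N := by
    have := ENNReal.toReal_mono ENNReal.ofReal_ne_top ((measure_mono hsub).trans hmB)
    rwa [ENNReal.toReal_ofReal (by positivity)] at this
  have h9 : (gmat (l + 1) Gᶜ).toReal = 1 - (gmat (l + 1) G).toReal := by
    have := probReal_compl_eq_one_sub (μ := gmat (l + 1)) hmeas
    exact this
  linarith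

theorem gauss_tendsto :
    Tendsto (fun n => (gmat n {M | Matrix.of M ∈ Good n}).toReal) atTop (𝓝 1) := by
  have hlow : Tendsto (fun n : ℕ => 1 - 2 / (n : ℝ)) atTop (𝓝 1) := by
    have : Tendsto (fun n : ℕ => 2 / (n : ℝ)) atTop (𝓝 0) :=
      Tendsto.div_atTop tendsto_const_nhds tendsto_natCast_atTop_atTop
    simpa using this.const_sub 1
  refine tendsto_of_tendsto_of_tendsto_of_le_of_le' hlow tendsto_const_nhds ?_ ?_
  · filter_upwards [eventually_ge_atTop 2] with n hn
    obtain ⟨l, rfl⟩ : ∃ l, n = l + 1 := ⟨n - 1, by omega⟩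
    exact gauss_good (by omega)
  · filter_upwards with n
    have := prob_le_one (μ := gmat n) (s := {M | Matrix.of M ∈ Good n})
    exact ENNReal.toReal_le_of_le_ofReal zero_le_one (by simpa using this)

end Pool.Agent.Q225.PK
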