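import Pool.Agent.Q225.PK.Basic

set_option autoImplicit false

/-!
# Rounding to the nearest integer by comparisons
-/

namespace Pool.Agent.Q225.PK

/-- The cell `(0, 0)` of array number `k`. -/
def sc (k : ℕ) : Loc := ⟨k, .lit 0, .lit 0⟩

theorem run_seq (c d : Cmd) (e : ℕ → ℕ) (m : Mem) :
    run (.seq c d) e m = run d e (run c e m) := rfl

/-- Multiply the cell `(0, 0)` of array `a` by `2 ^ w`. -/
def dbl (a : ℕ) (w : IE) : Cmd := .loop 9 w (.add (sc a) (sc a) (sc a))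

theorem run_dbl (a : ℕ) (w : IE) (e : ℕ → ℕ) (m : Mem) :
    run (dbl a w) e m a 0 0 = 2 ^ (w.eval e) * m a 0 0 := by
  unfold dbl
  refine loop_inv (fun i m' => m' a 0 0 = 2 ^ i * m a 0 0) (by simp) ?_
  intro i _ m' h
  simp only [run, wr, sc, rd, IE.eval, and_self, if_true]
  rw [h]
  ring

theorem dbl_frame (a : ℕ) (w : IE) (e : ℕ → ℕ) (m : Mem) (b : ℕ) (h : b ≠ a) :
    run (dbl a w) e m b = m b :=
  frame _ _ _ _ (by simpa [dbl, mods, sc] using h)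

/-- The body of the loop which extracts the binary digits. -/
def extBody : Cmd :=
  .seq (.div (sc 12) (sc 12) (sc 13))
    (.cond (sc 12) (sc 14)
      (.seq (.sub (sc 14) (sc 14) (sc 12)) (.add (sc 15) (sc 15) (sc 12))) .skip)

theorem run_ext (w : IE) (e : ℕ → ℕ) (m : Mem) (y : ℝ)
    (h13 : m 13 0 0 = 2) (h12 : m 12 0 0 = 2 ^ (w.eval e)) (h14 : m 14 0 0 = y)
    (h15 : m 15 0 0 = 0) (hy : 0 ≤ y) (hy' : y < 2 ^ (w.eval e)) :
    run (.loop 9 w extBody) e m 15 0 0 = (⌊y⌋ : ℤ) := by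
  have key := loop_inv (v := 9) (N := w) (c := extBody) (e := e) (m := m)
    (fun i m' => m' 13 0 0 = 2 ∧ m' 12 0 0 = 2 ^ (w.eval e) / 2 ^ i ∧
      ∃ q : ℕ, m' 15 0 0 = q * (2 ^ (w.eval e) / 2 ^ i) ∧ m' 14 0 0 = y - m' 15 0 0 ∧
        0 ≤ m' 14 0 0 ∧ m' 14 0 0 < 2 ^ (w.eval e) / 2 ^ i)
    ⟨h13, by simpa using h12, 0, by simp [h15], by simp [h14, h15], by rw [h14]; exact hy,
      by rw [h14]; simpa using hy'⟩ ?_
  · obtain ⟨-, -, q, hq, h1, h2, h3⟩ := key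
    have hne : (2 : ℝ) ^ (w.eval e) / 2 ^ (w.eval e) = 1 := by
      rw [div_self]; positivity
    rw [hne] at hq h3
    rw [hq] at h1 ⊢
    have : ⌊y⌋ = (q : ℤ) := by
      rw [Int.floor_eq_iff]
      push_cast
      constructor <;> linarith
    rw [this]
    push_cast
    ring
  · rintro i - m' ⟨g13, g12, q, g15, g14, g0, g1⟩
    have hhalf : (2 : ℝ) ^ (w.eval e) / 2 ^ (i + 1) = 2 ^ (w.eval e) / 2 ^ i / 2 := by
      rw [pow_succ]; field_simp
    set z : ℝ := 2 ^ (w.eval e) / 2 ^ i with hz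
    by_cases hc : z / 2 ≤ m' 14 0 0
    · simp [extBody, run, wr, sc, rd, IE.eval, g13, g12, g15, hhalf, hc]
      refine ⟨⟨2 * q + 1, ?_⟩, ?_, ?_⟩
      · push_cast; ring
      · rw [g14, g15]; ring
      · linarith
    · simp [extBody, run, wr, sc, rd, IE.eval, g13, g12, g15, hhalf, hc]
      refine ⟨⟨2 * q, ?_⟩, ?_, ?_, ?_⟩
      · push_cast; ring
      · rw [g14, g15]
      · exact g0
      · exact not_le.mp hc

/-- Rounding: cell 11 := the integer nearest to cell 10. -/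
def rndCmd (w : IE) : Cmd :=
  .seq (.seq (.one (sc 17)) (.seq (.add (sc 13) (sc 17) (sc 17)) (.copy (sc 12) (sc 17)))) <|
  .seq (dbl 12 w) <|
  .seq (.seq (.copy (sc 16) (sc 12)) <| .seq (.add (sc 14) (sc 10) (sc 12)) <|
    .seq (.div (sc 17) (sc 17) (sc 13)) <| .seq (.add (sc 14) (sc 14) (sc 17)) <|
    .seq (.add (sc 12) (sc 12) (sc 12)) (.zero (sc 15))) <|
  .seq (.loop 9 (.add w (.lit 1)) extBody) <|
    .sub (sc 11) (sc 15) (sc 16)

/-- The integer nearest to `y`. -/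
noncomputable def rnd (y : ℝ) : ℤ := ⌊y + 1 / 2⌋

theorem run_rnd (w : IE) (e : ℕ → ℕ) (m : Mem)
    (h1 : |m 10 0 0| ≤ 2 ^ (w.eval e) - 1) :
    run (rndCmd w) e m 11 0 0 = (rnd (m 10 0 0) : ℤ) := by
  unfold rndCmd
  rw [run_seq, run_seq, run_seq, run_seq]
  set m1 := run (.seq (.one (sc 17)) (.seq (.add (sc 13) (sc 17) (sc 17))
    (.copy (sc 12) (sc 17)))) e m with hm1
  have a1 : m1 17 0 0 = 1 ∧ m1 13 0 0 = 2 ∧ m1 12 0 0 = 1 ∧ m1 10 0 0 = m 10 0 0 := by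
    simp [hm1, run, wr, sc, rd, IE.eval]
    norm_num
  set m2 := run (dbl 12 w) e m1 with hm2
  have a2 : m2 17 0 0 = 1 ∧ m2 13 0 0 = 2 ∧ m2 12 0 0 = 2 ^ (w.eval e) ∧
      m2 10 0 0 = m 10 0 0 := by
    refine ⟨?_, ?_, ?_, ?_⟩
    · rw [hm2, dbl_frame _ _ _ _ _ (by norm_num)]; exact a1.1
    · rw [hm2, dbl_frame _ _ _ _ _ (by norm_num)]; exact a1.2.1
    · rw [hm2, run_dbl, a1.2.2.1]; ring
    · rw [hm2, dbl_frame _ _ _ _ _ (by norm_num)]; exact a1.2.2.2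
  clear_value m1 m2
  set m3 := run (.seq (.copy (sc 16) (sc 12)) <| .seq (.add (sc 14) (sc 10) (sc 12)) <|
    .seq (.div (sc 17) (sc 17) (sc 13)) <| .seq (.add (sc 14) (sc 14) (sc 17)) <|
    .seq (.add (sc 12) (sc 12) (sc 12)) (.zero (sc 15))) e m2 with hm3
  obtain ⟨b17, b13, b12, b10⟩ := a2
  have a3 : m3 13 0 0 = 2 ∧ m3 12 0 0 = 2 ^ (w.eval e + 1) ∧
      m3 14 0 0 = m 10 0 0 + 2 ^ (w.eval e) + 1 / 2 ∧ m3 15 0 0 = 0 ∧
      m3 16 0 0 = 2 ^ (w.eval e) := by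
    simp [hm3, run, wr, sc, rd, IE.eval, b17, b13, b12, b10]
    ring
  clear_value m3
  obtain ⟨c13, c12, c14, c15, c16⟩ := a3
  have hev : (IE.add w (.lit 1)).eval e = w.eval e + 1 := rfl
  have hab := abs_le.mp h1
  have h := run_ext (.add w (.lit 1)) e m3 (m 10 0 0 + 2 ^ (w.eval e) + 1 / 2) c13
    (by rw [hev]; exact c12) c14 c15 (by linarith [hab.1])
    (by rw [hev, pow_succ]; linarith [hab.2])
  set m4 := run (.loop 9 (.add w (.lit 1)) extBody) e m3 with hm4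
  have h16 : m4 16 0 0 = 2 ^ (w.eval e) := by
    rw [hm4, frame _ 16 _ _ (by simp [mods, extBody, sc])]
    exact c16
  clear_value m4
  simp only [run, wr, sc, rd, IE.eval, and_self, if_true]
  rw [h, h16]
  have : ⌊m 10 0 0 + 2 ^ (w.eval e) + 1 / 2⌋ = rnd (m 10 0 0) + 2 ^ (w.eval e) := by
    rw [rnd, show m 10 0 0 + 2 ^ (w.eval e) + 1 / 2 =
      (m 10 0 0 + 1 / 2) + ((2 ^ (w.eval e) : ℤ) : ℝ) by push_cast; ring, Int.floor_add_intCast]
  rw [this]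
  push_cast
  ring

theorem rnd_err (y : ℝ) : |(rnd y : ℝ) - y| ≤ 1 / 2 := by
  unfold rnd
  have h1 := Int.floor_le (y + 1 / 2)
  have h2 := Int.lt_floor_add_one (y + 1 / 2)
  rw [abs_le]
  constructor <;> linarith

theorem rnd_eq (y : ℝ) (z : ℤ) (h : |y - z| < 1 / 2) : rnd y = z := by
  unfold rnd
  rw [Int.floor_eq_iff]
  have := abs_lt.mp h
  constructor <;> linarith

theorem rnd_mods (w : IE) : mods (rndCmd w) = [17, 13, 12, 12, 16, 14, 17, 14, 12, 15, 12, 14, 15, 11] := by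
  simp [rndCmd, mods, sc, dbl, extBody]

theorem rnd_ub (w : IE) (e : ℕ → ℕ) (W : ℕ) (hw : ∀ f : ℕ → ℕ, (∀ v, v ≠ 9 → f v = e v) → w.eval f = W) :
    ub (rndCmd w) e ≤ 10 * W + 30 := by
  have h1 : ub (dbl 12 w) e ≤ 1 + W * (1 + 1) := by
    have h := ub_loop_le 9 w (.add (sc 12) (sc 12) (sc 12)) e 1 (by intro i _; simp [ub])
    rw [hw e (fun _ _ => rfl)] at h
    exact h
  have h2 : ub (.loop 9 (.add w (.lit 1)) extBody) e ≤ 1 + (W + 1) * (1 + 5) := by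
    have h := ub_loop_le 9 (.add w (.lit 1)) extBody e 5 (by intro i _; simp [ub, extBody])
    simp only [IE.eval] at h
    rw [hw e (fun _ _ => rfl)] at h
    exact h
  simp only [rndCmd, ub] at *
  omega

end Pool.Agent.Q225.PK
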