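import Pool.Agent.Q225.PK.Fill

set_option autoImplicit false

/-!
# The program: preparation, iteration, tests
-/

namespace Pool.Agent.Q225.PK

open Finset

/-- The rounded scaled matrix. -/
noncomputable def Gt (a : ℕ → ℕ → ℝ) (s p : ℝ) (i j : ℕ) : ℤ := rnd (a i j / s * p)

/-- The first matrix of the iteration. -/
noncomputable def Z0 (a : ℕ → ℕ → ℝ) (s p : ℝ) (n i l : ℕ) : ℤ :=
  rnd (((∑ j ∈ range n, Gt a s p j i * Gt a s p j l : ℤ) : ℝ) / p)

/-- The matrices of the iteration. -/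
noncomputable def Rk (a : ℕ → ℕ → ℝ) (s : ℝ) (n P : ℕ) : ℕ → ℕ → ℕ → ℤ
  | 0, i, j => (if i = j then 2 ^ P else 0) - Z0 a s (2 ^ P) n i j
  | k + 1, i, l => rnd (((∑ j ∈ range n, Rk a s n P k i j * Rk a s n P k j l : ℤ) : ℝ) / 2 ^ P)

/-- The vectors of the iteration. -/
noncomputable def uk (a : ℕ → ℕ → ℝ) (b : ℕ → ℝ) (s : ℝ) (n P : ℕ) : ℕ → ℕ → ℝ
  | 0, i => (∑ j ∈ range n, a j i * b j) / s
  | k + 1, i => (∑ j ∈ range n, (Rk a s n P k i j : ℝ) * uk a b s n P k j) / 2 ^ P +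
      uk a b s n P k i

def gBody : Cmd :=
  .seq (.seq (.div (sc 10) ⟨0, .var 2, .var 3⟩ (sc 30)) (.mul (sc 10) (sc 10) (sc 29))) <|
  .seq (rndCmd WW) (.copy ⟨21, .var 2, .var 3⟩ (sc 11))

theorem gBody_mods : mods gBody = [10, 10, 17, 13, 12, 12, 16, 14, 17, 14, 12, 15, 12, 14, 15, 11, 21] := by
  simp [gBody, mods, rnd_mods, sc]

def gCmd : Cmd := .loop 2 nn (.loop 3 nn gBody)

theorem gCmd_mods : mods gCmd = mods gBody := rfl

theorem run_g (e : ℕ → ℕ) (m : Mem) (s p : ℝ) (hs : m 30 0 0 = s) (hp : m 29 0 0 = p)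
    (hb : ∀ i < e 0, ∀ j < e 0, |m 0 i j / s * p| ≤ 2 ^ (WW.eval e) - 1) :
    ∀ i < e 0, ∀ j < e 0, run gCmd e m 21 i j = (Gt (m 0) s p i j : ℤ) := by
  refine fill2 21 [0, 29, 30] (fun i j => ((Gt (m 0) s p i j : ℤ) : ℝ))
    (by rw [gBody_mods]; decide) ?_ ?_
  · intro i j i' j' h
    simp only [gBody, wrs, sc] at h
    rcases h with h | h | h
    · omega
    · have := rnd_wrs _ _ _ _ _ h; omega
    · simp [IE.eval, Function.update] at h
      exact h
  · intro i hi j hj m' hm'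
    have h0 := hm' 0 (by simp)
    have h29 := hm' 29 (by simp)
    have h30 := hm' 30 (by simp)
    unfold gBody
    rw [run_seq, run_seq]
    set f := Function.update (Function.update e 2 i) 3 j with hf
    have hf2 : f 2 = i := by simp [hf, Function.update]
    have hf3 : f 3 = j := by simp [hf, Function.update]
    have hfw : WW.eval f = WW.eval e := by simp [hf, WW, IE.eval, Function.update]
    set m1 := run (.seq (.div (sc 10) ⟨0, .var 2, .var 3⟩ (sc 30))
      (.mul (sc 10) (sc 10) (sc 29))) f m' with hm1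
    have a10 : m1 10 0 0 = m 0 i j / s * p := by
      simp [hm1, run, wr, sc, rd, IE.eval, hf2, hf3, h0, h29, h30, hs, hp]
    clear_value m1
    have h1 := run_rnd WW f m1 (by rw [a10, hfw]; exact hb i hi j hj)
    rw [a10] at h1
    simp only [run, wr, sc, rd, IE.eval, hf2, hf3, and_self, if_true]
    exact h1

/-- The first matrix: `32 := 2 ^ P - 22`. -/
def r0Cmd : Cmd :=
  .loop 2 nn (.seq (.loop 3 nn (.sub ⟨32, .var 2, .var 3⟩ (sc 31) ⟨22, .var 2, .var 3⟩))
    (.add ⟨32, .var 2, .var 2⟩ ⟨32, .var 2, .var 2⟩ (sc 29)))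

theorem r0_mods : mods r0Cmd = [32, 32] := rfl

theorem run_r0 (e : ℕ → ℕ) (m : Mem) (p : ℝ) (h31 : m 31 0 0 = 0) (hp : m 29 0 0 = p) :
    ∀ i < e 0, ∀ j < e 0, run r0Cmd e m 32 i j = (if i = j then p else 0) - m 22 i j := by
  refine loop_rows (v := 2) (N := nn) (e := e) (m := m) (c := .seq (.loop 3 nn
    (.sub ⟨32, .var 2, .var 3⟩ (sc 31) ⟨22, .var 2, .var 3⟩))
    (.add ⟨32, .var 2, .var 2⟩ ⟨32, .var 2, .var 2⟩ (sc 29))) 32 [22, 29, 31]
    (fun i r => ∀ j < e 0, r j = (if i = j then p else 0) - m 22 i j) (by simp [mods]) ?_ ?_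
  · intro i _ k _ hik j hh
    simp [wrs, IE.eval, Function.update] at hh
    omega
  · intro i hi m1 hm1
    have h22 := hm1 22 (by simp)
    have h29 := hm1 29 (by simp)
    have h31' := hm1 31 (by simp)
    rw [run_seq]
    have key := loop_inv (v := 3) (N := nn)
      (c := .sub ⟨32, .var 2, .var 3⟩ (sc 31) ⟨22, .var 2, .var 3⟩)
      (e := Function.update e 2 i) (m := m1)
      (fun k m' => m' 22 = m 22 ∧ m' 29 = m 29 ∧ m' 31 = m 31 ∧
        ∀ j < k, m' 32 i j = - m 22 i j)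
      ⟨h22, h29, h31', by simp⟩ ?_
    · set m2 := run (.loop 3 nn (.sub ⟨32, .var 2, .var 3⟩ (sc 31) ⟨22, .var 2, .var 3⟩))
        (Function.update e 2 i) m1
      obtain ⟨k22, k29, k31, k32⟩ := key
      have hN : nn.eval (Function.update e 2 i) = e 0 := by simp [nn, IE.eval, Function.update]
      rw [hN] at k32
      intro j hj
      simp only [run, wr, rd, sc, IE.eval, Function.update_self, true_and]
      by_cases hij : j = i
      · subst hij
        rw [if_pos rfl, k32 j hj, k29, hp]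
        simp
        ring
      · rw [if_neg hij, if_neg (Ne.symm hij), k32 j hj]
        ring
    · rintro k - m' ⟨g22, g29, g31, g32⟩
      refine ⟨?_, ?_, ?_, ?_⟩
      · rw [frame _ _ _ _ (by simp [mods]), g22]
      · rw [frame _ _ _ _ (by simp [mods]), g29]
      · rw [frame _ _ _ _ (by simp [mods]), g31]
      · intro j hj
        simp only [run, wr, rd, sc, IE.eval, Function.update_self, true_and]
        have h2 : (Function.update (Function.update e 2 i) 3 k) 2 = i := by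
          simp [Function.update]
        rw [h2]
        simp only [true_and]
        by_cases hjk : j = k
        · rw [if_pos hjk, g31, g22, h31, hjk]; ring
        · rw [if_neg hjk]; exact g32 j (by omega)

/-- The first vector. -/
def u0Cmd : Cmd :=
  .loop 2 nn (.seq (dotCmd nn ⟨33, .var 2, .lit 0⟩ ⟨0, .var 3, .var 2⟩ ⟨1, .var 3, .lit 0⟩)
    (.div ⟨33, .var 2, .lit 0⟩ ⟨33, .var 2, .lit 0⟩ (sc 30)))

theorem u0_mods : mods u0Cmd = [33, 27, 33, 33] := rfl

theorem run_u0 (e : ℕ → ℕ) (m : Mem) (s : ℝ) (hs : m 30 0 0 = s) :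
    ∀ i < e 0, run u0Cmd e m 33 i 0 = (∑ j ∈ range (e 0), m 0 j i * m 1 j 0) / s := by
  refine fill1 33 [0, 1, 30] (fun i => (∑ j ∈ range (e 0), m 0 j i * m 1 j 0) / s)
    (by simp [mods, dot_mods]) ?_ ?_
  · intro i i' j' h
    simp only [wrs] at h
    rcases h with h | h
    · have := (dot_wrs _ _ _ _ _ _ _ _ (by norm_num) (by intro k; rfl) (by intro k; rfl) h).2.1
      simpa [IE.eval] using this
    · simpa [IE.eval] using h.2.1
  · intro i hi m' hm'
    have h0 := hm' 0 (by simp)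
    have h1 := hm' 1 (by simp)
    have h30 := hm' 30 (by simp)
    rw [run_seq]
    have hd := run_dot nn ⟨33, .var 2, .lit 0⟩ ⟨0, .var 3, .var 2⟩ ⟨1, .var 3, .lit 0⟩
      (Function.update e 2 i) m' (by norm_num) (by norm_num) (by norm_num) (by norm_num)
      (by norm_num) (by intro k; rfl) (by intro k; rfl)
    set m1 := run (dotCmd nn ⟨33, .var 2, .lit 0⟩ ⟨0, .var 3, .var 2⟩ ⟨1, .var 3, .lit 0⟩)
      (Function.update e 2 i) m' with hm1
    have b30 : m1 30 = m 30 := by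
      rw [hm1, frame _ _ _ _ (by rw [dot_mods]; decide), h30]
    clear_value m1
    simp [IE.eval, rd, nn, Function.update] at hd
    simp only [run, wr, rd, sc, IE.eval, Function.update_self, true_and, and_self, if_true]
    rw [hd, b30, hs, h0, h1]

/-- New vector. -/
def uCmd : Cmd :=
  .loop 2 nn (.seq (dotCmd nn ⟨34, .var 2, .lit 0⟩ ⟨32, .var 2, .var 3⟩ ⟨33, .var 3, .lit 0⟩)
    (.seq (.div ⟨34, .var 2, .lit 0⟩ ⟨34, .var 2, .lit 0⟩ (sc 29))
      (.add ⟨34, .var 2, .lit 0⟩ ⟨34, .var 2, .lit 0⟩ ⟨33, .var 2, .lit 0⟩)))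

theorem u_mods : mods uCmd = [34, 27, 34, 34, 34] := rfl

theorem run_u (e : ℕ → ℕ) (m : Mem) (p : ℝ) (hp : m 29 0 0 = p) :
    ∀ i < e 0, run uCmd e m 34 i 0 =
      (∑ j ∈ range (e 0), m 32 i j * m 33 j 0) / p + m 33 i 0 := by
  refine fill1 34 [29, 32, 33]
    (fun i => (∑ j ∈ range (e 0), m 32 i j * m 33 j 0) / p + m 33 i 0)
    (by simp [mods, dot_mods]) ?_ ?_
  · intro i i' j' h
    simp only [wrs] at h
    rcases h with h | h | h
    · have := (dot_wrs _ _ _ _ _ _ _ _ (by norm_num) (by intro k; rfl) (by intro k; rfl) h).2.1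
      simpa [IE.eval] using this
    · simpa [IE.eval] using h.2.1
    · simpa [IE.eval] using h.2.1
  · intro i hi m' hm'
    have h32 := hm' 32 (by simp)
    have h33 := hm' 33 (by simp)
    have h29 := hm' 29 (by simp)
    rw [run_seq]
    have hd := run_dot nn ⟨34, .var 2, .lit 0⟩ ⟨32, .var 2, .var 3⟩ ⟨33, .var 3, .lit 0⟩
      (Function.update e 2 i) m' (by norm_num) (by norm_num) (by norm_num) (by norm_num)
      (by norm_num) (by intro k; rfl) (by intro k; rfl)
    set m1 := run (dotCmd nn ⟨34, .var 2, .lit 0⟩ ⟨32, .var 2, .var 3⟩ ⟨33, .var 3, .lit 0⟩)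
      (Function.update e 2 i) m' with hm1
    have b29 : m1 29 = m 29 := by
      rw [hm1, frame _ _ _ _ (by rw [dot_mods]; decide), h29]
    have b33 : m1 33 = m 33 := by
      rw [hm1, frame _ _ _ _ (by rw [dot_mods]; decide), h33]
    clear_value m1
    simp [IE.eval, rd, nn, Function.update] at hd
    simp [run, wr, rd, sc, IE.eval, hd, b29, b33, hp, h32, h33]

/-- Copy a vector. -/
def cvCmd (a b : ℕ) : Cmd := .loop 2 nn (.copy ⟨a, .var 2, .lit 0⟩ ⟨b, .var 2, .lit 0⟩)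

theorem run_cv (a b : ℕ) (hab : b ≠ a) (e : ℕ → ℕ) (m : Mem) :
    ∀ i < e 0, run (cvCmd a b) e m a i 0 = m b i 0 := by
  refine fill1 a [b] (fun i => m b i 0) (by simpa [mods] using hab) ?_ ?_
  · intro i i' j' h
    simp [wrs, IE.eval, Function.update] at h
    exact h.1
  · intro i _ m' hm'
    simp [run, wr, rd, IE.eval, Function.update, hm' b (by simp)]

theorem cv_mods (a b : ℕ) : mods (cvCmd a b) = [a] := rfl

/-- One step of the iteration. -/
def stepCmd : Cmd :=
  .seq uCmd <| .seq (cvCmd 33 34) <| .seq (cpCmd 20 32) <| .seq (cpCmd 21 32) <|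
  .seq mulCmd (cpCmd 32 22)

theorem step_mods : mods stepCmd = [34, 27, 34, 34, 34, 33, 20, 21] ++ (mods mulCmd ++ [32]) := by
  simp [stepCmd, mods, u_mods, cv_mods, cp_mods]

theorem run_step (e : ℕ → ℕ) (m : Mem) (p : ℝ) (hp : m 29 0 0 = p) (hp1 : 1 ≤ p)
    (R : ℕ → ℕ → ℤ) (u : ℕ → ℝ) (hR : ∀ i < e 0, ∀ j < e 0, m 32 i j = R i j)
    (hu : ∀ i < e 0, m 33 i 0 = u i)
    (hS : ∀ i < e 0, ∀ l < e 0,
      |((∑ j ∈ range (e 0), R i j * R j l : ℤ) : ℝ)| ≤ 2 ^ (WW.eval e) / 4) :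
    (∀ i < e 0, ∀ l < e 0, run stepCmd e m 32 i l =
      (rnd (((∑ j ∈ range (e 0), R i j * R j l : ℤ) : ℝ) / p) : ℤ)) ∧
    (∀ i < e 0, run stepCmd e m 33 i 0 =
      (∑ j ∈ range (e 0), (R i j : ℝ) * u j) / p + u i) := by
  unfold stepCmd
  rw [run_seq, run_seq, run_seq, run_seq, run_seq]
  have r1 := run_u e m p hp
  set m1 := run uCmd e m with hm1
  have a29 : m1 29 = m 29 := by rw [hm1, frame _ _ _ _ (by rw [u_mods]; decide)]
  have a32 : m1 32 = m 32 := by rw [hm1, frame _ _ _ _ (by rw [u_mods]; decide)]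
  clear_value m1
  have r2 := run_cv 33 34 (by norm_num) e m1
  set m2 := run (cvCmd 33 34) e m1 with hm2
  have b29 : m2 29 = m 29 := by rw [hm2, frame _ _ _ _ (by rw [cv_mods]; decide), a29]
  have b32 : m2 32 = m 32 := by rw [hm2, frame _ _ _ _ (by rw [cv_mods]; decide), a32]
  clear_value m2
  have r3 := run_cp 20 32 (by norm_num) e m2
  set m3 := run (cpCmd 20 32) e m2 with hm3
  have c29 : m3 29 = m 29 := by rw [hm3, frame _ _ _ _ (by rw [cp_mods]; decide), b29]
  have c32 : m3 32 = m 32 := by rw [hm3, frame _ _ _ _ (by rw [cp_mods]; decide), b32]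
  have c33 : m3 33 = m2 33 := by rw [hm3, frame _ _ _ _ (by rw [cp_mods]; decide)]
  clear_value m3
  have r4 := run_cp 21 32 (by norm_num) e m3
  set m4 := run (cpCmd 21 32) e m3 with hm4
  have d29 : m4 29 = m 29 := by rw [hm4, frame _ _ _ _ (by rw [cp_mods]; decide), c29]
  have d20 : m4 20 = m3 20 := by rw [hm4, frame _ _ _ _ (by rw [cp_mods]; decide)]
  have d33 : m4 33 = m2 33 := by rw [hm4, frame _ _ _ _ (by rw [cp_mods]; decide), c33]
  clear_value m4
  have r5 := run_mul e m4 (e 0) R R p rfl (by rw [d29]; exact hp) hp1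
    (by intro i hi j hj; rw [d20, r3 i hi j hj, b32]; exact hR i hi j hj)
    (by intro i hi j hj; rw [r4 i hi j hj, c32]; exact hR i hi j hj) hS
  set m5 := run mulCmd e m4 with hm5
  have e33 : m5 33 = m2 33 := by
    rw [hm5, frame _ _ _ _ (by rw [mulCmd_mods, digitBody_mods]; decide), d33]
  clear_value m5
  have r6 := run_cp 32 22 (by norm_num) e m5
  refine ⟨fun i hi l hl => by rw [r6 i hi l hl]; exact r5 i hi l hl, fun i hi => ?_⟩
  rw [frame _ _ _ _ (by rw [cp_mods]; decide), e33, r2 i hi, r1 i hi, hu i hi]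
  congr 2
  exact sum_congr rfl fun j hj => by
    rw [hR i hi j (mem_range.mp hj), hu j (mem_range.mp hj)]

end Pool.Agent.Q225.PK
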