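import Pool.Agent.Q225.PK.Main

set_option autoImplicit false

/-!
# Averaged condition numbers
-/

namespace Pool.Agent.Q225.PK

open Finset Matrix Module

variable {n : ℕ}

theorem sv_nonneg (A : Matrix (Fin n) (Fin n) ℝ) (i : ℕ) : 0 ≤ sv A i :=
  LinearMap.singularValues_nonneg _ i

theorem sv_anti (A : Matrix (Fin n) (Fin n) ℝ) : Antitone (sv A) :=
  LinearMap.singularValues_antitone _

theorem nrm_toLin (A : Matrix (Fin n) (Fin n) ℝ) (v : EuclideanSpace ℝ (Fin n)) :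
    ‖Matrix.toEuclideanLin A v‖ = nrm (A *ᵥ v.ofLp) := by
  rw [nrm_eq]
  rfl

theorem norm_sq_expand (A : Matrix (Fin n) (Fin n) ℝ) (v : EuclideanSpace ℝ (Fin n)) :
    ‖Matrix.toEuclideanLin A v‖ ^ 2 = ∑ i : Fin n, sv A i ^ 2 *
      (inner ℝ ((Matrix.toEuclideanLin A).isSymmetric_adjoint_comp_self.eigenvectorBasis
        finrank_euclideanSpace_fin i) v) ^ 2 := by
  set T := Matrix.toEuclideanLin A with hT
  set hS := T.isSymmetric_adjoint_comp_self
  set B := hS.eigenvectorBasis (finrank_euclideanSpace_fin (𝕜 := ℝ) (n := n)) with hB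
  have h1 : ‖T v‖ ^ 2 = inner ℝ ((LinearMap.adjoint T ∘ₗ T) v) v := by
    rw [LinearMap.comp_apply, LinearMap.adjoint_inner_left, real_inner_self_eq_norm_sq]
  rw [h1, ← B.sum_inner_mul_inner]
  refine sum_congr rfl fun i _ => ?_
  have h2 : inner ℝ ((LinearMap.adjoint T ∘ₗ T) v) (B i) =
      inner ℝ v ((LinearMap.adjoint T ∘ₗ T) (B i)) := hS v (B i)
  rw [h2, hB, hS.apply_eigenvectorBasis, inner_smul_right, real_inner_comm]
  have h3 : sv A i ^ 2 = hS.eigenvalues finrank_euclideanSpace_fin i :=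
    T.sq_singularValues_fin finrank_euclideanSpace_fin i
  rw [h3]
  simp
  ring

theorem norm_sq_basis (A : Matrix (Fin n) (Fin n) ℝ) (v : EuclideanSpace ℝ (Fin n)) :
    ‖v‖ ^ 2 = ∑ i : Fin n,
      (inner ℝ ((Matrix.toEuclideanLin A).isSymmetric_adjoint_comp_self.eigenvectorBasis
        finrank_euclideanSpace_fin i) v) ^ 2 := by
  set B := (Matrix.toEuclideanLin A).isSymmetric_adjoint_comp_self.eigenvectorBasis
    (finrank_euclideanSpace_fin (𝕜 := ℝ) (n := n)) with hB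
  rw [← real_inner_self_eq_norm_sq, ← B.sum_inner_mul_inner]
  refine sum_congr rfl fun i _ => ?_
  rw [real_inner_comm, sq]

/-- The last singular value is a lower bound for the increase of norms. -/
theorem sv_last (A : Matrix (Fin n) (Fin n) ℝ) (v : Fin n → ℝ) :
    sv A (n - 1) * nrm v ≤ nrm (A *ᵥ v) := by
  have h := norm_sq_expand A (WithLp.toLp 2 v)
  have h' := norm_sq_basis A (WithLp.toLp 2 v)
  rw [nrm_toLin, ] at h
  rw [← nrm_eq] at h'
  refine le_of_sq_le_sq ?_ (nrm_nonneg _)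
  rw [mul_pow, h', mul_sum]
  refine le_trans ?_ (le_of_eq h.symm)
  refine sum_le_sum fun i _ => ?_
  refine mul_le_mul_of_nonneg_right ?_ (sq_nonneg _)
  exact pow_le_pow_left₀ (sv_nonneg _ _) (sv_anti A (by omega)) 2

/-- The first singular value is an upper bound for the increase of norms. -/
theorem sv_first (A : Matrix (Fin n) (Fin n) ℝ) : OpB A (sv A 0) := fun v => by
  have h := norm_sq_expand A (WithLp.toLp 2 v)
  have h' := norm_sq_basis A (WithLp.toLp 2 v)
  rw [nrm_toLin] at h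
  rw [← nrm_eq] at h'
  refine le_of_sq_le_sq ?_ (mul_nonneg (sv_nonneg _ _) (nrm_nonneg _))
  rw [mul_pow, h', mul_sum]
  refine le_trans (le_of_eq h) ?_
  refine sum_le_sum fun i _ => ?_
  refine mul_le_mul_of_nonneg_right ?_ (sq_nonneg _)
  exact pow_le_pow_left₀ (sv_nonneg _ _) (sv_anti A (Nat.zero_le _)) 2

theorem sv_pos (A : Matrix (Fin n) (Fin n) ℝ) (hn : 1 ≤ n) (hA : A.det ≠ 0) :
    0 < sv A (n - 1) := by
  have hinj : Function.Injective (Matrix.toEuclideanLin A) := by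
    rw [injective_iff_map_eq_zero]
    intro v hv
    have h1 : A *ᵥ v.ofLp = 0 := by
      have := congrArg WithLp.ofLp hv
      simpa using this
    have h2 : v.ofLp = 0 := by
      have h3 : A⁻¹ *ᵥ (A *ᵥ v.ofLp) = v.ofLp := by
        rw [mulVec_mulVec, Matrix.nonsing_inv_mul A (isUnit_iff_ne_zero.mpr hA), one_mulVec]
      rw [← h3, h1, mulVec_zero]
    ext i
    exact congrFun h2 i
  exact ((Matrix.toEuclideanLin A).injective_iff_forall_lt_finrank_singularValues_pos.mp hinj)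
    (n - 1) (by rw [finrank_euclideanSpace_fin]; omega)

theorem absSum_le (A : Matrix (Fin n) (Fin n) ℝ) : absSum A ≤ (n : ℝ) ^ 2 * sv A 0 := by
  calc absSum A ≤ ∑ _i : Fin n, ∑ _j : Fin n, sv A 0 :=
        sum_le_sum fun i _ => sum_le_sum fun j _ => (sv_first A).entry i j
    _ = _ := by simp; ring

theorem one_le_ratio (A : Matrix (Fin n) (Fin n) ℝ) (hn : 1 ≤ n) (hA : A.det ≠ 0) (i : ℕ)
    (hi : i < n) : 1 ≤ sv A i / sv A (n - 1) :=
  (one_le_div (sv_pos A hn hA)).mpr (sv_anti A (by omega))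

theorem one_le_kap (A : Matrix (Fin n) (Fin n) ℝ) (hn : 1 ≤ n) (hA : A.det ≠ 0) (p : ℝ)
    (hp : 0 < p) : 1 ≤ kap p A := by
  unfold kap
  refine Real.one_le_rpow ?_ (by positivity)
  have hn0 : (0 : ℝ) < n := by exact_mod_cast hn
  have h : (n : ℝ) ≤ ∑ i ∈ range n, (sv A i ^ p / sv A (n - 1) ^ p) := by
    calc (n : ℝ) = ∑ _i ∈ range n, (1 : ℝ) := by simp
      _ ≤ _ := sum_le_sum fun i hi => by
        rw [← Real.div_rpow (sv_nonneg _ _) (sv_nonneg _ _)]
        exact Real.one_le_rpow (one_le_ratio A hn hA i (mem_range.mp hi)) hp.le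
  rw [one_div, inv_mul_eq_div, one_le_div hn0]
  exact h

theorem ratio_le_kap (A : Matrix (Fin n) (Fin n) ℝ) (hn : 1 ≤ n) (hA : A.det ≠ 0) (p : ℝ)
    (hp : 0 < p) : sv A 0 / sv A (n - 1) ≤ (n : ℝ) ^ (1 / p) * kap p A := by
  have hn0 : (0 : ℝ) < n := by exact_mod_cast hn
  have h0 : ∀ i, 0 ≤ sv A i ^ p / sv A (n - 1) ^ p := fun i =>
    div_nonneg (Real.rpow_nonneg (sv_nonneg _ _) _) (Real.rpow_nonneg (sv_nonneg _ _) _)
  unfold kap
  rw [← Real.mul_rpow hn0.le (mul_nonneg (by positivity) (sum_nonneg fun i _ => h0 i)),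
    ← mul_assoc, mul_one_div_cancel hn0.ne', one_mul]
  have h1 : sv A 0 / sv A (n - 1) = ((sv A 0 / sv A (n - 1)) ^ p) ^ (1 / p) := by
    rw [← Real.rpow_mul (div_nonneg (sv_nonneg _ _) (sv_nonneg _ _)), mul_one_div_cancel hp.ne',
      Real.rpow_one]
  rw [h1]
  refine Real.rpow_le_rpow (Real.rpow_nonneg (div_nonneg (sv_nonneg _ _) (sv_nonneg _ _)) _) ?_
    (by positivity)
  rw [Real.div_rpow (sv_nonneg _ _) (sv_nonneg _ _)]
  exact single_le_sum (f := fun i => sv A i ^ p / sv A (n - 1) ^ p) (fun i _ => h0 i)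
    (mem_range.mpr hn)

theorem log_ratio (A : Matrix (Fin n) (Fin n) ℝ) (hn : 1 ≤ n) (hA : A.det ≠ 0) (p : ℝ)
    (hp : 0 < p) : Real.log (absSum A / sv A (n - 1)) ≤
      (2 + 1 / p) * Real.log n + Real.log (kap p A) := by
  have hn0 : (1 : ℝ) ≤ n := by exact_mod_cast hn
  have hpos := sv_pos A hn hA
  have hs := absSum_pos A hn hA
  have hk := one_le_kap A hn hA p hp
  have h1 : absSum A / sv A (n - 1) ≤ (n : ℝ) ^ (2 : ℕ) * ((n : ℝ) ^ (1 / p) * kap p A) := by
    calc absSum A / sv A (n - 1) ≤ (n : ℝ) ^ 2 * sv A 0 / sv A (n - 1) :=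
          div_le_div_of_nonneg_right (absSum_le A) hpos.le
      _ = (n : ℝ) ^ 2 * (sv A 0 / sv A (n - 1)) := by ring
      _ ≤ _ := mul_le_mul_of_nonneg_left (ratio_le_kap A hn hA p hp) (by positivity)
  have h2 := Real.log_le_log (div_pos hs hpos) h1
  rw [Real.log_mul (by positivity) (by positivity), Real.log_mul (by positivity) (by positivity),
    Real.log_pow, Real.log_rpow (by linarith)] at h2
  push_cast at h2
  linarith

end Pool.Agent.Q225.PK
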